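import Pool.Agent.K1H17.IS.Ga2
import Pool.Agent.W735.PG.DESCJ

/-! The coefficients of a section of `m K + j A` on the product of two varieties with function fields
`M` and `F`, with respect to functions in `F`, are sections of `m K + j A'` on the first factor. -/

set_option autoImplicit false
set_option linter.overlappingInstances false
set_option linter.unusedSectionVars false

universe u v

open FF IntermediateField Pool.Agent.W619.PQ Pool.Agent.W619.PL Pool.Agent.W619.TW
  Pool.Agent.W603.LV Pool.Agent.W619.Y Pool.Agent.W735.PG.DESCJ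

namespace Pool.Agent.K1H17.IS

section

variable {k : Type v} {L : Type u} [Field k] [CharZero k] [Field L] [Algebra k L]
  {M F : IntermediateField k L}

/-- The coordinates of `M` and `F`, together. -/
def app {a b : ℕ} (y : Fin a → M) (x : Fin b → F) : Fin (a + b) → L :=
  Fin.append (fun l => (y l : L)) (fun i => (x i : L))

theorem app_left {a b : ℕ} (y : Fin a → M) (x : Fin b → F) (i : Fin a) :
    app y x (Fin.castAdd b i) = (y i : L) := by simp [app]

theorem app_right {a b : ℕ} (y : Fin a → M) (x : Fin b → F) (i : Fin b) :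
    app y x (Fin.natAdd a i) = (x i : L) := by simp [app]

theorem cast_ne_nat {a b : ℕ} (i : Fin a) (j : Fin b) : Fin.castAdd b i ≠ Fin.natAdd a j := by
  intro h
  have := congrArg Fin.val h
  simp at this
  omega

/-- block matrices -/
theorem det_blk {R : Type*} [CommRing R] {a b : ℕ} (P : Matrix (Fin a) (Fin a) R)
    (Q : Matrix (Fin b) (Fin b) R) :
    (Matrix.reindex finSumFinEquiv finSumFinEquiv (Matrix.fromBlocks P 0 0 Q)).det =
      P.det * Q.det := by
  rw [Matrix.det_reindex_self, Matrix.det_fromBlocks_zero₂₁]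

variable {a b : ℕ} {y : Fin a → M} {x : Fin b → F} {E : Fin (a + b) → Derivation k L L}

theorem dual_left_M (hE : ∀ i j, E i (app y x j) = if i = j then 1 else 0) (i j : Fin a) :
    E (Fin.castAdd b i) (y j : L) = if i = j then 1 else 0 := by
  rw [← app_left y x j, hE]
  by_cases h : i = j
  · rw [if_pos h, if_pos (by rw [h])]
  · rw [if_neg h, if_neg (fun h' => h (Fin.castAdd_injective _ _ h'))]

theorem dual_left_F (hE : ∀ i j, E i (app y x j) = if i = j then 1 else 0)
    (hx : IsTranscendenceBasis k x) (i : Fin a) (z : F) :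
    E (Fin.castAdd b i) (z : L) = 0 := by
  refine der_zero ((E (Fin.castAdd b i)).compAlgebraMap F) x hx (fun j => ?_) z
  change E (Fin.castAdd b i) (x j : L) = 0
  rw [← app_right y x j, hE, if_neg (cast_ne_nat i j)]

theorem dual_right_F (hE : ∀ i j, E i (app y x j) = if i = j then 1 else 0) (i j : Fin b) :
    E (Fin.natAdd a i) (x j : L) = if i = j then 1 else 0 := by
  rw [← app_right y x j, hE]
  by_cases h : i = j
  · rw [if_pos h, if_pos (by rw [h])]
  · rw [if_neg h, if_neg (fun h' => h (Fin.natAdd_injective _ _ h'))]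

theorem dual_right_M (hE : ∀ i j, E i (app y x j) = if i = j then 1 else 0)
    (hy : IsTranscendenceBasis k y) (i : Fin b) (z : M) :
    E (Fin.natAdd a i) (z : L) = 0 := by
  refine der_zero ((E (Fin.natAdd a i)).compAlgebraMap M) y hy (fun j => ?_) z
  change E (Fin.natAdd a i) (y j : L) = 0
  rw [← app_left y x j, hE, if_neg (cast_ne_nat j i).symm]

theorem descJ [IsAlgClosed k] (h : Dj M F) (hM : Algebra.trdeg k M = a)
    (hy : IsTranscendenceBasis k y) (hx : IsTranscendenceBasis k x)
    (hE : ∀ i j, E i (app y x j) = if i = j then 1 else 0) (S : Finset L) (b0 : L)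
    (hb0 : b0 ≠ 0) : ∃ S' : Finset M, ∀ (m j : ℕ)
      (ω : (Fin (a + b) → Derivation k L L) → L), IsSec k L (a + b) (fun _ => False) S m j ω →
      ∀ (r : ℕ) (β : Fin r → F) (μ : Fin r → M), LinearIndependent k β →
        b0 ^ j * ω E = ∑ i, (β i : L) * (μ i : L) →
        ∀ i, IsSec k M a (fun _ => False) S' m j
          (fun D => μ i * (Matrix.of fun a b => D a (y b)).det ^ m) := by
  classical
  have hT : ∀ s : L, s ≠ 0 → ∃ T : Finset M, ∀ (u : Place k M) (U : Place k L),
      (∀ μ : M, U.ord (μ : L) = u.ord μ) → (∀ β : F, U.ord (β : L) = 0) →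
      (∀ (r : ℕ) (β : Fin r → F) (μ : Fin r → M) (c : ℤ), LinearIndependent k β →
        Ge U c (∑ i, (β i : L) * (μ i : L)) → ∀ i, Ge u c (μ i)) →
      ∃ s' ∈ T, s' ≠ 0 ∧ u.ord s' ≤ U.ord (b0 * s) :=
    fun s hs => exists_low h.sup (mul_ne_zero hb0 hs)
  choose! T hT using hT
  refine ⟨S.biUnion T, ?_⟩
  intro m j ω hω r β μ hβ hsum i
  refine ⟨?_, ?_, fun u hu hf => hf.elim⟩
  · intro A D
    have h2 : (Matrix.of fun a b => (∑ c, A a c • D c) (y b)) =
        A * Matrix.of fun a b => D a (y b) := by
      ext a b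
      rw [Matrix.of_apply, Matrix.mul_apply]
      simp only [Matrix.of_apply]
      congr 1
      exact der_sum (L := M) _ _ _ _
    show μ i * (Matrix.of fun a b => (∑ c, A a c • D c) (y b)).det ^ m = _
    rw [h2, Matrix.det_mul]
    ring
  · intro u hu _ D hD
    have hU1 := UU_M h u
    have hU2 := UU_F h u
    have hU3 := fun r β μ c => UU_fam h u r β μ c
    have hU4 := UU_div' h u a b hM x hx.1 hu
    have hU5 := UU_pres h u
    set U := UU h u with hU
    -- the derivations of `L`
    let D' : Fin (a + b) → Derivation k L L := fun i =>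
      Fin.addCases (motive := fun _ => Derivation k L L)
        (fun l : Fin a => ∑ c, ((D l (y c) : M) : L) • E (Fin.castAdd b c))
        (fun l : Fin b => E (Fin.natAdd a l)) i
    let P : Matrix (Fin a) (Fin a) L := Matrix.of fun l c => ((D l (y c) : M) : L)
    let A : Matrix (Fin (a + b)) (Fin (a + b)) L :=
      Matrix.reindex finSumFinEquiv finSumFinEquiv (Matrix.fromBlocks P 0 0 1)
    have hA11 : ∀ i j, A (Fin.castAdd b i) (Fin.castAdd b j) = ((D i (y j) : M) : L) := by
      intro i j
      simp [A, P]
    have hA12 : ∀ i j, A (Fin.castAdd b i) (Fin.natAdd a j) = 0 := by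
      intro i j
      simp [A]
    have hA21 : ∀ i j, A (Fin.natAdd a i) (Fin.castAdd b j) = 0 := by
      intro i j
      simp [A]
    have hA22 : ∀ i j, A (Fin.natAdd a i) (Fin.natAdd a j) = if i = j then 1 else 0 := by
      intro i j
      simp [A, Matrix.one_apply]
    have hA : (fun a => ∑ c, A a c • E c) = D' := by
      funext i
      refine Fin.addCases (fun l => ?_) (fun l => ?_) i
      · rw [Fin.sum_univ_add]
        simp only [hA11, hA12, zero_smul, Finset.sum_const_zero, add_zero]
        simp [D']
      · rw [Fin.sum_univ_add]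
        simp only [hA21, hA22, zero_smul, Finset.sum_const_zero, zero_add, ite_smul, one_smul]
        simp [D']
    have hdet : A.det = (((Matrix.of fun a b => D a (y b)).det : M) : L) := by
      have h5 : A.det = P.det * (1 : Matrix (Fin b) (Fin b) L).det := det_blk P 1
      rw [h5, Matrix.det_one, mul_one]
      have h6 := (algebraMap M L).map_det (Matrix.of fun a b => D a (y b))
      have h7 : P = (algebraMap M L).mapMatrix (Matrix.of fun a b => D a (y b)) := by
        ext a b
        rfl
      rw [h7, ← h6]
      rfl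
    have hωD : ω D' = (((Matrix.of fun a b => D a (y b)).det : M) : L) ^ m * ω E := by
      rw [← hdet, ← hω.1 A E, hA]
    -- the derivations preserve the valuation ring of `U`
    have hD'1 : ∀ l, D' (Fin.castAdd b l) = ∑ c, ((D l (y c) : M) : L) • E (Fin.castAdd b c) := by
      intro l
      simp [D']
    have hD'2 : ∀ l, D' (Fin.natAdd a l) = E (Fin.natAdd a l) := by
      intro l
      simp [D']
    have hyM : ∀ (l : Fin a) (z : M), D' (Fin.castAdd b l) (z : L) = ((D l z : M) : L) := by
      intro l z
      refine der_comp (K := M) (L := L) (D l) (D' (Fin.castAdd b l)) y hy (fun c => ?_) z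
      rw [hD'1]
      show (∑ b', ((D l (y b') : M) : L) • E (Fin.castAdd b b')) ((y c : M) : L) =
        ((D l (y c) : M) : L)
      rw [der_sum]
      simp only [dual_left_M hE]
      simp
    obtain ⟨E2, hE2⟩ := Pool.Agent.W636.PG.exists_duals k F b x hx
    have hpres : ∀ a, Pres U (D' a) := by
      intro i
      refine Fin.addCases (fun l => ?_) (fun l => ?_) i
      · refine hU5 _ (fun z hz => ⟨D l z, hyM l z, hD l z hz⟩) (fun β => ⟨0, ?_⟩)
        rw [hD'1, der_sum]
        simp [dual_left_F hE hx]
      · rw [hD'2]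
        refine hU5 _ (fun z _ => ⟨0, ?_, u.reg_zero⟩) (fun β => ⟨E2 l β, ?_⟩)
        · rw [dual_right_M hE hy]; rfl
        · refine der_comp (K := F) (L := L) (E2 l) (E (Fin.natAdd a l)) x hx (fun c => ?_) β
          change E (Fin.natAdd a l) (x c : L) = ((E2 l (x c) : F) : L)
          rw [dual_right_F hE, hE2]
          split_ifs <;> rfl
    have hdom := hω.2.1 U hU4 (fun h => h) D' hpres
    -- multiply by `b0 ^ j`
    set δ : M := (Matrix.of fun a b => D a (y b)).det with hδ
    have hexp : b0 ^ j * ω D' = ∑ i, (β i : L) * ((μ i * δ ^ m : M) : L) := by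
      rw [hωD]
      calc b0 ^ j * ((δ : L) ^ m * ω E) = (δ : L) ^ m * (b0 ^ j * ω E) := by ring
        _ = _ := by
          rw [hsum, Finset.mul_sum]
          refine Finset.sum_congr rfl fun i _ => ?_
          push_cast; ring
    show Dom u (S.biUnion T) j (μ i * δ ^ m)
    rcases hdom with h0 | ⟨s, hs, hs0, hsU⟩
    · left
      by_contra hne
      have h9 := hU3 r β (fun i => μ i * δ ^ m) (u.ord (μ i * δ ^ m) + 1) hβ
        (by rw [← hexp, h0, mul_zero]; exact Ge.zero) i
      have := h9.resolve_left hne
      omega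
    · obtain ⟨s', hs', hs'0, hle⟩ := hT s hs0 u U hU1 hU2 hU3
      have h9 : Ge U ((j : ℤ) * u.ord s') (b0 ^ j * ω D') := by
        have h10 : Ge U ((j : ℤ) * U.ord s) (ω D') := Or.inr hsU
        have h11 : Ge U ((j : ℤ) * U.ord b0) (b0 ^ j) := Or.inr (by rw [U.ord_pow])
        refine (h11.mul h10).mono ?_
        rw [U.ord_mul hb0 hs0] at hle
        rw [← mul_add]
        exact mul_le_mul_of_nonneg_left hle (by positivity)
      rw [hexp] at h9
      rcases hU3 r β (fun i => μ i * δ ^ m) _ hβ h9 i with h12 | h12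
      · left; exact h12
      · right
        exact ⟨s', Finset.mem_biUnion.2 ⟨s, hs, hs'⟩, hs'0, h12⟩

end

end Pool.Agent.K1H17.IS
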