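import Pool.Agent.K1H17.IS.Fo

/-! Kodaira dimension of quotients of a product of two varieties: the two criteria. -/

set_option autoImplicit false
set_option linter.overlappingInstances false
set_option linter.unusedSectionVars false
set_option linter.unusedVariables false
set_option linter.style.haveILetI false

open FF IntermediateField Pool.Agent.W619.PQ Pool.Agent.W619.PL Pool.Agent.W619.TW
  Pool.Agent.W603.LV Pool.Agent.W619.Y Pool.Agent.W672.PG Pool.Agent.W824.PG Pool.Agent.Y174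

namespace Pool.Agent.K1H17.IS

section

theorem basis_up {k B K : Type} [Field k] [Field B] [Field K] [Algebra k B] [Algebra k K]
    [Algebra B K] [IsScalarTower k B K] [Algebra.IsAlgebraic B K] {a : ℕ} (y : Fin a → B)
    (hy : IsTranscendenceBasis k y) : IsTranscendenceBasis k (fun i => algebraMap B K (y i)) :=
  hy.algebraMap_comp

variable {k : Type} {L : Type} [Field k] [CharZero k] [Field L] [Algebra k L]

theorem LG.mono {w : Place k L} {d m : ℕ} {y : Fin d → L} {a : L} {γ γ' : ℝ}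
    (h : LG w m y a γ) (h' : γ' ≤ γ) : LG w m y a γ' := by
  obtain ⟨Z, φ, h1, h2, h3⟩ := h
  exact ⟨Z, φ, h1, h2, h3.mono h'⟩

variable (M : IntermediateField k L) (G : Subgroup (L ≃ₐ[k] L)) [Finite G]

/-- The coordinates on a factor. -/
theorem exists_coords (hGM : ∀ g ∈ G, ∀ z ∈ M, g z ∈ M) {a : ℕ} (hM : Algebra.trdeg k M = a) :
    ∃ (y0 : Fin a → ↥(M ⊓ fixedField G)) (E : Fin a → Derivation k M M),
      IsTranscendenceBasis k y0 ∧
      IsTranscendenceBasis k (fun i => inclusion (inf_le_left : M ⊓ fixedField G ≤ M) (y0 i)) ∧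
      ∀ i j, E i (inclusion (inf_le_left : M ⊓ fixedField G ≤ M) (y0 j)) =
        if i = j then 1 else 0 := by
  letI := qalg M G
  haveI := qtower M G
  haveI := qalgebraic M G hGM
  obtain ⟨y0, hy0⟩ := Pool.Agent.W636.PG.exists_basis k ↥(M ⊓ fixedField G) a (qtrdeg M G hGM hM)
  have hy : IsTranscendenceBasis k
      (fun i => inclusion (inf_le_left : M ⊓ fixedField G ≤ M) (y0 i)) :=
    basis_up (K := M) y0 hy0
  obtain ⟨E, hE⟩ := Pool.Agent.W636.PG.exists_duals k M a _ hy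
  exact ⟨y0, E, hy0, hy, hE⟩

/-- Criterion A, on one factor. -/
theorem factor_A (hGM : ∀ g ∈ G, ∀ z ∈ M, g z ∈ M)
    (hf : ∀ g ∈ G, (∀ z ∈ M, g z = z) → g = 1) {a r A : ℕ} (hM : Algebra.trdeg k M = a)
    (hn : Algebra.trdeg k L = r) (hessM : Algebra.EssFiniteType k M) {t : ℝ} (ht : t ≤ 1)
    {δ : Place k ↥(M ⊓ fixedField G) → ℝ}
    (hδ : ∀ (u : Place k M) v e, LiesOver inf_le_left u v e → δ v ≤ t ∧ 1 ≤ e * (1 - δ v))
    (hη : PairKod k ↥(M ⊓ fixedField G) a δ 0) (hω : KodTr k M a A)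
    (y0 : Fin a → ↥(M ⊓ fixedField G)) (hy0 : IsTranscendenceBasis k y0)
    (hy : IsTranscendenceBasis k
      (fun i => inclusion (inf_le_left : M ⊓ fixedField G ≤ M) (y0 i)))
    (E : Fin a → Derivation k M M)
    (hE : ∀ i j, E i (inclusion (inf_le_left : M ⊓ fixedField G ≤ M) (y0 j)) =
        if i = j then 1 else 0) :
    ∃ n m : ℕ, 1 ≤ n ∧ 1 ≤ m ∧ ∀ T s : ℕ, 1 ≤ s →
      ∃ F : Fin (A + 1) → (Fin a → Derivation k M M) → M,
        (∀ l, IsPluriForm k M a (T * n + s * m) (F l)) ∧ (∀ l, F l E ≠ 0) ∧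
        AlgebraicIndependent k (fun l : Fin A => F l.succ E / F 0 E) ∧
        (∀ l (u : Place k M), IsDivisorial u a → LogGe a u (F l) ((T * n + s * m : ℕ) : ℝ)) ∧
        ∀ (v : Place k (fixedField G)) (w : Place k L) (e : ℕ), Over w v e → IsDivisorial w r →
          (∃ h ∈ G, h ≠ 1 ∧ Inert w h) → ∀ l, LG w (T * n + s * m)
            (fun i => (inclusion (inf_le_left : M ⊓ fixedField G ≤ M) (y0 i) : L))
            ((F l E : M) : L) (T * n * e * (1 - t) + s * m) := by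
  letI := qalg M G
  haveI := qtower M G
  haveI := qalgebraic M G hGM
  haveI := qfinite M G hGM hessM
  obtain ⟨n, m, hn1, hm1, hF⟩ := forms_A (qtrdeg M G hGM hM) hM (qess M G hGM hessM y0 hy0) hessM
    hη hω y0 hy0 E hE
  refine ⟨n, m, hn1, hm1, fun T s hs => ?_⟩
  obtain ⟨F, hF1, hF2, hF3, hF4⟩ := hF T s hs
  refine ⟨F, hF1, hF2, hF3, fun l u hu => ?_, ?_⟩
  · obtain ⟨e, v, huv⟩ := Pool.Agent.W73.PG.PULL.exists_over' (K := ↥(M ⊓ fixedField G)) u
    refine (hF4 l u v e huv hu).mono ?_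
    have h1 := (hδ u v e huv).2
    have h2 : (0 : ℝ) ≤ T * n := by positivity
    have h3 := mul_le_mul_of_nonneg_left h1 h2
    push_cast
    linarith
  · rintro v w e hwv hw ⟨h, hh, h1, hI⟩ l
    obtain ⟨c, u, hu⟩ := exists_over (K := M) w (nontriv M G hGM hf hh h1 hI)
    obtain ⟨e1, q, hq⟩ := Pool.Agent.W73.PG.PULL.exists_over' (K := ↥(M ⊓ fixedField G)) u
    have hle := index_le M G hwv hu hq
    have hdiv : IsDivisorial u a := pDIVR k M L a r u w c hM hn hu hw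
    refine (lg_of_log hM hn hessM hw hu (F l) (hF1 l) (hF4 l u q e1 hq hdiv) _ hy E hE).mono ?_
    have h2 := (hδ u q e1 hq).1
    have hc : (1 : ℝ) ≤ c := by exact_mod_cast hu.1
    have hle' : (e : ℝ) ≤ c * e1 := by exact_mod_cast hle
    have h3 : (0 : ℝ) ≤ T * n := by positivity
    have h4 : (0 : ℝ) ≤ s * m := by positivity
    have h5 : (e : ℝ) * (1 - t) ≤ (c * e1) * (1 - δ q) := by
      have h6 : (e : ℝ) * (1 - t) ≤ (c * e1) * (1 - t) :=
        mul_le_mul_of_nonneg_right hle' (by linarith)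
      have h7 : ((c : ℝ) * e1) * (1 - t) ≤ (c * e1) * (1 - δ q) :=
        mul_le_mul_of_nonneg_left (by linarith) (by positivity)
      linarith
    have h8 := mul_le_mul_of_nonneg_left h5 h3
    have h9 := mul_le_mul_of_nonneg_right hc h4
    nlinarith

/-- Criterion B, on the other factor. -/
theorem factor_B (hGM : ∀ g ∈ G, ∀ z ∈ M, g z ∈ M)
    (hf : ∀ g ∈ G, (∀ z ∈ M, g z = z) → g = 1) {a r A : ℕ} (hM : Algebra.trdeg k M = a)
    (hn : Algebra.trdeg k L = r) (hessM : Algebra.EssFiniteType k M) (hω : KodTr k M a A)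
    (y : Fin a → M) (hy : IsTranscendenceBasis k y)
    (E : Fin a → Derivation k M M) (hE : ∀ i j, E i (y j) = if i = j then 1 else 0) :
    ∃ m : ℕ, 1 ≤ m ∧ ∀ s : ℕ, 1 ≤ s →
      ∃ F : Fin (A + 1) → (Fin a → Derivation k M M) → M,
        (∀ l, IsPluriForm k M a (s * m) (F l)) ∧ (∀ l, F l E ≠ 0) ∧
        AlgebraicIndependent k (fun l : Fin A => F l.succ E / F 0 E) ∧
        (∀ l (u : Place k M), IsDivisorial u a → LogGe a u (F l) ((s * m : ℕ) : ℝ)) ∧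
        ∀ (w : Place k L), IsDivisorial w r →
          (∃ h ∈ G, h ≠ 1 ∧ Inert w h) → ∀ l, LG w (s * m) (fun i => (y i : L))
            ((F l E : M) : L) (s * m) := by
  obtain ⟨m, hm, ω, hω1, hω2, hω3, hω4⟩ := pairKod_form (pairKod_zero.2 hω) y hy E hE
  have hlog : ∀ l (u : Place k M), IsDivisorial u a → LogGe a u (ω l) m := by
    intro l u hu
    have h2 : LogGe a u (ω l) (m + 0) := by
      refine logGe_of_reg hM hessM hu (ω l) (hω1 l) fun D hD => ?_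
      have h3 := hω2 l u hu D hD
      simpa using h3
    simpa using h2
  refine ⟨m, hm, fun s hs => ⟨fun l D => ω l D ^ s, fun l => pluri_pow (hω1 l) s,
    fun l => pow_ne_zero _ (hω3 l), ?_, fun l u hu => ?_, ?_⟩⟩
  · have h1 : (fun l : Fin A => ω l.succ E ^ s / ω 0 E ^ s) =
        fun l : Fin A => (ω l.succ E / ω 0 E) ^ s := by
      funext l
      rw [div_pow]
    rw [h1]
    exact indep_pow _ hω4 s hs
  · refine ((hlog l u hu).pow s).mono ?_
    push_cast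
    exact le_rfl
  · rintro w hw ⟨h, hh, h1, hI⟩ l
    obtain ⟨c, u, hu⟩ := exists_over (K := M) w (nontriv M G hGM hf hh h1 hI)
    have hdiv : IsDivisorial u a := pDIVR k M L a r u w c hM hn hu hw
    refine (lg_of_log hM hn hessM hw hu _ (pluri_pow (hω1 l) s) ((hlog l u hdiv).pow s) y hy E
      hE).mono ?_
    have hc : (1 : ℝ) ≤ c := by exact_mod_cast hu.1
    have h4 : (0 : ℝ) ≤ s * m := by positivity
    nlinarith

end

section

variable {k : Type} {L : Type} [Field k] [CharZero k] [Field L] [Algebra k L]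
  {M N : IntermediateField k L} {a b : ℕ}

/-- **Criterion A.** -/
theorem kod_A {A B : ℕ} (halg : Algebra.IsAlgebraic ↥(M ⊔ N) L)
    (hn : Algebra.trdeg k L = (a + b : ℕ)) (hM : Algebra.trdeg k M = a)
    (hN : Algebra.trdeg k N = b) (hessL : Algebra.EssFiniteType k L)
    (hessM : Algebra.EssFiniteType k M) (hessN : Algebra.EssFiniteType k N)
    (G : Subgroup (L ≃ₐ[k] L)) [Finite G] (hGM : ∀ g ∈ G, ∀ z ∈ M, g z ∈ M)
    (hGN : ∀ g ∈ G, ∀ z ∈ N, g z ∈ N) (hfM : ∀ g ∈ G, (∀ z ∈ M, g z = z) → g = 1)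
    (hfN : ∀ g ∈ G, (∀ z ∈ N, g z = z) → g = 1)
    {t t' : ℝ} (ht : 0 ≤ t) (ht' : 0 ≤ t') (htt : t + t' < 1)
    {δ : Place k ↥(M ⊓ fixedField G) → ℝ} {δ' : Place k ↥(N ⊓ fixedField G) → ℝ}
    (hδ : ∀ (u : Place k M) v e, LiesOver inf_le_left u v e → δ v ≤ t ∧ 1 ≤ e * (1 - δ v))
    (hδ' : ∀ (u : Place k N) v e, LiesOver inf_le_left u v e → δ' v ≤ t' ∧ 1 ≤ e * (1 - δ' v))
    (hη : PairKod k ↥(M ⊓ fixedField G) a δ 0) (hη' : PairKod k ↥(N ⊓ fixedField G) b δ' 0)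
    (hω : KodTr k M a A) (hω' : KodTr k N b B) : KodTr k (fixedField G) (a + b) (A + B) := by
  obtain ⟨y0, E, hy0, hy, hE⟩ := exists_coords M G hGM hM
  obtain ⟨x0, E', hx0, hx, hE'⟩ := exists_coords N G hGN hN
  obtain ⟨n1, m1, hn1, hm1, h1⟩ := factor_A M G hGM hfM hM hn hessM (by linarith) hδ hη hω y0 hy0
    hy E hE
  obtain ⟨n2, m2, hn2, hm2, h2⟩ := factor_A N G hGN hfN hN hn hessN (by linarith) hδ' hη' hω' x0
    hx0 hx E' hE'
  obtain ⟨T, hT⟩ := exists_nat_ge (1 / (1 - t - t'))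
  have hpos : (0 : ℝ) < 1 - t - t' := by linarith
  have hT' : 1 ≤ T * (1 - t - t') := by
    rw [div_le_iff₀ hpos] at hT
    exact hT
  obtain ⟨F, hF1, hF2, hF3, hF4, hF5⟩ := h1 (T * (m1 * n2 * m2)) (n1 * n2 * m2)
    (Nat.mul_pos (Nat.mul_pos hn1 hn2) hm2)
  obtain ⟨F', hF1', hF2', hF3', hF4', hF5'⟩ := h2 (T * (n1 * m1 * m2)) (n1 * m1 * n2)
    (Nat.mul_pos (Nat.mul_pos hn1 hm1) hn2)
  have e2 : T * (n1 * m1 * m2) * n2 + n1 * m1 * n2 * m2 =
      T * (m1 * n2 * m2) * n1 + n1 * n2 * m2 * m1 := by ring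
  rw [e2] at hF1' hF4' hF5'
  have hμ : 1 ≤ T * (m1 * n2 * m2) * n1 + n1 * n2 * m2 * m1 := by
    have : 1 ≤ n1 * n2 * m2 * m1 := Nat.mul_pos (Nat.mul_pos (Nat.mul_pos hn1 hn2) hm2) hm1
    omega
  refine kod_prod hμ halg hn hM hN hessL hessM hessN G _ hy E hE _ hx E' hE' F hF1 hF2 hF3 F' hF1'
    hF2' hF3' hF4 hF4' ?_
  intro v hv w e hwv he _ hin
  have hw := divisorial_up hwv hv
  refine ⟨_, _, ?_, hF5 v w e hwv hw hin, hF5' v w e hwv hw hin⟩
  have he' : (0 : ℝ) ≤ e := Nat.cast_nonneg e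
  have hP : (0 : ℝ) ≤ (n1 : ℝ) * m1 * n2 * m2 := by positivity
  have h3 := mul_le_mul_of_nonneg_left hT' (mul_nonneg hP he')
  push_cast
  nlinarith

/-- **Criterion B.** -/
theorem kod_B {A B : ℕ} (halg : Algebra.IsAlgebraic ↥(M ⊔ N) L)
    (hn : Algebra.trdeg k L = (a + b : ℕ)) (hM : Algebra.trdeg k M = a)
    (hN : Algebra.trdeg k N = b) (hessL : Algebra.EssFiniteType k L)
    (hessM : Algebra.EssFiniteType k M) (hessN : Algebra.EssFiniteType k N)
    (G : Subgroup (L ≃ₐ[k] L)) [Finite G] (hGM : ∀ g ∈ G, ∀ z ∈ M, g z ∈ M)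
    (hGN : ∀ g ∈ G, ∀ z ∈ N, g z ∈ N) (hfM : ∀ g ∈ G, (∀ z ∈ M, g z = z) → g = 1)
    (hfN : ∀ g ∈ G, (∀ z ∈ N, g z = z) → g = 1)
    (hη : KodTr k ↥(M ⊓ fixedField G) a 0)
    (hω : KodTr k M a A) (hω' : KodTr k N b B) : KodTr k (fixedField G) (a + b) (A + B) := by
  obtain ⟨y0, E, hy0, hy, hE⟩ := exists_coords M G hGM hM
  obtain ⟨x0, E', hx0, hx, hE'⟩ := exists_coords N G hGN hN
  have hδ : ∀ (u : Place k M) (v : Place k ↥(M ⊓ fixedField G)) (e : ℕ),
      LiesOver inf_le_left u v e → (fun _ : Place k ↥(M ⊓ fixedField G) => (0 : ℝ)) v ≤ (0 : ℝ) ∧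
        1 ≤ (e : ℝ) * (1 - (fun _ : Place k ↥(M ⊓ fixedField G) => (0 : ℝ)) v) := by
    intro u v e h
    refine ⟨le_rfl, ?_⟩
    have : (1 : ℝ) ≤ e := by exact_mod_cast h.1
    simpa using this
  obtain ⟨n1, m1, hn1, hm1, h1⟩ := factor_A M G hGM hfM hM hn hessM zero_le_one hδ
    (pairKod_zero.2 hη) hω y0 hy0 hy E hE
  obtain ⟨m2, hm2, h2⟩ := factor_B N G hGN hfN hN hn hessN hω' _ hx E' hE'
  set T := Nat.card G with hT
  obtain ⟨F, hF1, hF2, hF3, hF4, hF5⟩ := h1 (T * (m1 * m2)) (n1 * m2) (Nat.mul_pos hn1 hm2)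
  obtain ⟨F', hF1', hF2', hF3', hF4', hF5'⟩ := h2 ((T + 1) * (n1 * m1))
    (Nat.mul_pos (Nat.succ_pos _) (Nat.mul_pos hn1 hm1))
  have e2 : (T + 1) * (n1 * m1) * m2 = T * (m1 * m2) * n1 + n1 * m2 * m1 := by ring
  rw [e2] at hF1' hF4'
  have hF5'' : ∀ (w : Place k L), IsDivisorial w (a + b) →
      (∃ h ∈ G, h ≠ 1 ∧ Inert w h) → ∀ l, LG w (T * (m1 * m2) * n1 + n1 * m2 * m1)
        (fun i => (inclusion (inf_le_left : N ⊓ fixedField G ≤ N) (x0 i) : L))
            ((F' l E' : N) : L) (((T + 1) * (n1 * m1) : ℕ) * m2) := by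
    intro w hw hin l
    rw [← e2]
    exact hF5' w hw hin l
  have hμ : 1 ≤ T * (m1 * m2) * n1 + n1 * m2 * m1 := by
    have : 1 ≤ n1 * m2 * m1 := Nat.mul_pos (Nat.mul_pos hn1 hm2) hm1
    omega
  refine kod_prod hμ halg hn hM hN hessL hessM hessN G _ hy E hE _ hx E' hE' F hF1 hF2 hF3 F' hF1'
    hF2' hF3' hF4 hF4' ?_
  intro v hv w e hwv he hle hin
  have hw := divisorial_up hwv hv
  refine ⟨_, _, ?_, hF5 v w e hwv hw hin, hF5'' w hw hin⟩
  have he' : (e : ℝ) ≤ T := by exact_mod_cast hle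
  have hP : (0 : ℝ) ≤ (n1 : ℝ) * m1 * m2 := by positivity
  have h3 := mul_le_mul_of_nonneg_left he' hP
  push_cast
  nlinarith

end

end Pool.Agent.K1H17.IS
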