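import Pool.Agent.K1H17.IS.Kn2
import Pool.Agent.K1H17.IS.Kq
import Pool.Agent.W619.Y.Down
import Pool.Agent.W300.PG.TRGE

/-! Kodaira and numerical dimension of quotients of products of two varieties. -/

set_option autoImplicit false
set_option linter.overlappingInstances false
set_option linter.unusedSectionVars false
set_option linter.unusedVariables false

open FF IntermediateField Pool.Agent.W619.PQ Pool.Agent.W619.PL Pool.Agent.W619.TW
  Pool.Agent.W603.LV Pool.Agent.W619.Y

namespace Pool.Agent.K1H17.IS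

section

variable {k : Type} [Field k] [CharZero k] [IsAlgClosed k]
variable {L : Type} [Field L] [Algebra k L] {M N : IntermediateField k L} {a b : ℕ}

/-- `M` and `N` are linearly disjoint. -/
theorem dj_of (hsup : M ⊔ N = ⊤) (hn : Algebra.trdeg k L = (a + b : ℕ))
    (hM : Algebra.trdeg k M = a) (hN : Algebra.trdeg k N = b) : Dj M N := by
  have halg : Algebra.IsAlgebraic ↥(M ⊔ N) L := by
    rw [hsup]
    exact ⟨fun z => isAlgebraic_algebraMap (⟨z, trivial⟩ : (⊤ : IntermediateField k L))⟩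
  refine ⟨?_, hsup⟩
  let β := Module.Basis.ofVectorSpace k N
  exact IntermediateField.LinearDisjoint.of_basis_right β
    (linDisj M N halg hn hM hN β β.linearIndependent)

/-- The numerical dimension of a product. -/
theorem numLe_prod (hsup : M ⊔ N = ⊤) (hn : Algebra.trdeg k L = (a + b : ℕ))
    (hM : Algebra.trdeg k M = a) (hN : Algebra.trdeg k N = b) (hess : Algebra.EssFiniteType k L)
    {A B : ℕ} (h1 : NumLe k M a (fun _ => False) A) (h2 : NumLe k N b (fun _ => False) B) :
    NumLe k L (a + b) (fun _ => False) (A + B) := by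
  intro S
  obtain ⟨S1, S2, hS⟩ := kunneth (dj_of hsup hn hM hN) hn hM hN hess S
  obtain ⟨C1, hC1⟩ := h1 S1
  obtain ⟨C2, hC2⟩ := h2 S2
  refine ⟨C1 * C2, fun m r hm hr => ?_⟩
  refine (hS m 1 (C1 * m ^ A) (C2 * m ^ B) r (fun N hN => hC1 m N hm hN)
    (fun N hN => hC2 m N hm hN) hr).trans (le_of_eq ?_)
  ring

theorem hasIndep_one {n : ℕ} {K : Type} [Field K] [Algebra k K]
    {P : ((Fin n → Derivation k K K) → K) → Prop} :
    HasIndep k K n 1 P ↔ ∃ ω, P ω ∧ ∃ D, ω D ≠ 0 := by
  constructor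
  · rintro ⟨ω, h1, h2⟩
    refine ⟨ω 0, h2 0, ?_⟩
    have h3 := h1.ne_zero 0
    by_contra hcon
    push Not at hcon
    exact h3 (funext hcon)
  · rintro ⟨ω, h1, D, hD⟩
    refine ⟨fun _ => ω, ?_, fun _ => h1⟩
    refine LinearIndependent.of_subsingleton 0 fun h => hD ?_
    rw [h]
    rfl

/-- If the first factor is not pseudo-effective then neither is the product. -/
theorem numNeg_prod (hsup : M ⊔ N = ⊤) (hn : Algebra.trdeg k L = (a + b : ℕ))
    (hM : Algebra.trdeg k M = a) (hN : Algebra.trdeg k N = b) (hess : Algebra.EssFiniteType k L)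
    (h1 : NumNeg k M a (fun _ => False)) : NumNeg k L (a + b) (fun _ => False) := by
  intro S
  obtain ⟨S1, hS⟩ := sec_factor (dj_of hsup hn hM hN) hn hM hN hess S
  obtain ⟨m0, hm0⟩ := h1 S1
  refine ⟨m0, fun m hm h => hm0 m hm ?_⟩
  rw [hasIndep_one] at h ⊢
  obtain ⟨ω, h2, h3⟩ := h
  exact hS m 1 ω h2 h3

/-- If the product is pseudo-effective then so is the first factor. -/
theorem psef_factor (hsup : M ⊔ N = ⊤) (hn : Algebra.trdeg k L = (a + b : ℕ))
    (hM : Algebra.trdeg k M = a) (hN : Algebra.trdeg k N = b) (hess : Algebra.EssFiniteType k L)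
    (h1 : IsPsef k L (a + b) (fun _ => False)) : IsPsef k M a (fun _ => False) := by
  obtain ⟨S, hS⟩ := h1
  obtain ⟨S1, hS1⟩ := sec_factor (dj_of hsup hn hM hN) hn hM hN hess S
  refine ⟨S1, fun r => ?_⟩
  obtain ⟨j, hj, ω, h2, h3⟩ := hS r
  exact ⟨j, hj, hS1 _ _ ω h2 h3⟩

end

end Pool.Agent.K1H17.IS
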