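import Pool.Agent.K1H17.IS.Mn

/-! Abundance for quotients of products of several varieties. -/

set_option autoImplicit false
set_option linter.overlappingInstances false
set_option linter.unusedSectionVars false
set_option linter.unusedVariables false

open FF IntermediateField Pool.Agent.W619.PQ Pool.Agent.W619.PL Pool.Agent.W619.TW
  Pool.Agent.W603.LV Pool.Agent.W619.Y Pool.Agent.Y174

namespace Pool.Agent.K1H17.IS

section

/-- The abundance conjecture `κ = ν` for the projective manifolds of dimension `n` with function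
field `K`: either the canonical divisor is not pseudo-effective (`m K + A` has no sections for
large `m`, for every divisor `A`), or for some `h` the Kodaira dimension is at least `h` and the
numerical dimension is at most `h`. -/
def Abundance (k K : Type) [Field k] [Field K] [Algebra k K] (n : ℕ) : Prop :=
  NumNeg k K n (fun _ => False) ∨ ∃ h, KodTr k K n h ∧ NumLe k K n (fun _ => False) h

/-- `L` is the function field of the product of the varieties `W i` of dimensions `a i` with function
fields `M i`, and the group `G` acts on the product through actions on the factors. -/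
structure IsDiagonal {k L : Type} [Field k] [Field L] [Algebra k L] {r : ℕ}
    (M : Fin r → IntermediateField k L) (a : Fin r → ℕ) (G : Subgroup (L ≃ₐ[k] L)) : Prop where
  ess : ∀ i, Algebra.EssFiniteType k (M i)
  trdeg : ∀ i, Algebra.trdeg k (M i) = a i
  total : Algebra.trdeg k L = (∑ i, a i : ℕ)
  sup : (⨆ i, M i) = ⊤
  stable : ∀ i, ∀ g ∈ G, ∀ z ∈ M i, g z ∈ M i

variable {k : Type} [Field k] [CharZero k] [IsAlgClosed k]
variable {L : Type} [Field L] [Algebra k L] {r : ℕ} {M : Fin r → IntermediateField k L}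
  {a : Fin r → ℕ} {G : Subgroup (L ≃ₐ[k] L)}

theorem IsDiagonal.essL (h : IsDiagonal M a G) : Algebra.EssFiniteType k L := by
  have h1 : Algebra.EssFiniteType k ↥(⨆ i, M i) :=
    essFiniteType_iff.2 (fg_iSup fun j => essFiniteType_iff.1 (h.ess j))
  rw [h.sup] at h1
  exact (Algebra.EssFiniteType.iff_of_algEquiv (IntermediateField.topEquiv (F := k) (E := L))).1 h1

theorem IsDiagonal.kod [Finite G] (h : IsDiagonal M a G) (s : Fin r → (L ≃ₐ[k] L) → ℝ)
    (hs : ∀ i, (∀ g ∈ G, s i g ≤ 0) ∨ OrbEffective (M i) G (a i) (s i)) (hg : WeightCond M G s)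
    {A : Fin r → ℕ} (hA : ∀ i, KodTr k (M i) (a i) (A i)) :
    KodTr k (fixedField G) (∑ i, a i) (∑ i, A i) ∧
      KodGe k (fixedField G) (∑ i, a i) (fun _ => False) (∑ i, A i) := by
  have hess := h.essL
  have halg : Algebra.IsAlgebraic ↥(⨆ i, M i) L := by
    rw [h.sup]
    exact ⟨fun z => isAlgebraic_algebraMap (⟨z, trivial⟩ : (⊤ : IntermediateField k L))⟩
  have h1 : KodTr k (fixedField G) (∑ i, a i) (∑ i, A i) :=
    kod_many M halg h.total h.trdeg hess h.ess G h.stable s hs hg hA
  have hfinL : FiniteDimensional (fixedField G) L := by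
    have hGal : IsGaloisGroup G (fixedField G) L := isGaloisGroup_fixed G
    exact IsGaloisGroup.finiteDimensional G (fixedField G) L
  have hnK : Algebra.trdeg k (fixedField G) = (∑ i, a i : ℕ) := by
    rw [← h.total, ← trdeg_add_eq k (fixedField G) (A := L),
      trdeg_eq_zero (R := fixedField G) (A := L), add_zero]
  exact ⟨h1, Pool.Agent.W300.PG.TRGE.main k (fixedField G) _ _ hnK h1⟩

theorem IsDiagonal.num [Finite G] (h : IsDiagonal M a G) :
    (IsPsef k (fixedField G) (∑ i, a i) (fun _ => False) →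
      ∀ i, IsPsef k (M i) (a i) (fun _ => False)) ∧
    (∀ i, NumNeg k (M i) (a i) (fun _ => False) →
      NumNeg k (fixedField G) (∑ i, a i) (fun _ => False)) ∧
    ∀ A : Fin r → ℕ, (∀ i, NumLe k (M i) (a i) (fun _ => False) (A i)) →
      NumLe k (fixedField G) (∑ i, a i) (fun _ => False) (∑ i, A i) := by
  have hess := h.essL
  obtain ⟨h1, h2, h3⟩ := many r L M a h.ess h.trdeg h.total h.sup
  obtain ⟨d1, d2, d3⟩ := down (∑ i, a i) h.total G
  exact ⟨fun hX => h1 (d1 hX), fun i hi => d2 (h2 i hi), fun A hA => d3 _ (h3 A hA)⟩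

theorem IsDiagonal.abundance [Finite G] (h : IsDiagonal M a G) (s : Fin r → (L ≃ₐ[k] L) → ℝ)
    (hs : ∀ i, (∀ g ∈ G, s i g ≤ 0) ∨ OrbEffective (M i) G (a i) (s i)) (hg : WeightCond M G s)
    (hA : ∀ i, Abundance k (M i) (a i)) : Abundance k (fixedField G) (∑ i, a i) := by
  obtain ⟨-, h2, h3⟩ := h.num
  by_cases hneg : ∃ i, NumNeg k (M i) (a i) (fun _ => False)
  · obtain ⟨i, hi⟩ := hneg
    exact Or.inl (h2 i hi)
  · push Not at hneg
    choose A hA1 hA2 using fun i => (hA i).resolve_left (hneg i)
    exact Or.inr ⟨∑ i, A i, (h.kod s hs hg hA1).1, h3 A hA2⟩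

/-- If the quotient has Kodaira dimension `≥ 0` then the condition holds with weights `1`. -/
theorem orbEffective_of_kod {M : IntermediateField k L} {a : ℕ}
    (h : KodTr k ↥(M ⊓ fixedField G) a 0) : OrbEffective M G a (fun _ => 1) := by
  refine ⟨fun _ => 0, fun u v e huv => ⟨?_, fun g _ _ _ => by norm_num⟩, pairKod_zero.2 h⟩
  have : (1 : ℝ) ≤ e := by exact_mod_cast huv.1
  simpa using this

/-- **Isotrivial fibrations.** Two factors, faithful actions, and `κ (W₁ / G) ≥ 0`. -/
theorem isotrivial [Finite G] {M : Fin 2 → IntermediateField k L} {a : Fin 2 → ℕ}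
    (h : IsDiagonal M a G) (hf : ∀ i, ∀ g ∈ G, ActsTrivially (M i) g → g = 1)
    (hbase : KodTr k ↥(M 0 ⊓ fixedField G) (a 0) 0) (hA : ∀ i, Abundance k (M i) (a i)) :
    Abundance k (fixedField G) (∑ i, a i) := by
  classical
  refine h.abundance ![fun _ => 1, fun _ => 0] ?_ ?_ hA
  · intro i
    fin_cases i
    · exact Or.inr (orbEffective_of_kod hbase)
    · exact Or.inl fun g _ => le_rfl
  · intro g hgG hg1
    right
    have h1 : (Finset.univ.filter fun i => ¬ ActsTrivially (M i) g) = Finset.univ := by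
      refine Finset.filter_true_of_mem fun i _ => fun hi => hg1 (hf i g hgG hi)
    rw [h1, Fin.sum_univ_two]
    have hd : (0 : ℝ) < 1 / (orderOf g : ℝ) := by
      have h2 : 0 < orderOf g := by
        have h3 : IsOfFinOrder (⟨g, hgG⟩ : G) := isOfFinOrder_of_finite _
        have h4 := (Submonoid.isOfFinOrder_coe (H := G.toSubmonoid) (x := ⟨g, hgG⟩)).2 h3
        exact h4.orderOf_pos
      have h3 : (0 : ℝ) < orderOf g := by exact_mod_cast h2
      positivity
    have h4 : (1 : ℝ) ≤ max (1 / (orderOf g : ℝ)) (![fun _ => 1, fun _ => 0] 0 g) :=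
      le_max_right _ _
    have h5 : 1 / (orderOf g : ℝ) ≤ max (1 / (orderOf g : ℝ)) (![fun _ => 1, fun _ => 0] 1 g) :=
      le_max_left _ _
    linarith

end

end Pool.Agent.K1H17.IS
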