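import Pool.Agent.K1H17.IS.Qu

/-! Kodaira dimension of quotients of a product of two varieties. -/

set_option autoImplicit false
set_option linter.overlappingInstances false
set_option linter.unusedSectionVars false
set_option linter.unusedVariables false
set_option linter.style.haveILetI false

open FF IntermediateField Pool.Agent.W619.PQ Pool.Agent.W619.PL Pool.Agent.W619.TW
  Pool.Agent.W603.LV Pool.Agent.W619.Y Pool.Agent.W672.PG Pool.Agent.W824.PG Pool.Agent.Y174

namespace Pool.Agent.K1H17.IS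

section

variable {k : Type} [Field k] [CharZero k] {K : Type} [Field K] [Algebra k K]

/-- The forms of a pair, in the coordinates `y`. -/
theorem pairKod_form {a A : ℕ} {δ : Place k K → ℝ} (h : PairKod k K a δ A) (y : Fin a → K)
    (hy : IsTranscendenceBasis k y) (E : Fin a → Derivation k K K)
    (hE : ∀ i j, E i (y j) = if i = j then 1 else 0) :
    ∃ m : ℕ, 1 ≤ m ∧ ∃ ω : Fin (A + 1) → (Fin a → Derivation k K K) → K,
      (∀ l, IsPluriForm k K a m (ω l)) ∧
      (∀ l (v : Place k K), IsDivisorial v a → ∀ D : Fin a → Derivation k K K,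
        (∀ j, Pres v (D j)) → GeR v (-(m * δ v)) (ω l D)) ∧
      (∀ l, ω l E ≠ 0) ∧ AlgebraicIndependent k (fun l : Fin A => ω l.succ E / ω 0 E) := by
  obtain ⟨m, hm, ω, hω, D, hD0, hDi⟩ := h
  have hval : ∀ l, ω l D = (Matrix.of fun i j => D i (y j)).det ^ m * ω l E := fun l =>
    Pool.Agent.W636.PG.form_eq k K a m y hy E hE (ω l) (hω l).1 D
  have hdet0 : (Matrix.of fun i j => D i (y j)).det ^ m ≠ 0 := by
    intro h0
    apply hD0 0
    rw [hval, h0, zero_mul]
  refine ⟨m, hm, ω, fun l => (hω l).1, fun l v hv D hD => ?_, fun l h0 => ?_, ?_⟩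
  · rcases (hω l).2 v hv D hD with h | ⟨s', hs', hs0', hle⟩
    · exact Or.inl h
    · refine Or.inr ?_
      simpa using hle
  · apply hD0 l
    rw [hval, h0, mul_zero]
  · have h1 : (fun l : Fin A => ω l.succ E / ω 0 E) = fun l : Fin A => ω l.succ D / ω 0 D := by
      funext l
      rw [hval, hval, mul_div_mul_left _ _ hdet0]
    rw [h1]
    exact hDi

theorem pluri_mul {a m m' : ℕ} {F F' : (Fin a → Derivation k K K) → K}
    (h : IsPluriForm k K a m F) (h' : IsPluriForm k K a m' F') (N N' : ℕ) :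
    IsPluriForm k K a (N * m + N' * m') (fun D => F D ^ N * F' D ^ N') := by
  intro A D
  show F (fun i => ∑ j, A i j • D j) ^ N * F' (fun i => ∑ j, A i j • D j) ^ N' = _
  rw [h, h', mul_pow, mul_pow, ← pow_mul, ← pow_mul, pow_add, mul_comm m N, mul_comm m' N']
  ring

theorem pluri_pow {a m : ℕ} {F : (Fin a → Derivation k K K) → K}
    (h : IsPluriForm k K a m F) (N : ℕ) : IsPluriForm k K a (N * m) (fun D => F D ^ N) := by
  intro A D
  show F (fun i => ∑ j, A i j • D j) ^ N = _
  rw [h, mul_pow, ← pow_mul, mul_comm m N]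

theorem LogGe.pow {n : ℕ} {u : Place k K} {F : (Fin n → Derivation k K K) → K} {γ : ℝ}
    (h : LogGe n u F γ) (N : ℕ) : LogGe n u (fun D => F D ^ N) (N * γ) :=
  fun D h1 h2 => (h D h1 h2).pow N

end

section

variable {k : Type} [Field k] [CharZero k] {B K : Type} [Field B] [Field K] [Algebra k B]
  [Algebra k K] [Algebra B K] [IsScalarTower k B K]

/-- Forms on a cover which are a product of pull-backs and forms on the cover. -/
theorem forms_A [FiniteDimensional B K] {a A : ℕ} (hB : Algebra.trdeg k B = a)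
    (hK : Algebra.trdeg k K = a) (hessB : Algebra.EssFiniteType k B)
    (hessK : Algebra.EssFiniteType k K) {δ : Place k B → ℝ} (hη : PairKod k B a δ 0)
    (hω : KodTr k K a A) (y : Fin a → B) (hy : IsTranscendenceBasis k y)
    (E : Fin a → Derivation k K K)
    (hE : ∀ i j, E i (algebraMap B K (y j)) = if i = j then 1 else 0) :
    ∃ n m : ℕ, 1 ≤ n ∧ 1 ≤ m ∧ ∀ T r : ℕ, 1 ≤ r →
      ∃ F : Fin (A + 1) → (Fin a → Derivation k K K) → K,
        (∀ l, IsPluriForm k K a (T * n + r * m) (F l)) ∧ (∀ l, F l E ≠ 0) ∧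
        AlgebraicIndependent k (fun l : Fin A => F l.succ E / F 0 E) ∧
        ∀ l (u : Place k K) (v : Place k B) (e : ℕ), Over u v e → IsDivisorial u a →
          LogGe a u (F l) (T * (e * (n * (1 - δ v))) + r * m) := by
  obtain ⟨EB, hEB⟩ := Pool.Agent.W636.PG.exists_duals k B a y hy
  have hyK : IsTranscendenceBasis k (algebraMap B K ∘ y) := hy.algebraMap_comp
  obtain ⟨n, hn, η, hη1, hη2, hη3, -⟩ := pairKod_form hη y hy EB hEB
  obtain ⟨m, hm, ω, hω1, hω2, hω3, hω4⟩ := pairKod_form (pairKod_zero.2 hω)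
    (algebraMap B K ∘ y) hyK E hE
  refine ⟨n, m, hn, hm, fun T r hr => ?_⟩
  let P : (Fin a → Derivation k K K) → K := fun D =>
    (Matrix.of fun a b => D a (algebraMap B K (y b))).det ^ n * algebraMap B K (η 0 EB)
  have hP : IsPluriForm k K a n P := pluri_pull y (η 0 EB)
  have hPE : P E = algebraMap B K (η 0 EB) := by
    have h1 : (Matrix.of fun a b => E a (algebraMap B K (y b))) = 1 := by
      ext i j
      rw [Matrix.of_apply, Matrix.one_apply, hE]
    change (Matrix.of fun a b => E a (algebraMap B K (y b))).det ^ n * _ = _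
    rw [h1, Matrix.det_one, one_pow, one_mul]
  have hPE0 : P E ≠ 0 := by
    rw [hPE]
    exact (map_ne_zero_iff _ (algebraMap B K).injective).2 (hη3 0)
  refine ⟨fun l D => P D ^ T * ω l D ^ r, fun l => pluri_mul hP (hω1 l) T r,
    fun l => mul_ne_zero (pow_ne_zero _ hPE0) (pow_ne_zero _ (hω3 l)), ?_, ?_⟩
  · have h1 : (fun l : Fin A => P E ^ T * ω l.succ E ^ r / (P E ^ T * ω 0 E ^ r)) =
        fun l : Fin A => (ω l.succ E / ω 0 E) ^ r := by
      funext l
      rw [mul_div_mul_left _ _ (pow_ne_zero _ hPE0), div_pow]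
    rw [h1]
    exact indep_pow _ hω4 r hr
  · intro l u v e huv hu
    have hv : IsDivisorial v a := Pool.Agent.Y174.pDIVI k B K a v u e huv hu
    have h1 := logGe_pull hB hessB huv hv y hy EB hEB (η 0) (hη1 0) (hη2 0 v hv)
    have h2 : LogGe a u (ω l) (m + 0) := by
      refine logGe_of_reg hK hessK hu (ω l) (hω1 l) fun D hD => ?_
      have h3 := hω2 l u hu D hD
      simpa using h3
    refine (h1.mul h2 T r).mono ?_
    apply le_of_eq
    ring

end

end Pool.Agent.K1H17.IS
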