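import Pool.Agent.K1H17.IS.Kr
import Pool.Agent.K1H17.IS.Kq

/-! Pluricanonical forms on one factor, with weights. -/

set_option autoImplicit false
set_option linter.overlappingInstances false
set_option linter.unusedSectionVars false
set_option linter.unusedVariables false
set_option linter.style.haveILetI false

open FF IntermediateField Pool.Agent.W619.PQ Pool.Agent.W619.PL Pool.Agent.W619.TW
  Pool.Agent.W603.LV Pool.Agent.W619.Y Pool.Agent.W672.PG Pool.Agent.W824.PG Pool.Agent.Y174

namespace Pool.Agent.K1H17.IS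

section

variable {k : Type} {L : Type} [Field k] [Field L] [Algebra k L]

/-- The automorphism `g` acts trivially on the variety with function field `M`. -/
def ActsTrivially (M : IntermediateField k L) (g : L ≃ₐ[k] L) : Prop := ∀ z ∈ M, g z = z

/-- The automorphism `g` fixes the prime divisor `u` of the variety with function field `M`
pointwise: `g z - z` vanishes along `u` for all functions `z` which are regular along `u`. -/
def FixesDivisor (M : IntermediateField k L) (g : L ≃ₐ[k] L) (u : Place k M) : Prop :=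
  ∀ z z' : M, g z = z' → u.Reg z → z' = z ∨ 1 ≤ u.ord (z' - z)

/-- Let `W` be a variety of dimension `a` with function field `M`, on which the finite group `G`
acts, let `W / G` be the quotient and `Y` a resolution of `W / G`. For some real numbers `δ v` (for the
prime divisors `v` over `Y`) the Kodaira dimension of `K_Y + ∑ δ v v` is not `-∞`, where
`δ v ≤ 1 - 1 / e` for the ramification indices `e` of `W → W / G` over `v`, and `δ v ≤ 1 - s g` for all
`g` in `G` which act nontrivially on `W` and fix a prime divisor over `v` pointwise. -/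
def OrbEffective (M : IntermediateField k L) (G : Subgroup (L ≃ₐ[k] L)) (a : ℕ)
    (s : (L ≃ₐ[k] L) → ℝ) : Prop :=
  ∃ δ : Place k ↥(M ⊓ fixedField G) → ℝ,
    (∀ (u : Place k M) v e, LiesOver inf_le_left u v e → 1 ≤ e * (1 - δ v) ∧
      ∀ g ∈ G, ¬ ActsTrivially M g → FixesDivisor M g u → δ v ≤ 1 - s g) ∧
    PairKod k ↥(M ⊓ fixedField G) a δ 0

end

section

variable {k : Type} {L : Type} [Field k] [CharZero k] [Field L] [Algebra k L]
variable (M : IntermediateField k L) (G : Subgroup (L ≃ₐ[k] L))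

theorem nontriv' {w : Place k L} {h : L ≃ₐ[k] L} (hGM : ∀ z ∈ M, h z ∈ M)
    (h1 : ¬ ActsTrivially M h) (hI : Inert w h) : ∃ f : M, w.ord (algebraMap M L f) ≠ 0 := by
  by_contra hcon
  push Not at hcon
  apply h1
  intro z hz
  have h2 := hI z (Or.inr (hcon ⟨z, hz⟩).ge)
  rcases h2 with h2 | h2
  · exact sub_eq_zero.1 h2
  · have h3 := hcon ⟨h z - z, sub_mem (hGM z hz) hz⟩
    change w.ord (h z - z) = 0 at h3
    omega

theorem fixes_of_inert {w : Place k L} {h : L ≃ₐ[k] L} (hI : Inert w h) {u : Place k M} {c : ℕ}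
    (hu : Over w u c) : FixesDivisor M h u := by
  intro z z' hzz' hz
  have h1 : Ge w 1 (h z - z) := hI z (hu.reg.2 hz)
  rw [hzz'] at h1
  rcases h1 with h1 | h1
  · left
    exact Subtype.ext (sub_eq_zero.1 h1)
  · right
    have h2 := hu.2 (z' - z)
    have h3 : algebraMap M L (z' - z) = (z' : L) - z := rfl
    rw [h3] at h2
    rw [h2] at h1
    by_contra hcon
    have h4 : (c : ℤ) * u.ord (z' - z) ≤ 0 :=
      mul_nonpos_of_nonneg_of_nonpos (Int.natCast_nonneg _) (by omega)
    omega

variable [Finite G]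

/-- The output for one factor. -/
def FacData (M : IntermediateField k L) (G : Subgroup (L ≃ₐ[k] L)) (a A N : ℕ)
    (s : (L ≃ₐ[k] L) → ℝ) (y : Fin a → M) (E : Fin a → Derivation k M M) (n m : ℕ) : Prop :=
  ∀ T r : ℕ, 1 ≤ r →
    ∃ F : Fin (A + 1) → (Fin a → Derivation k M M) → M,
      (∀ l, IsPluriForm k M a (T * n + r * m) (F l)) ∧ (∀ l, F l E ≠ 0) ∧
      AlgebraicIndependent k (fun l : Fin A => F l.succ E / F 0 E) ∧
      (∀ l (u : Place k M), IsDivisorial u a → LogGe a u (F l) ((T * n + r * m : ℕ) : ℝ)) ∧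
      ∀ (v : Place k (fixedField G)) (w : Place k L) (e : ℕ), Over w v e → IsDivisorial w N →
        ∀ h ∈ G, orderOf h = e → Inert w h →
          (ActsTrivially M h → ∀ l, LG w (T * n + r * m) (fun i => (y i : L))
            ((F l E : M) : L) 0) ∧
          (¬ ActsTrivially M h → ∀ l, LG w (T * n + r * m) (fun i => (y i : L))
            ((F l E : M) : L) (T * n * max 1 (e * s h) + r * m))

/-- A form on a factor, at a place of `L`, if the automorphism is trivial on the factor. -/
theorem lg_nonneg {a N μ : ℕ} (hM : Algebra.trdeg k M = a)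
    (hn : Algebra.trdeg k L = N) (hessM : Algebra.EssFiniteType k M)
    {F : (Fin a → Derivation k M M) → M} (hF : IsPluriForm k M a μ F)
    (hlog : ∀ u : Place k M, IsDivisorial u a → LogGe a u F μ) (y : Fin a → M)
    (hy : IsTranscendenceBasis k y)
    (E : Fin a → Derivation k M M) (hE : ∀ i j, E i (y j) = if i = j then 1 else 0)
    {w : Place k L} (hw : IsDivisorial w N) :
    LG w μ (fun i => (y i : L)) ((F E : M) : L) 0 := by
  by_cases hcon : ∃ f : M, w.ord (algebraMap M L f) ≠ 0
  · obtain ⟨c, u, hu⟩ := exists_over (K := M) w hcon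
    have hdiv : IsDivisorial u a := pDIVR k M L a N u w c hM hn hu hw
    refine (lg_of_log hM hn hessM hw hu F hF (hlog u hdiv) y hy E hE).mono ?_
    positivity
  · push Not at hcon
    exact lg_triv (fun f => hcon f) y (F E)

/-- The data of a factor with condition. -/
theorem fac_orb (hGM : ∀ g ∈ G, ∀ z ∈ M, g z ∈ M) {a N A : ℕ} (hM : Algebra.trdeg k M = a)
    (hn : Algebra.trdeg k L = N) (hessM : Algebra.EssFiniteType k M)
    {s : (L ≃ₐ[k] L) → ℝ} (hs : OrbEffective M G a s) (hω : KodTr k M a A)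
    (y0 : Fin a → ↥(M ⊓ fixedField G)) (hy0 : IsTranscendenceBasis k y0)
    (hy : IsTranscendenceBasis k
      (fun i => inclusion (inf_le_left : M ⊓ fixedField G ≤ M) (y0 i)))
    (E : Fin a → Derivation k M M)
    (hE : ∀ i j, E i (inclusion (inf_le_left : M ⊓ fixedField G ≤ M) (y0 j)) =
        if i = j then 1 else 0) :
    ∃ n m : ℕ, 1 ≤ n ∧ 1 ≤ m ∧ FacData M G a A N s
      (fun i => inclusion (inf_le_left : M ⊓ fixedField G ≤ M) (y0 i)) E n m := by
  obtain ⟨δ, hδ, hη⟩ := hs
  letI := qalg M G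
  haveI := qtower M G
  haveI := qalgebraic M G hGM
  haveI := qfinite M G hGM hessM
  obtain ⟨n, m, hn1, hm1, hF⟩ := forms_A (qtrdeg M G hGM hM) hM (qess M G hGM hessM y0 hy0) hessM
    hη hω y0 hy0 E hE
  refine ⟨n, m, hn1, hm1, fun T r hr => ?_⟩
  obtain ⟨F, hF1, hF2, hF3, hF4⟩ := hF T r hr
  have hlog : ∀ l (u : Place k M), IsDivisorial u a →
      LogGe a u (F l) ((T * n + r * m : ℕ) : ℝ) := by
    intro l u hu
    obtain ⟨e, v, huv⟩ := Pool.Agent.W73.PG.PULL.exists_over' (K := ↥(M ⊓ fixedField G)) u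
    refine (hF4 l u v e huv hu).mono ?_
    have h1 := (hδ u v e huv).1
    have h2 : (0 : ℝ) ≤ T * n := by positivity
    have h3 := mul_le_mul_of_nonneg_left h1 h2
    push_cast
    linarith
  refine ⟨F, hF1, hF2, hF3, hlog, ?_⟩
  intro v w e hwv hw h hh hord hI
  refine ⟨fun _ l => lg_nonneg M hM hn hessM (hF1 l) (hlog l) _ hy E hE hw, fun h1 l => ?_⟩
  obtain ⟨c, u, hu⟩ := exists_over (K := M) w (nontriv' M (hGM h hh) h1 hI)
  obtain ⟨e1, q, hq⟩ := Pool.Agent.W73.PG.PULL.exists_over' (K := ↥(M ⊓ fixedField G)) u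
  have hle := index_le M G hwv hu hq
  have hdiv : IsDivisorial u a := pDIVR k M L a N u w c hM hn hu hw
  refine (lg_of_log hM hn hessM hw hu (F l) (hF1 l) (hF4 l u q e1 hq hdiv) _ hy E hE).mono ?_
  have h2 := (hδ u q e1 hq).2 h hh h1 (fixes_of_inert M hI hu)
  have h3' := (hδ u q e1 hq).1
  have hc : (1 : ℝ) ≤ c := by exact_mod_cast hu.1
  have hle' : (e : ℝ) ≤ c * e1 := by exact_mod_cast hle
  have h3 : (0 : ℝ) ≤ T * n := by positivity
  have h4 : (0 : ℝ) ≤ r * m := by positivity
  have hδ1 : 0 ≤ 1 - δ q := by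
    by_contra hcon
    push Not at hcon
    have he1 : (0 : ℝ) ≤ e1 := Nat.cast_nonneg _
    have := mul_nonpos_of_nonneg_of_nonpos he1 hcon.le
    linarith
  have h5 : max 1 ((e : ℝ) * s h) ≤ (c * e1) * (1 - δ q) := by
    apply max_le
    · have h6 : (1 : ℝ) * 1 ≤ c * (e1 * (1 - δ q)) :=
        mul_le_mul hc h3' zero_le_one (by linarith)
      linarith
    · have h6 : (e : ℝ) * s h ≤ e * (1 - δ q) :=
        mul_le_mul_of_nonneg_left (by linarith) (Nat.cast_nonneg _)
      have h7 : (e : ℝ) * (1 - δ q) ≤ (c * e1) * (1 - δ q) :=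
        mul_le_mul_of_nonneg_right hle' hδ1
      linarith
  have h8 := mul_le_mul_of_nonneg_left h5 h3
  have h9 := mul_le_mul_of_nonneg_right hc h4
  nlinarith

/-- The data of a factor without condition. -/
theorem fac_free (hGM : ∀ g ∈ G, ∀ z ∈ M, g z ∈ M) {a N A : ℕ} (hM : Algebra.trdeg k M = a)
    (hn : Algebra.trdeg k L = N) (hessM : Algebra.EssFiniteType k M)
    {s : (L ≃ₐ[k] L) → ℝ} (hs : ∀ g ∈ G, s g ≤ 0) (hω : KodTr k M a A)
    (y : Fin a → M) (hy : IsTranscendenceBasis k y)
    (E : Fin a → Derivation k M M) (hE : ∀ i j, E i (y j) = if i = j then 1 else 0) :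
    ∃ n m : ℕ, 1 ≤ n ∧ 1 ≤ m ∧ FacData M G a A N s y E n m := by
  obtain ⟨m, hm, ω, hω1, hω2, hω3, hω4⟩ := pairKod_form (pairKod_zero.2 hω) y hy E hE
  have hlog0 : ∀ l (u : Place k M), IsDivisorial u a → LogGe a u (ω l) m := by
    intro l u hu
    have h2 : LogGe a u (ω l) (m + 0) := by
      refine logGe_of_reg hM hessM hu (ω l) (hω1 l) fun D hD => ?_
      have h3 := hω2 l u hu D hD
      simpa using h3
    simpa using h2
  refine ⟨m, m, hm, hm, fun T r hr => ?_⟩
  have hF1 : ∀ l, IsPluriForm k M a (T * m + r * m) (fun D => ω l D ^ (T + r)) := by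
    intro l
    rw [← add_mul]
    exact pluri_pow (hω1 l) _
  have hlog : ∀ l (u : Place k M), IsDivisorial u a →
      LogGe a u (fun D => ω l D ^ (T + r)) ((T * m + r * m : ℕ) : ℝ) := by
    intro l u hu
    refine ((hlog0 l u hu).pow (T + r)).mono ?_
    push_cast
    apply le_of_eq
    ring
  refine ⟨fun l D => ω l D ^ (T + r), hF1, fun l => pow_ne_zero _ (hω3 l), ?_, hlog, ?_⟩
  · have h1 : (fun l : Fin A => ω l.succ E ^ (T + r) / ω 0 E ^ (T + r)) =
        fun l : Fin A => (ω l.succ E / ω 0 E) ^ (T + r) := by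
      funext l
      rw [div_pow]
    rw [h1]
    exact indep_pow _ hω4 _ (by omega)
  · intro v w e hwv hw h hh hord hI
    refine ⟨fun _ l => lg_nonneg M hM hn hessM (hF1 l) (hlog l) _ hy E hE hw, fun h1 l => ?_⟩
    obtain ⟨c, u, hu⟩ := exists_over (K := M) w (nontriv' M (hGM h hh) h1 hI)
    have hdiv : IsDivisorial u a := pDIVR k M L a N u w c hM hn hu hw
    refine (lg_of_log hM hn hessM hw hu _ (hF1 l) (hlog l u hdiv) y hy E hE).mono ?_
    have hc : (1 : ℝ) ≤ c := by exact_mod_cast hu.1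
    have hmax : max 1 ((e : ℝ) * s h) = 1 := by
      apply max_eq_left
      have := mul_nonpos_of_nonneg_of_nonpos (Nat.cast_nonneg (α := ℝ) e) (hs h hh)
      linarith
    rw [hmax]
    have h4 : (0 : ℝ) ≤ T * m + r * m := by positivity
    push_cast
    nlinarith

end

end Pool.Agent.K1H17.IS
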