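import Pool.Agent.K1H17.IS.Mix
import Pool.Agent.W636.PG.Trans

/-! Linear disjointness of `M` and `N` over an algebraically closed field `k`, if
`trdeg L = trdeg M + trdeg N` for the extension `L` of `M` and `N`. -/

set_option autoImplicit false
set_option linter.overlappingInstances false
set_option linter.unusedSectionVars false

universe u v

open FF IntermediateField Pool.Agent.W619.PQ Pool.Agent.W619.PL Pool.Agent.W619.TW
  Pool.Agent.W603.LV Pool.Agent.W619.Y

namespace Pool.Agent.K1H17.IS

section

variable {k : Type v} {L : Type u} [Field k] [CharZero k] [Field L] [Algebra k L]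

theorem mem_const [IsAlgClosed k] {K : Type*} [Field K] [Algebra k K] (c : K)
    (hc : IsAlgebraic k c) : ∃ r : k, algebraMap k K r = c := by
  have h1 : Algebra.IsAlgebraic k k⟮c⟯ := IntermediateField.isAlgebraic_adjoin_simple hc.isIntegral
  have h2 : k⟮c⟯ = ⊥ := IntermediateField.eq_bot_of_isAlgClosed_of_isAlgebraic k⟮c⟯
  have h3 : c ∈ (⊥ : IntermediateField k K) := h2 ▸ mem_adjoin_simple_self k c
  rw [IntermediateField.mem_bot] at h3
  exact h3

/-- An element which is killed by the vector fields dual to the coordinates is constant. -/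
theorem const_of_der [IsAlgClosed k] {K : Type*} [Field K] [Algebra k K] {ι : Type*} [Fintype ι]
    [DecidableEq ι] (y : ι → K) (hy : IsTranscendenceBasis k y) (E : ι → Derivation k K K)
    (hE : ∀ i j, E i (y j) = if i = j then 1 else 0) (c : K) (hc : ∀ i, E i c = 0) :
    ∃ r : k, algebraMap k K r = c := by
  classical
  apply mem_const
  by_contra htr
  have htr' : Transcendental k c := htr
  -- every derivation kills `c`
  have hall : ∀ D : Derivation k K K, D c = 0 := by
    intro D
    have h1 := der_zero (D - ∑ i, D (y i) • E i) y hy (fun j => by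
      rw [Derivation.sub_apply]
      have : (∑ i, D (y i) • E i) (y j) = ∑ i, (D (y i) • E i) (y j) := by
        rw [← Derivation.coeFnAddMonoidHom_apply, map_sum, Finset.sum_apply]
        rfl
      rw [this, Finset.sum_eq_single j]
      · rw [Derivation.smul_apply, hE, if_pos rfl, smul_eq_mul, mul_one, sub_self]
      · intro b _ hb
        rw [Derivation.smul_apply, hE, if_neg hb, smul_zero]
      · intro h; exact absurd (Finset.mem_univ _) h) c
    rw [Derivation.sub_apply] at h1
    have : (∑ i, D (y i) • E i) c = ∑ i, (D (y i) • E i) c := by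
      rw [← Derivation.coeFnAddMonoidHom_apply, map_sum, Finset.sum_apply]
      rfl
    rw [this, Finset.sum_eq_zero (fun i _ => by rw [Derivation.smul_apply, hc, smul_zero]),
      sub_zero] at h1
    exact h1
  -- extend `c` to a basis
  have hci : AlgebraicIndependent k (fun _ : Unit => c) :=
    algebraicIndependent_unique_type_iff.2 htr'
  obtain ⟨t, ht1, ht2⟩ := exists_isTranscendenceBasis_superset (R := k)
    (s := Set.range (fun _ : Unit => c)) hci.to_subtype_range
  obtain ⟨D, hD⟩ := exists_dual (fun l : t => (l : K)) ht2 ⟨c, ht1 ⟨(), rfl⟩⟩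
  have h2 := hD ⟨c, ht1 ⟨(), rfl⟩⟩
  rw [if_pos rfl] at h2
  exact one_ne_zero (h2.symm.trans (hall D))

/-- Vector fields on `L` which are dual to coordinates of `M` and `N`. -/
theorem duals_two {a b : ℕ} (M N : IntermediateField k L)
    (halg : Algebra.IsAlgebraic ↥(M ⊔ N) L) (hn : Algebra.trdeg k L = (a + b : ℕ))
    (y : Fin a → M) (hy : IsTranscendenceBasis k y) (x : Fin b → N)
    (hx : IsTranscendenceBasis k x) (E : Fin a → Derivation k M M)
    (hE : ∀ i j, E i (y j) = if i = j then 1 else 0) :
    ∃ D : Fin a → Derivation k L L, (∀ i (z : M), D i (z : L) = ((E i z : M) : L)) ∧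
      ∀ i (z : N), D i (z : L) = 0 := by
  classical
  have hb := basis_two M N halg hn (Fintype.card_fin a) (Fintype.card_fin b) y hy x hx
  choose D hD using fun i : Fin a => exists_dual (k := k) _ hb (Sum.inl i)
  refine ⟨D, fun i z => ?_, fun i z => ?_⟩
  · refine der_comp (E i) (D i) y hy (fun j => ?_) z
    have h1 := hD i (Sum.inl j)
    change D i (y j : L) = _ at h1
    change D i (y j : L) = ((E i (y j) : M) : L)
    rw [h1, hE]
    by_cases h : i = j
    · subst h; simp
    · rw [if_neg h, if_neg (fun h' => h (Sum.inl.inj h').symm)]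
      rfl
  · refine der_zero ((D i).compAlgebraMap N) x hx (fun j => ?_) z
    have h1 := hD i (Sum.inr j)
    rw [if_neg (by simp)] at h1
    exact h1

/-- Linear disjointness. -/
theorem linDisj [IsAlgClosed k] {a b : ℕ} (M N : IntermediateField k L)
    (halg : Algebra.IsAlgebraic ↥(M ⊔ N) L) (hn : Algebra.trdeg k L = (a + b : ℕ))
    (hM : Algebra.trdeg k M = a) (hN : Algebra.trdeg k N = b) {ι : Type*} (β : ι → N)
    (hβ : LinearIndependent k β) : LinearIndependent M (fun i => (β i : L)) := by
  classical
  obtain ⟨y, hy⟩ := Pool.Agent.W636.PG.exists_basis k M a hM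
  obtain ⟨x, hx⟩ := Pool.Agent.W636.PG.exists_basis k N b hN
  obtain ⟨E, hE⟩ := Pool.Agent.W636.PG.exists_duals k M a y hy
  obtain ⟨D, hDM, hDN⟩ := duals_two M N halg hn y hy x hx E hE
  rw [linearIndependent_iff']
  intro s
  induction s using Finset.induction_on with
  | empty => intro g _ i hi; exact absurd hi (Finset.notMem_empty _)
  | insert j s hj ih =>
    intro g hg
    have h0 : g j = 0 := by
      by_contra hne
      let c : ι → M := fun i => g i / g j
      have h1 : ∑ i ∈ s, c i • (β i : L) + (β j : L) = 0 := by
        rw [Finset.sum_insert hj] at hg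
        have h2 : ((g j)⁻¹ : M) • (g j • (β j : L) + ∑ i ∈ s, g i • (β i : L)) = 0 := by
          rw [hg, smul_zero]
        rw [smul_add, smul_smul, inv_mul_cancel₀ hne, one_smul, Finset.smul_sum] at h2
        rw [add_comm, ← h2]
        congr 1
        refine Finset.sum_congr rfl fun i _ => ?_
        rw [smul_smul]
        congr 1
        change g i / g j = _
        rw [div_eq_mul_inv, mul_comm]
      have h2 : ∀ l, ∀ i ∈ s, E l (c i) = 0 := by
        intro l
        apply ih (fun i => E l (c i))
        have h3 := congrArg (D l) h1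
        rw [map_zero, map_add, hDN, add_zero, map_sum] at h3
        rw [← h3]
        refine Finset.sum_congr rfl fun i _ => ?_
        rw [Algebra.smul_def, Algebra.smul_def]
        change ((E l (c i) : M) : L) * _ = D l ((c i : L) * (β i : L))
        rw [(D l).leibniz, hDN, smul_zero, zero_add, hDM, smul_eq_mul, mul_comm]
      have h3 : ∀ i, ∃ r : k, i ∈ s → algebraMap k M r = c i := by
        intro i
        by_cases hi : i ∈ s
        · obtain ⟨r, hr⟩ := const_of_der y hy E hE (c i) (fun l => h2 l i hi)
          exact ⟨r, fun _ => hr⟩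
        · exact ⟨0, fun h => absurd h hi⟩
      choose r hr using h3
      have h4 : ∑ i ∈ insert j s, (if i = j then (1 : k) else r i) • β i = 0 := by
        rw [Finset.sum_insert hj, if_pos rfl, one_smul]
        have h5 : ∑ i ∈ s, (if i = j then (1 : k) else r i) • β i = ∑ i ∈ s, r i • β i := by
          refine Finset.sum_congr rfl fun i hi => ?_
          rw [if_neg (show ¬ i = j from fun h => hj (h ▸ hi))]
        rw [h5]
        apply Subtype.ext
        change (β j : L) + ((∑ i ∈ s, r i • β i : N) : L) = 0
        rw [AddSubmonoidClass.coe_finsetSum, add_comm, ← h1]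
        congr 1
        refine Finset.sum_congr rfl fun i hi => ?_
        rw [Algebra.smul_def (c i), ← hr i hi]
        change ((r i • β i : N) : L) = _
        rw [Algebra.smul_def]
        rfl
      have h5 := linearIndependent_iff'.1 hβ _ _ h4 j (Finset.mem_insert_self _ _)
      rw [if_pos rfl] at h5
      exact one_ne_zero h5
    intro i hi
    rw [Finset.sum_insert hj, h0, zero_smul, zero_add] at hg
    rcases Finset.mem_insert.1 hi with rfl | hi
    · exact h0
    · exact ih g hg i hi

end

end Pool.Agent.K1H17.IS
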