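import Pool.Agent.K1H17.IS.Ga

/-! The Gauss extension is divisorial. -/

set_option autoImplicit false
set_option linter.overlappingInstances false
set_option linter.unusedSectionVars false

open FF IntermediateField Pool.Agent.W619.PQ Pool.Agent.W619.PL Pool.Agent.W619.TW
  Pool.Agent.W603.LV

namespace Pool.Agent.K1H17.IS

section

variable {k K : Type*} [Field k] [Field K] [Algebra k K]

theorem isDiv_of_fintype {v : Place k K} {n : ℕ} {ι : Type*} [Fintype ι]
    (hι : Fintype.card ι = n - 1) (y : ι → K)
    (hy : ∀ p : MvPolynomial ι k, p ≠ 0 →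
      MvPolynomial.aeval y p ≠ 0 ∧ v.ord (MvPolynomial.aeval y p) = 0) : IsDivisorial v n := by
  let σ : Fin (n - 1) ≃ ι := (Fintype.equivFinOfCardEq hι).symm
  refine ⟨y ∘ σ, fun p hp => ?_⟩
  have h1 : MvPolynomial.rename σ p ≠ 0 := by
    intro h0
    exact hp (MvPolynomial.rename_injective σ σ.injective (h0.trans (map_zero _).symm))
  have h2 := hy _ h1
  rw [MvPolynomial.aeval_rename] at h2
  exact h2

theorem linIndep_mon {b : ℕ} (x : Fin b → K) (hx : AlgebraicIndependent k x) :
    LinearIndependent k (fun m : Fin b →₀ ℕ => ∏ i, x i ^ m i) := by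
  have h1 := (MvPolynomial.basisMonomials (Fin b) k).linearIndependent.map'
    (MvPolynomial.aeval (R := k) x).toLinearMap
    (LinearMap.ker_eq_bot.2 hx)
  have h2 : (fun m : Fin b →₀ ℕ => ∏ i, x i ^ m i) =
      (MvPolynomial.aeval (R := k) x).toLinearMap ∘ (MvPolynomial.basisMonomials (Fin b) k) := by
    funext m
    change _ = MvPolynomial.aeval x (MvPolynomial.basisMonomials (Fin b) k m)
    rw [MvPolynomial.coe_basisMonomials, MvPolynomial.aeval_monomial, map_one, one_mul,
      Finsupp.prod_fintype _ _ (fun i => pow_zero _)]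
  rw [h2]
  exact h1

end

section

variable {k L : Type*} [Field k] [Field L] [Algebra k L] [CharZero k] [IsAlgClosed k]
  {M F : IntermediateField k L} {n m : ℤ} {z w : L}

theorem UU_famS (h : Dj M F) (u : Place k M) {ι : Type*} (s : Finset ι) (β : ι → F) (μ : ι → M)
    (c : ℤ) (hβ : LinearIndependent k β)
    (hz : Ge (UU h u) c (∑ i ∈ s, (β i : L) * (μ i : L))) (i : ι) (hi : i ∈ s) :
    Ge u c (μ i) := by
  have h1 : ∑ i ∈ s, (β i : L) * (μ i : L) = ∑ j : Fin s.card,
      (β (s.equivFin.symm j) : L) * (μ (s.equivFin.symm j) : L) := by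
    rw [← Finset.sum_coe_sort s]
    exact (Equiv.sum_comp s.equivFin.symm (fun i : s => (β i : L) * (μ i : L))).symm
  rw [h1] at hz
  have h2 := UU_fam h u s.card (fun j => β (s.equivFin.symm j)) (fun j => μ (s.equivFin.symm j)) c
    (hβ.comp (fun j : Fin s.card => ((s.equivFin.symm j : s) : ι))
      (fun a b hab => s.equivFin.symm.injective (Subtype.ext hab))) hz (s.equivFin ⟨i, hi⟩)
  simpa using h2

theorem UU_div' (h : Dj M F) (u : Place k M) (a b : ℕ) (hM : Algebra.trdeg k M = a)
    (x : Fin b → F) (hx : AlgebraicIndependent k x)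
    (hu : IsDivisorial u a) : IsDivisorial (UU h u) (a + b) := by
  cases a with
  | zero =>
    exfalso
    obtain ⟨s, hs0, hs⟩ := u.surj
    have h1 : Transcendental k s := u.transcendental_of_ord_ne (by omega)
    have h2 : Algebra.IsAlgebraic k M := by
      rw [← _root_.trdeg_eq_zero_iff, hM, Nat.cast_zero]
    exact h1 (h2.isAlgebraic s)
  | succ e =>
    obtain ⟨y, hy⟩ := hu
    have hy' : ∀ p : MvPolynomial (Fin e) k, p ≠ 0 →
      MvPolynomial.aeval (R := k) (fun i : Fin e => y i) p ≠ 0 ∧
        u.ord (MvPolynomial.aeval (R := k) (fun i : Fin e => y i) p) = 0 := hy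
    set y0 : Fin e → M := fun i => y i with hy0
    refine isDiv_of_fintype (ι := Fin b ⊕ Fin e) (by
      rw [Fintype.card_sum, Fintype.card_fin, Fintype.card_fin]; omega)
      (Sum.elim (fun i => (x i : L)) (fun i => (y0 i : L))) fun p hp => ?_
    set q := MvPolynomial.sumAlgEquiv k (Fin b) (Fin e) p with hq
    have hq0 : q ≠ 0 := by
      intro h0
      apply hp
      have h1 := congrArg (MvPolynomial.sumAlgEquiv k (Fin b) (Fin e)).symm h0
      rwa [hq, AlgEquiv.symm_apply_apply, map_zero] at h1
    let φ : MvPolynomial (Fin e) k →+* L :=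
      ((MvPolynomial.aeval (R := k) (fun i => (y0 i : L)) : MvPolynomial (Fin e) k →ₐ[k] L) :
        MvPolynomial (Fin e) k →+* L)
    have hφ : ∀ r : MvPolynomial (Fin e) k, φ r = ((MvPolynomial.aeval (R := k) y0 r : M) : L) :=
      fun r => MvPolynomial.aeval_algebraMap_apply L y0 r
    have e0 : ∀ p : MvPolynomial (Fin b ⊕ Fin e) k,
        MvPolynomial.aeval (R := k) (Sum.elim (fun i => (x i : L)) (fun i => (y0 i : L))) p =
        MvPolynomial.eval₂ φ (fun i => (x i : L)) (MvPolynomial.sumAlgEquiv k (Fin b) (Fin e) p) := by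
      intro p
      induction p using MvPolynomial.induction_on with
      | C c =>
        rw [MvPolynomial.aeval_C, MvPolynomial.sumAlgEquiv_C_inl, MvPolynomial.eval₂_C]
        change _ = MvPolynomial.aeval (R := k) (fun i => (y0 i : L)) (MvPolynomial.C c)
        rw [MvPolynomial.aeval_C]
      | add p q hp hq => rw [map_add, map_add, MvPolynomial.eval₂_add, hp, hq]
      | mul_X p i hp =>
        rw [map_mul, map_mul, MvPolynomial.eval₂_mul, hp, MvPolynomial.aeval_X]
        congr 1
        rcases i with i | i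
        · rw [MvPolynomial.sumAlgEquiv_X_inl, MvPolynomial.eval₂_X, Sum.elim_inl]
        · rw [MvPolynomial.sumAlgEquiv_X_inr, MvPolynomial.eval₂_C, Sum.elim_inr]
          change _ = MvPolynomial.aeval (R := k) (fun i => (y0 i : L)) (MvPolynomial.X i)
          rw [MvPolynomial.aeval_X]
    have e1 : MvPolynomial.aeval (R := k)
        (Sum.elim (fun i => (x i : L)) (fun i => (y0 i : L))) p =
        ∑ m ∈ q.support, ((∏ i, x i ^ m i : F) : L) *
          ((MvPolynomial.aeval (R := k) y0 (q.coeff m) : M) : L) := by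
      rw [e0, ← hq, MvPolynomial.eval₂_eq']
      refine Finset.sum_congr rfl fun m _ => ?_
      rw [hφ, mul_comm]
      congr 1
      change _ = algebraMap F L (∏ i, x i ^ m i)
      rw [map_prod]
      refine Finset.prod_congr rfl fun i _ => ?_
      rw [map_pow]
      rfl
    have hmon := linIndep_mon x hx
    have hge : Ge (UU h u) 0 (MvPolynomial.aeval (R := k)
        (Sum.elim (fun i => (x i : L)) (fun i => (y0 i : L))) p) := by
      rw [e1]
      refine Ge.sum _ _ fun m _ => ?_
      have h1 : Ge (UU h u) 0 ((MvPolynomial.aeval (R := k) y0 (q.coeff m) : M) : L) := by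
        by_cases h2 : q.coeff m = 0
        · left
          rw [h2, map_zero]
          rfl
        · right
          rw [UU_M]
          exact (hy' _ h2).2.ge
      have h3 : Ge (UU h u) 0 ((∏ i, x i ^ m i : F) : L) := Or.inr (UU_F h u _).ge
      have h4 := h3.mul h1
      rwa [zero_add] at h4
    have hnge : ¬ Ge (UU h u) 1 (MvPolynomial.aeval (R := k)
        (Sum.elim (fun i => (x i : L)) (fun i => (y0 i : L))) p) := by
      intro hc
      obtain ⟨m, hm⟩ := MvPolynomial.support_nonempty.2 hq0
      rw [e1] at hc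
      have h1 := UU_famS h u q.support (fun m => ∏ i, x i ^ m i)
        (fun m => MvPolynomial.aeval (R := k) y0 (q.coeff m)) 1 hmon hc m hm
      have h3 := hy' _ (MvPolynomial.mem_support_iff.1 hm)
      rcases h1 with h1 | h1
      · exact h3.1 h1
      · have h4 : u.ord (MvPolynomial.aeval (R := k) y0 (q.coeff m)) = 0 := h3.2
        omega
    refine ⟨fun h0 => hnge (Or.inl h0), ?_⟩
    rcases hge with h1 | h1
    · exact absurd (Or.inl h1) hnge
    · by_contra h2
      exact hnge (Or.inr (by
        have h3 : (UU h u).ord (MvPolynomial.aeval (R := k)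
          (Sum.elim (fun i => (x i : L)) (fun i => (y0 i : L))) p) ≠ 0 := h2
        omega))

end

end Pool.Agent.K1H17.IS
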