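import Pool.Agent.K1H17.IS.Ds

/-! Pluricanonical forms on quotients of a product of two varieties: the general construction. -/

set_option autoImplicit false
set_option linter.overlappingInstances false
set_option linter.unusedSectionVars false
set_option linter.unusedVariables false

open FF IntermediateField Pool.Agent.W619.PQ Pool.Agent.W619.PL Pool.Agent.W619.TW
  Pool.Agent.W603.LV Pool.Agent.W619.Y Pool.Agent.W672.PG Pool.Agent.W824.PG Pool.Agent.Y174

namespace Pool.Agent.K1H17.IS

section

variable {k : Type} {L : Type} [Field k] [CharZero k] [Field L] [Algebra k L]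

/-- The product of forms which are regular along `w`. -/
theorem yg_append {d d' m : ℕ} {w : Place k L} {y : Fin d → L} {x : Fin d' → L} {a a' : L}
    (h : YGood d m w y a) (h' : YGood d' m w x a') (D : Fin (d + d') → Derivation k L L)
    (hD : ∀ j, Pres w (D j)) :
    Ge w 0 ((Matrix.of fun i j => D i (Fin.append y x j)).det ^ m * (a * a')) := by
  obtain ⟨Z, z, h1, h2, h3⟩ := h
  obtain ⟨Z', z', h1', h2', h3'⟩ := h'
  let P : Matrix (Fin (d + d')) (Fin (d + d')) L := Matrix.of fun i j =>
    Fin.addCases (motive := fun _ => L) (fun l => D i (z l)) (fun l => D i (z' l)) j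
  let A : Matrix (Fin (d + d')) (Fin (d + d')) L :=
    Matrix.reindex finSumFinEquiv finSumFinEquiv (Matrix.fromBlocks Z 0 0 Z')
  have hA11 : ∀ i j, A (Fin.castAdd d' i) (Fin.castAdd d' j) = Z i j := by
    intro i j; simp [A]
  have hA12 : ∀ i j, A (Fin.castAdd d' i) (Fin.natAdd d j) = 0 := by
    intro i j; simp [A]
  have hA21 : ∀ i j, A (Fin.natAdd d i) (Fin.castAdd d' j) = 0 := by
    intro i j; simp [A]
  have hA22 : ∀ i j, A (Fin.natAdd d i) (Fin.natAdd d j) = Z' i j := by
    intro i j; simp [A]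
  have e1 : (Matrix.of fun i j => D i (Fin.append y x j)) = P * A.transpose := by
    ext i j
    rw [Matrix.of_apply, Matrix.mul_apply]
    refine Fin.addCases (fun l => ?_) (fun l => ?_) j
    · rw [Fin.append_left, h2, Fin.sum_univ_add]
      simp only [Matrix.transpose_apply, hA11, hA12, mul_zero, Finset.sum_const_zero, add_zero]
      refine Finset.sum_congr rfl fun c _ => ?_
      simp [P, mul_comm]
    · rw [Fin.append_right, h2', Fin.sum_univ_add]
      simp only [Matrix.transpose_apply, hA21, hA22, mul_zero, Finset.sum_const_zero, zero_add]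
      refine Finset.sum_congr rfl fun c _ => ?_
      simp [P, mul_comm]
  have e2 : A.det = Z.det * Z'.det := det_blk Z Z'
  have h4 : Ge w 0 P.det := by
    refine ge_det w _ fun i j => ?_
    refine Fin.addCases (fun l => ?_) (fun l => ?_) j
    · simp only [P, Matrix.of_apply, Fin.addCases_left]
      exact hD i _ (h1 l)
    · simp only [P, Matrix.of_apply, Fin.addCases_right]
      exact hD i _ (h1' l)
  rw [e1, Matrix.det_mul, Matrix.det_transpose, e2]
  have e3 : (P.det * (Z.det * Z'.det)) ^ m * (a * a') =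
      (a * Z.det ^ m) * (a' * Z'.det ^ m) * P.det ^ m := by
    rw [mul_pow, mul_pow]; ring
  rw [e3]
  have h5 := (h3.mul h3').mul (h4.pow m)
  simpa using h5

variable {M N : IntermediateField k L} {a b : ℕ}

/-- The index pairs. -/
def pr (A B : ℕ) : Fin (A + B + 1) → Fin (A + 1) × Fin (B + 1) :=
  Fin.cons (0, 0) (fun l => Fin.addCases (motive := fun _ => Fin (A + 1) × Fin (B + 1))
    (fun i => (i.succ, 0)) (fun j => (0, j.succ)) l)

theorem kod_prod {A B μ : ℕ} (hμ : 1 ≤ μ) (halg : Algebra.IsAlgebraic ↥(M ⊔ N) L)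
    (hn : Algebra.trdeg k L = (a + b : ℕ)) (hM : Algebra.trdeg k M = a)
    (hN : Algebra.trdeg k N = b) (hessL : Algebra.EssFiniteType k L)
    (hessM : Algebra.EssFiniteType k M) (hessN : Algebra.EssFiniteType k N)
    (G : Subgroup (L ≃ₐ[k] L)) [Finite G]
    (y : Fin a → M) (hy : IsTranscendenceBasis k y) (E : Fin a → Derivation k M M)
    (hE : ∀ i j, E i (y j) = if i = j then 1 else 0)
    (x : Fin b → N) (hx : IsTranscendenceBasis k x) (E' : Fin b → Derivation k N N)
    (hE' : ∀ i j, E' i (x j) = if i = j then 1 else 0)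
    (F : Fin (A + 1) → (Fin a → Derivation k M M) → M) (hF : ∀ l, IsPluriForm k M a μ (F l))
    (hF0 : ∀ l, F l E ≠ 0) (hFi : AlgebraicIndependent k (fun l : Fin A => F l.succ E / F 0 E))
    (F' : Fin (B + 1) → (Fin b → Derivation k N N) → N) (hF' : ∀ l, IsPluriForm k N b μ (F' l))
    (hF0' : ∀ l, F' l E' ≠ 0)
    (hFi' : AlgebraicIndependent k (fun l : Fin B => F' l.succ E' / F' 0 E'))
    (hreg : ∀ l (u : Place k M), IsDivisorial u a → LogGe a u (F l) μ)
    (hreg' : ∀ l (u : Place k N), IsDivisorial u b → LogGe b u (F' l) μ)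
    (hram : ∀ v : Place k (fixedField G), IsDivisorial v (a + b) → ∀ w e, Over w v e → 2 ≤ e →
      e ≤ Nat.card G → (∃ h ∈ G, h ≠ 1 ∧ Inert w h) → ∃ γ γ' : ℝ, (μ : ℝ) * e ≤ γ + γ' ∧
        (∀ l, LG w μ (fun i => (y i : L)) ((F l E : M) : L) γ) ∧
        ∀ l, LG w μ (fun i => (x i : L)) ((F' l E' : N) : L) γ') :
    KodTr k (fixedField G) (a + b) (A + B) := by
  have hbasis := basis_append M N halg hn y hy x hx
  set Y : Fin (a + b) → L := Fin.append (fun l => (y l : L)) (fun i => (x i : L)) with hY
  obtain ⟨D0, hD0⟩ := Pool.Agent.W636.PG.exists_duals k L (a + b) Y hbasis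
  have hdet1 : (Matrix.of fun i j => D0 i (Y j)).det = 1 := by
    have h1 : (Matrix.of fun i j => D0 i (Y j)) = 1 := by
      ext i j
      rw [Matrix.of_apply, Matrix.one_apply, hD0]
    rw [h1, Matrix.det_one]
  let c : Fin (A + B + 1) → L := fun l => ((F (pr A B l).1 E : M) : L) * ((F' (pr A B l).2 E' : N) : L)
  have hc0 : ∀ l, c l ≠ 0 := by
    intro l
    refine mul_ne_zero (fun h => hF0 _ (Subtype.ext h)) (fun h => hF0' _ (Subtype.ext h))
  have hf0 : ((F 0 E : M) : L) ≠ 0 := fun h => hF0 0 (Subtype.ext h)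
  have hf0' : ((F' 0 E' : N) : L) ≠ 0 := fun h => hF0' 0 (Subtype.ext h)
  have hratio : (fun l : Fin (A + B) => c l.succ / c 0) =
      (Fin.append (fun l : Fin A => ((F l.succ E / F 0 E : M) : L))
        (fun l : Fin B => ((F' l.succ E' / F' 0 E' : N) : L)) : Fin (A + B) → L) := by
    funext l
    refine Fin.addCases (fun l => ?_) (fun l => ?_) l
    · rw [Fin.append_left]
      have e1 : c (Fin.succ (Fin.castAdd B l)) = ((F l.succ E : M) : L) * ((F' 0 E' : N) : L) := by
        simp [c, pr]
      have e2 : c 0 = ((F 0 E : M) : L) * ((F' 0 E' : N) : L) := by simp [c, pr]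
      rw [e1, e2, mul_div_mul_right _ _ hf0']
      rfl
    · rw [Fin.append_right]
      have e1 : c (Fin.succ (Fin.natAdd A l)) = ((F 0 E : M) : L) * ((F' l.succ E' : N) : L) := by
        simp [c, pr]
      have e2 : c 0 = ((F 0 E : M) : L) * ((F' 0 E' : N) : L) := by simp [c, pr]
      rw [e1, e2, mul_div_mul_left _ _ hf0]
      rfl
  let s : Fin (A + B + 1) → (Fin (a + b) → Derivation k L L) → L := fun l D =>
    (Matrix.of fun i j => D i (Y j)).det ^ μ * c l
  have hs : ∀ l, IsPluriForm k L (a + b) μ (s l) := fun l =>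
    pluri_pull (K := L) (L := L) Y (c l)
  have hsD : ∀ l, s l D0 = c l := by
    intro l
    change (Matrix.of fun i j => D0 i (Y j)).det ^ μ * c l = c l
    rw [hdet1, one_pow, one_mul]
  refine desc hμ hn hessL G s hs D0 (fun l => by rw [hsD]; exact hc0 l) ?_ ?_
  · have e1 : (fun l : Fin (A + B) => s l.succ D0 / s 0 D0) =
        fun l : Fin (A + B) => c l.succ / c 0 := by
      funext l
      rw [hsD, hsD]
    rw [e1, hratio]
    exact indep_append M N halg hn hM hN _ hFi _ hFi'
  · intro v hv w e hwv hle hin l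
    have hw := divisorial_up hwv hv
    rcases Nat.lt_or_ge e 2 with he | he
    · have he1 : e = 1 := by have := hwv.1; omega
      have hr1 : ∀ l (u : Place k M), IsDivisorial u a → RegularAt u a (F l) := by
        intro l u hu D hD
        have h1 := reg_of_log hM hessM hu (F l) (hF l) (hreg l u hu) D hD
        rw [sub_self] at h1
        have h2 : GeR u ((0 : ℤ) : ℝ) (F l D) := h1.mono (by simp)
        exact h2.toInt
      have hr2 : ∀ l (u : Place k N), IsDivisorial u b → RegularAt u b (F' l) := by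
        intro l u hu D hD
        have h1 := reg_of_log hN hessN hu (F' l) (hF' l) (hreg' l u hu) D hD
        rw [sub_self] at h1
        have h2 : GeR u ((0 : ℤ) : ℝ) (F' l D) := h1.mono (by simp)
        exact h2.toInt
      have hYL := Pool.Agent.W308.PG.YLOC.main Pool.Agent.Y174.pFRAME Pool.Agent.Y174.pDIVR
      have g1 : YGood a μ w (fun i => (y i : L)) ((F (pr A B l).1 E : M) : L) :=
        hYL k L M a (a + b) μ hM hn (fun y hy => fin_adj hessM y hy) _ (hF _) (hr1 _) y E hy hE w hw
      have g2 : YGood b μ w (fun i => (x i : L)) ((F' (pr A B l).2 E' : N) : L) :=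
        hYL k L N b (a + b) μ hN hn (fun y hy => fin_adj hessN y hy) _ (hF' _) (hr2 _) x E' hx hE'
          w hw
      have g3 := logGe_of_reg (c := 0) hn hessL hw (s l) (hs l) (fun D hD => by
        have := Ge.toR (yg_append g1 g2 D hD)
        simpa using this)
      refine g3.mono ?_
      rw [he1]
      simp
    · obtain ⟨γ, γ', hγ, h1, h2⟩ := hram v hv w e hwv he hle (hin he)
      intro D hD hl
      exact (lg_append (h1 (pr A B l).1) (h2 (pr A B l).2) D hD hl).mono hγ

end

end Pool.Agent.K1H17.IS
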