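import Pool.Agent.K1H17.IS.Fw

/-! Kodaira dimension of quotients of products of several varieties. -/

set_option autoImplicit false
set_option linter.overlappingInstances false
set_option linter.unusedSectionVars false
set_option linter.unusedVariables false
set_option linter.style.haveILetI false

open FF IntermediateField Pool.Agent.W619.PQ Pool.Agent.W619.PL Pool.Agent.W619.TW
  Pool.Agent.W603.LV Pool.Agent.W619.Y Pool.Agent.W672.PG Pool.Agent.W824.PG Pool.Agent.Y174

namespace Pool.Agent.K1H17.IS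

section

variable {k : Type} {L : Type} [Field k] [CharZero k] [Field L] [Algebra k L]

open scoped Classical in
/-- The numerical criterion: for every `g ≠ 1` in `G`, of order `d`, the set of the factors on which
`g` acts nontrivially has at least `d` elements, or the sum of `max (1 / d, s i g)` over this set is
greater than `1`. -/
def WeightCond {r : ℕ} (M : Fin r → IntermediateField k L) (G : Subgroup (L ≃ₐ[k] L))
    (s : Fin r → (L ≃ₐ[k] L) → ℝ) : Prop :=
  ∀ g ∈ G, g ≠ 1 → orderOf g ≤ (Finset.univ.filter fun i => ¬ ActsTrivially (M i) g).card ∨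
    1 < ∑ i ∈ Finset.univ.filter fun i => ¬ ActsTrivially (M i) g, max (1 / (orderOf g : ℝ)) (s i g)

theorem kod_many {r : ℕ} {a A : Fin r → ℕ} (M : Fin r → IntermediateField k L)
    (halg : Algebra.IsAlgebraic ↥(⨆ i, M i) L) (hn : Algebra.trdeg k L = (∑ i, a i : ℕ))
    (hM : ∀ i, Algebra.trdeg k (M i) = a i) (hessL : Algebra.EssFiniteType k L)
    (hessM : ∀ i, Algebra.EssFiniteType k (M i)) (G : Subgroup (L ≃ₐ[k] L)) [Finite G]
    (hG : ∀ i, ∀ g ∈ G, ∀ z ∈ M i, g z ∈ M i) (s : Fin r → (L ≃ₐ[k] L) → ℝ)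
    (hs : ∀ i, (∀ g ∈ G, s i g ≤ 0) ∨ OrbEffective (M i) G (a i) (s i))
    (hg : WeightCond M G s) (hω : ∀ i, KodTr k (M i) (a i) (A i)) :
    KodTr k (fixedField G) (∑ i, a i) (∑ i, A i) := by
  classical
  have hfac : ∀ i, ∃ (y : Fin (a i) → M i) (E : Fin (a i) → Derivation k (M i) (M i)) (n m : ℕ),
      IsTranscendenceBasis k y ∧ (∀ p q, E p (y q) = if p = q then 1 else 0) ∧ 1 ≤ n ∧ 1 ≤ m ∧
      FacData (M i) G (a i) (A i) (∑ i, a i) (s i) y E n m := by
    intro i
    obtain ⟨y0, E, hy0, hy, hE⟩ := exists_coords (M i) G (hG i) (hM i)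
    rcases hs i with h1 | h1
    · obtain ⟨n, m, h2, h3, h4⟩ := fac_free (M i) G (hG i) (hM i) hn (hessM i) h1 (hω i) _ hy E hE
      exact ⟨_, E, n, m, hy, hE, h2, h3, h4⟩
    · obtain ⟨n, m, h2, h3, h4⟩ := fac_orb (M i) G (hG i) (hM i) hn (hessM i) h1 (hω i) y0 hy0 hy
        E hE
      exact ⟨_, E, n, m, hy, hE, h2, h3, h4⟩
  choose y E n m hy hE hn1 hm1 hF using hfac
  let Sf : (L ≃ₐ[k] L) → Finset (Fin r) := fun g =>
    Finset.univ.filter fun i => ¬ ActsTrivially (M i) g
  let Wt : (L ≃ₐ[k] L) → ℝ := fun g => ∑ i ∈ Sf g, max (1 / (orderOf g : ℝ)) (s i g)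
  have hb : BddAbove (Set.range fun g : G => ⌈1 / (Wt (g : L ≃ₐ[k] L) - 1)⌉₊) :=
    (Set.finite_range _).bddAbove
  obtain ⟨T, hT0⟩ := hb
  have hT : ∀ g ∈ G, 1 < Wt g → 1 ≤ T * (Wt g - 1) := by
    intro g hgG hlt
    have h1 : ⌈1 / (Wt g - 1)⌉₊ ≤ T := hT0 ⟨⟨g, hgG⟩, rfl⟩
    have h2 : 1 / (Wt g - 1) ≤ (T : ℝ) := (Nat.le_ceil _).trans (by exact_mod_cast h1)
    have h3 : 0 < Wt g - 1 := by linarith
    rwa [div_le_iff₀ h3] at h2
  let Q : ℕ := ∏ i, (n i * m i)
  have hQ : 1 ≤ Q := Finset.prod_pos fun i _ => Nat.mul_pos (hn1 i) (hm1 i)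
  have hQi : ∀ i, n i * m i ∣ Q := fun i => Finset.dvd_prod_of_mem _ (Finset.mem_univ i)
  have hQn : ∀ i, ∃ p, Q = n i * p := fun i => (dvd_mul_right _ _).trans (hQi i)
  have hQm : ∀ i, ∃ p, Q = m i * p := fun i => (dvd_mul_left _ _).trans (hQi i)
  choose p hp using hQn
  choose q hq using hQm
  have hq1 : ∀ i, 1 ≤ q i := by
    intro i
    by_contra hcon
    have : q i = 0 := by omega
    have h1 := hq i
    rw [this, mul_zero] at h1
    omega
  have hwt : ∀ i, T * p i * n i + q i * m i = T * Q + Q := by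
    intro i
    have h1 := hp i
    have h2 := hq i
    calc T * p i * n i + q i * m i = T * (n i * p i) + m i * q i := by ring
      _ = T * Q + Q := by rw [← h1, ← h2]
  choose F hF1 hF2 hF3 hF4 hF5 using fun i => hF i (T * p i) (q i) (hq1 i)
  simp only [hwt] at hF1 hF4 hF5
  refine kod_prodR (μ := T * Q + Q) (by omega) M halg hn hM hessL hessM G y hy E hE F hF1 hF2 hF3
    hF4 ?_
  intro v hv w e hwv he2 hin
  obtain ⟨h, hh, h1, hord, hI⟩ := hin
  have hw := divisorial_up hwv hv
  refine ⟨fun i => if ActsTrivially (M i) h then 0 else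
    ((T * p i : ℕ) : ℝ) * n i * max 1 (e * s i h) + q i * m i, ?_, ?_⟩
  · have e0 : (0 : ℝ) < e := by
      have : 0 < e := by omega
      exact_mod_cast this
    have e1 : ∑ i, (if ActsTrivially (M i) h then 0 else
        ((T * p i : ℕ) : ℝ) * n i * max 1 (e * s i h) + q i * m i) =
        ∑ i ∈ Sf h, ((Q : ℝ) * (T * (e * max (1 / (orderOf h : ℝ)) (s i h))) + Q) := by
      rw [Finset.sum_filter]
      refine Finset.sum_congr rfl fun i _ => ?_
      by_cases hi : ActsTrivially (M i) h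
      · rw [if_pos hi, if_neg (not_not.2 hi)]
      · rw [if_neg hi, if_pos hi]
        have h2 : max 1 ((e : ℝ) * s i h) = e * max (1 / (orderOf h : ℝ)) (s i h) := by
          rw [hord, mul_max_of_nonneg _ _ e0.le, mul_one_div_cancel e0.ne']
        have h3 : ((q i : ℝ) * m i) = Q := by
          rw [hq i]; push_cast; ring
        have h4 : ((p i : ℝ) * n i) = Q := by
          rw [hp i]; push_cast; ring
        rw [h2, h3, ← h4]
        push_cast
        ring
    rw [e1, Finset.sum_add_distrib, ← Finset.mul_sum, ← Finset.mul_sum, ← Finset.mul_sum,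
      Finset.sum_const, nsmul_eq_mul]
    change _ ≤ (Q : ℝ) * (T * (e * Wt h)) + ((Sf h).card : ℝ) * Q
    have hQ0 : (0 : ℝ) ≤ Q := Nat.cast_nonneg _
    have hT0 : (0 : ℝ) ≤ T := Nat.cast_nonneg _
    rcases hg h hh h1 with h2 | h2
    · change orderOf h ≤ (Sf h).card at h2
      rw [hord] at h2
      have h3 : (e : ℝ) ≤ (Sf h).card := by exact_mod_cast h2
      have h4 : 1 ≤ Wt h := by
        have h5 : ∑ i ∈ Sf h, (1 / (orderOf h : ℝ)) ≤ Wt h :=
          Finset.sum_le_sum fun i _ => le_max_left _ _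
        rw [Finset.sum_const, nsmul_eq_mul, hord, mul_one_div] at h5
        refine le_trans ?_ h5
        rw [one_le_div e0]
        exact h3
      have h5 : (T : ℝ) * e ≤ T * (e * Wt h) := by
        refine mul_le_mul_of_nonneg_left ?_ hT0
        nlinarith
      have h6 := mul_le_mul_of_nonneg_left h5 hQ0
      have h7 := mul_le_mul_of_nonneg_left h3 hQ0
      push_cast
      nlinarith
    · change 1 < Wt h at h2
      have h3 := hT h hh h2
      have h4 : (e : ℝ) * 1 ≤ e * (T * (Wt h - 1)) := mul_le_mul_of_nonneg_left h3 e0.le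
      have h5 : (T : ℝ) * e + e ≤ T * (e * Wt h) := by nlinarith
      have h6 := mul_le_mul_of_nonneg_left h5 hQ0
      have h7 : (0 : ℝ) ≤ (Sf h).card * Q := by positivity
      push_cast
      nlinarith
  · intro i l
    obtain ⟨h2, h3⟩ := hF5 i v w e hwv hw h hh hord hI
    beta_reduce
    by_cases hi : ActsTrivially (M i) h
    · rw [if_pos hi]
      exact h2 hi l
    · rw [if_neg hi]
      exact h3 hi l

end

end Pool.Agent.K1H17.IS
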