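import Pool.Agent.K1H17.IS.Rg3

/-! The Kuenneth formula for the sections of `m K + A` on a product of two varieties. -/

set_option autoImplicit false
set_option linter.overlappingInstances false
set_option linter.unusedSectionVars false
set_option linter.unusedVariables false

open FF IntermediateField Pool.Agent.W619.PQ Pool.Agent.W619.PL Pool.Agent.W619.TW
  Pool.Agent.W603.LV Pool.Agent.W619.Y

namespace Pool.Agent.K1H17.IS

section

variable {k : Type} [Field k] [CharZero k]
variable {L : Type} [Field L] [Algebra k L] {M F : IntermediateField k L} {a b : ℕ}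

theorem RR_comm {z : L} (hz : z ∈ RR M F) : z ∈ RR F M := by
  have h := RR.mem_span hz
  clear hz
  induction h using Submodule.closure_induction with
  | zero => exact zero_mem _
  | add x y _ _ hx hy => exact add_mem hx hy
  | smul_mem r x h =>
    rw [Algebra.smul_def]
    exact mul_mem (RR.left r.2) (RR.right h)

/-- A common denominator. -/
theorem exists_den (h : Dj M F) (S : Finset L) :
    ∃ b0 : L, b0 ≠ 0 ∧ ∀ s ∈ S, b0 * s ∈ RR M F := by
  classical
  suffices ∃ b0 ∈ RR M F, b0 ≠ 0 ∧ ∀ s ∈ S, b0 * s ∈ RR M F by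
    obtain ⟨b0, -, h1, h2⟩ := this
    exact ⟨b0, h1, h2⟩
  induction S using Finset.induction_on with
  | empty => exact ⟨1, one_mem _, one_ne_zero, by simp⟩
  | insert s S hs ih =>
    obtain ⟨b0, h0, h1, h2⟩ := ih
    obtain ⟨p, hp, q, hq, hq0, hs⟩ := h.frac s
    refine ⟨b0 * q, mul_mem h0 hq, mul_ne_zero h1 hq0, fun t ht => ?_⟩
    rcases Finset.mem_insert.1 ht with rfl | ht
    · have e : b0 * q * t = b0 * p := by rw [hs]; field_simp
      rw [e]
      exact mul_mem h0 hp
    · have e : b0 * q * t = (b0 * t) * q := by ring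
      rw [e]
      exact mul_mem (h2 t ht) hq

variable {y : Fin a → M} {x : Fin b → F} {E : Fin (a + b) → Derivation k L L}

/-- The coordinate vector fields map `M` to `M`. -/
theorem frame_M (hE : ∀ i j, E i (app y x j) = if i = j then 1 else 0)
    (hy : IsTranscendenceBasis k y) (i : Fin (a + b)) (z : L) (hz : z ∈ M) : E i z ∈ M := by
  obtain ⟨E1, hE1⟩ := Pool.Agent.W636.PG.exists_duals k M a y hy
  refine Fin.addCases (fun l => ?_) (fun l => ?_) i
  · have h1 := der_comp (K := M) (L := L) (E1 l) (E (Fin.castAdd b l)) y hy (fun c => by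
      change E (Fin.castAdd b l) (y c : L) = ((E1 l (y c) : M) : L)
      rw [dual_left_M hE, hE1]
      split_ifs <;> rfl) ⟨z, hz⟩
    change E (Fin.castAdd b l) z = ((E1 l ⟨z, hz⟩ : M) : L) at h1
    rw [h1]
    exact (E1 l ⟨z, hz⟩).2
  · rw [dual_right_M hE hy l ⟨z, hz⟩]
    exact zero_mem _

/-- The coordinate vector fields map `F` to `F`. -/
theorem frame_F (hE : ∀ i j, E i (app y x j) = if i = j then 1 else 0)
    (hx : IsTranscendenceBasis k x) (i : Fin (a + b)) (z : L) (hz : z ∈ F) : E i z ∈ F := by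
  obtain ⟨E2, hE2⟩ := Pool.Agent.W636.PG.exists_duals k F b x hx
  refine Fin.addCases (fun l => ?_) (fun l => ?_) i
  · rw [dual_left_F hE hx l ⟨z, hz⟩]
    exact zero_mem _
  · have h1 := der_comp (K := F) (L := L) (E2 l) (E (Fin.natAdd a l)) x hx (fun c => by
      change E (Fin.natAdd a l) (x c : L) = ((E2 l (x c) : F) : L)
      rw [dual_right_F hE, hE2]
      split_ifs <;> rfl) ⟨z, hz⟩
    change E (Fin.natAdd a l) z = ((E2 l ⟨z, hz⟩ : F) : L) at h1
    rw [h1]
    exact (E2 l ⟨z, hz⟩).2

/-- The coefficients of the sections belong, up to a denominator, to the ring generated by `M` and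
`F`. -/
theorem sec_RR (h : Dj M F) (halg : Algebra.trdeg k L = (a + b : ℕ))
    (hM : Algebra.trdeg k M = a) (hF : Algebra.trdeg k F = b)
    (hess : Algebra.EssFiniteType k L) (hy : IsTranscendenceBasis k y)
    (hx : IsTranscendenceBasis k x) (hE : ∀ i j, E i (app y x j) = if i = j then 1 else 0)
    (S : Finset L) : ∃ b0 : L, b0 ≠ 0 ∧ ∀ (m j : ℕ) (ω : (Fin (a + b) → Derivation k L L) → L),
      IsSec k L (a + b) (fun _ => False) S m j ω → b0 ^ j * ω E ∈ RR M F := by
  obtain ⟨b0, hb0, hbS⟩ := exists_den h S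
  refine ⟨b0, hb0, fun m j ω hω => ?_⟩
  refine mem_RR_of_reg h halg hM hF hess _ fun w hwM hwF hwd hwP => ?_
  have h1 := hω.2.1 w hwd (fun h => h) E fun l f hf =>
    hwP (E l) (frame_M hE hy l) (frame_F hE hx l) f hf
  rcases h1 with h0 | ⟨s, hs, hs0, hsw⟩
  · left
    rw [h0, mul_zero]
  · by_cases hω0 : ω E = 0
    · left
      rw [hω0, mul_zero]
    right
    rw [w.ord_mul (pow_ne_zero _ hb0) hω0, w.ord_pow]
    have h2 := (reg_RR w hwM hwF (hbS s hs)).resolve_left (mul_ne_zero hb0 hs0)
    rw [w.ord_mul hb0 hs0] at h2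
    have h3 : (0 : ℤ) ≤ (j : ℤ) * (w.ord b0 + w.ord s) :=
      mul_nonneg (Int.natCast_nonneg _) h2
    rw [mul_add] at h3
    omega

end

section flip

variable {k : Type} [Field k] [CharZero k]
variable {L : Type} [Field L] [Algebra k L] {M F : IntermediateField k L} {a b : ℕ}
variable {y : Fin a → M} {x : Fin b → F} {E : Fin (a + b) → Derivation k L L}

theorem app_flip (i : Fin (a + b)) : app x y (finAddFlip i) = app y x i := by
  refine Fin.addCases (fun l => ?_) (fun l => ?_) i
  · rw [finAddFlip_apply_castAdd, app_left, app_right]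
  · rw [finAddFlip_apply_natAdd, app_right, app_left]

theorem dual_flip (hE : ∀ i j, E i (app y x j) = if i = j then 1 else 0)
    (i j : Fin (b + a)) : E (finAddFlip i) (app x y j) = if i = j then 1 else 0 := by
  have h1 : app x y j = app y x (finAddFlip j) := (app_flip (x := y) (y := x) j).symm
  rw [h1, hE]
  by_cases hij : i = j
  · rw [if_pos hij, if_pos (by rw [hij])]
  · rw [if_neg hij, if_neg (fun h => hij (finAddFlip.injective h))]

theorem sec_flip {Bd : Place k L → Prop} {S : Finset L} {m j : ℕ}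
    {ω : (Fin (a + b) → Derivation k L L) → L} (h : IsSec k L (a + b) Bd S m j ω) :
    IsSec k L (b + a) Bd S m j (fun D => ω (fun i => D (finAddFlip i))) := by
  refine ⟨fun A D => ?_, fun v hv hb D hD => ?_, fun v hv hb D hD => ?_⟩
  · have h1 := h.1 (A.submatrix finAddFlip finAddFlip) (fun i => D (finAddFlip i))
    rw [Matrix.det_submatrix_equiv_self] at h1
    change ω _ = A.det ^ m * ω _
    rw [← h1]
    congr 1
    funext i
    simp only [Matrix.submatrix_apply]
    exact (Equiv.sum_comp (finAddFlip : Fin (a + b) ≃ Fin (b + a))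
      (fun c => A (finAddFlip i) c • D c)).symm
  · exact h.2.1 v (by rw [add_comm]; exact hv) hb _ fun l => hD _
  · exact h.2.2 v (by rw [add_comm]; exact hv) hb _ fun l => hD _

end flip

end Pool.Agent.K1H17.IS
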