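import Pool.Agent.K1H17.IS.Kn
import Pool.Agent.W460.PG.ONE

/-! The Kuenneth formula for the sections of `m K + A` on a product of two varieties, continued. -/

set_option autoImplicit false
set_option linter.overlappingInstances false
set_option linter.unusedSectionVars false
set_option linter.unusedVariables false

open FF IntermediateField Pool.Agent.W619.PQ Pool.Agent.W619.PL Pool.Agent.W619.TW
  Pool.Agent.W603.LV Pool.Agent.W619.Y Pool.Agent.W460.PG.ONE TensorProduct

namespace Pool.Agent.K1H17.IS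

section

variable {k : Type} [Field k] [CharZero k] [IsAlgClosed k]
variable {L : Type} [Field L] [Algebra k L] {M F : IntermediateField k L} {a b : ℕ}

theorem flip_flip (i : Fin (a + b)) :
    (finAddFlip (finAddFlip i : Fin (b + a)) : Fin (a + b)) = i := by
  refine Fin.addCases (fun l => ?_) (fun l => ?_) i
  · rw [finAddFlip_apply_castAdd, finAddFlip_apply_natAdd]
  · rw [finAddFlip_apply_natAdd, finAddFlip_apply_castAdd]

/-- The data which do not depend on `m` and `j`. -/
theorem exists_data (h : Dj M F) (halg : Algebra.trdeg k L = (a + b : ℕ))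
    (hM : Algebra.trdeg k M = a) (hF : Algebra.trdeg k F = b)
    (hess : Algebra.EssFiniteType k L) (S : Finset L) :
    ∃ (y : Fin a → M) (x : Fin b → F) (E : Fin (a + b) → Derivation k L L) (b0 : L)
      (S1 : Finset M) (S2 : Finset F), IsTranscendenceBasis k y ∧ IsTranscendenceBasis k x ∧
      IsTranscendenceBasis k (app y x) ∧ (∀ i j, E i (app y x j) = if i = j then 1 else 0) ∧
      b0 ≠ 0 ∧ (∀ (m j : ℕ) (ω : (Fin (a + b) → Derivation k L L) → L),
        IsSec k L (a + b) (fun _ => False) S m j ω → b0 ^ j * ω E ∈ RR M F) ∧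
      (∀ (m j : ℕ) (ω : (Fin (a + b) → Derivation k L L) → L),
        IsSec k L (a + b) (fun _ => False) S m j ω →
        ∀ (r : ℕ) (β : Fin r → F) (μ : Fin r → M), LinearIndependent k β →
          b0 ^ j * ω E = ∑ i, (β i : L) * (μ i : L) →
          ∀ i, μ i ∈ VV k (fun _ => False) S1 m j y) ∧
      (∀ (m j : ℕ) (ω : (Fin (a + b) → Derivation k L L) → L),
        IsSec k L (a + b) (fun _ => False) S m j ω →
        ∀ (r : ℕ) (μ : Fin r → M) (β : Fin r → F), LinearIndependent k μ →
          b0 ^ j * ω E = ∑ i, (μ i : L) * (β i : L) →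
          ∀ i, β i ∈ VV k (fun _ => False) S2 m j x) := by
  obtain ⟨y, hy⟩ := Pool.Agent.W636.PG.exists_basis k M a hM
  obtain ⟨x, hx⟩ := Pool.Agent.W636.PG.exists_basis k F b hF
  have hn' : Algebra.trdeg k L = (a + b : ℕ) := halg
  have htop : Algebra.IsAlgebraic ↥(M ⊔ F) L := by
    rw [h.sup]
    exact ⟨fun z => isAlgebraic_algebraMap (⟨z, trivial⟩ : (⊤ : IntermediateField k L))⟩
  have hyx : IsTranscendenceBasis k (app y x) := basis_append M F htop hn' y hy x hx
  obtain ⟨E, hE⟩ := Pool.Agent.W636.PG.exists_duals k L (a + b) (app y x) hyx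
  obtain ⟨b0, hb0, hRR⟩ := sec_RR h halg hM hF hess hy hx hE S
  obtain ⟨S1, hS1⟩ := descJ h hM hy hx hE S b0 hb0
  obtain ⟨S2, hS2⟩ := descJ h.symm hF hx hy (dual_flip hE) S b0 hb0
  refine ⟨y, x, E, b0, S1, S2, hy, hx, hyx, hE, hb0, hRR, ?_, ?_⟩
  · intro m j ω hω r β μ hβ hsum i
    exact hS1 m j ω hω r β μ hβ hsum i
  · intro m j ω hω r μ β hμ hsum i
    refine hS2 m j _ (sec_flip hω) r μ β hμ ?_ i
    rw [← hsum]
    simp only [flip_flip]

/-- **The Kuenneth formula** (an upper bound). -/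
theorem kunneth (h : Dj M F) (halg : Algebra.trdeg k L = (a + b : ℕ))
    (hM : Algebra.trdeg k M = a) (hF : Algebra.trdeg k F = b)
    (hess : Algebra.EssFiniteType k L) (S : Finset L) :
    ∃ (S1 : Finset M) (S2 : Finset F), ∀ m j n1 n2 N : ℕ,
      (∀ N, HasIndep k M a N (IsSec k M a (fun _ => False) S1 m j) → N ≤ n1) →
      (∀ N, HasIndep k F b N (IsSec k F b (fun _ => False) S2 m j) → N ≤ n2) →
      HasIndep k L (a + b) N (IsSec k L (a + b) (fun _ => False) S m j) → N ≤ n1 * n2 := by
  classical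
  obtain ⟨y, x, E, b0, S1, S2, hy, hx, hyx, hE, hb0, hRR, hD1, hD2⟩ :=
    exists_data h halg hM hF hess S
  refine ⟨S1, S2, fun m j n1 n2 N h1 h2 hN => ?_⟩
  obtain ⟨hV1, hV1r⟩ := finrank_VV (fun _ => False) S1 m j y hy n1 h1
  obtain ⟨hV2, hV2r⟩ := finrank_VV (fun _ => False) S2 m j x hx n2 h2
  set V1 := VV k (fun _ => False) S1 m j y with hV1d
  set V2 := VV k (fun _ => False) S2 m j x with hV2d
  let T : V1 ⊗[k] V2 →ₗ[k] L := TensorProduct.lift
    (((LinearMap.mul k L).comp ((M.val.toLinearMap).comp V1.subtype)).compl₂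
      ((F.val.toLinearMap).comp V2.subtype))
  have hTt : ∀ (p : V1) (q : V2), T (p ⊗ₜ q) = ((p : M) : L) * ((q : F) : L) := fun p q => rfl
  have hmem : ∀ ω : (Fin (a + b) → Derivation k L L) → L,
      IsSec k L (a + b) (fun _ => False) S m j ω → b0 ^ j * ω E ∈ LinearMap.range T := by
    intro ω hω
    obtain ⟨r, β, p, hβ, hz⟩ := Pool.Agent.W735.PG.DESCJ.expandFin (RR_comm (hRR m j ω hω))
    have hp := hD1 m j ω hω r β p hβ hz
    let e := Module.finBasis k V1
    let β' : Fin (Module.finrank k V1) → F := fun l =>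
      ∑ i, (e.repr ⟨p i, hp i⟩ l) • β i
    have hpi : ∀ i, ((p i : M) : L) = ∑ l, (e.repr ⟨p i, hp i⟩ l) • (((e l : V1) : M) : L) := by
      intro i
      have h3 := congrArg (fun z : V1 => ((z : M) : L)) (e.sum_repr ⟨p i, hp i⟩)
      change (((∑ l, e.repr ⟨p i, hp i⟩ l • e l : V1) : M) : L) = ((p i : M) : L) at h3
      rw [← h3, AddSubmonoidClass.coe_finsetSum, AddSubmonoidClass.coe_finsetSum]
      rfl
    have hz' : b0 ^ j * ω E = ∑ l, (((e l : V1) : M) : L) * ((β' l : F) : L) := by
      rw [hz]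
      have h4 : ∀ l, ((β' l : F) : L) = ∑ i, (e.repr ⟨p i, hp i⟩ l) • ((β i : F) : L) := by
        intro l
        rw [AddSubmonoidClass.coe_finsetSum]
        rfl
      simp only [h4, hpi, Finset.mul_sum]
      rw [Finset.sum_comm]
      refine Finset.sum_congr rfl fun l _ => Finset.sum_congr rfl fun i _ => ?_
      rw [mul_smul_comm, mul_smul_comm, mul_comm]
    have hq := hD2 m j ω hω _ (fun l => ((e l : V1) : M)) β'
      (e.linearIndependent.map' V1.subtype (Submodule.ker_subtype V1)) hz'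
    refine ⟨∑ l, e l ⊗ₜ (⟨β' l, hq l⟩ : V2), ?_⟩
    rw [map_sum, hz']
    exact Finset.sum_congr rfl fun l _ => hTt _ _
  obtain ⟨ω, hω, hsec⟩ := hN
  let Z : Fin N → LinearMap.range T := fun l => ⟨b0 ^ j * ω l E, hmem _ (hsec l)⟩
  have hZ : LinearIndependent k Z := by
    rw [Fintype.linearIndependent_iff] at hω ⊢
    intro g hg
    refine hω g ?_
    have h3 : ∑ l, g l • (b0 ^ j * ω l E) = 0 := by
      have h4 := congrArg (fun z : LinearMap.range T => (z : L)) hg
      change ((∑ l, g l • Z l : LinearMap.range T) : L) = 0 at h4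
      rw [AddSubmonoidClass.coe_finsetSum] at h4
      exact h4
    have h4 : b0 ^ j * ∑ l, g l • ω l E = 0 := by
      rw [Finset.mul_sum, ← h3]
      exact Finset.sum_congr rfl fun l _ => by rw [mul_smul_comm]
    have h6 : ∑ l, g l • ω l E = 0 := (mul_eq_zero.1 h4).resolve_left (pow_ne_zero _ hb0)
    funext D
    rw [Finset.sum_apply]
    simp only [Pi.smul_apply, Pi.zero_apply]
    calc ∑ l, g l • ω l D = (Matrix.of fun i j => D i (app y x j)).det ^ m *
          ∑ l, g l • ω l E := by
          rw [Finset.mul_sum]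
          refine Finset.sum_congr rfl fun l _ => ?_
          rw [eval _ hyx E (fun i j => by
            rw [hE]
            by_cases hij : i = j
            · rw [if_pos hij, if_pos hij.symm]
            · rw [if_neg hij, if_neg (fun h => hij h.symm)]) (hsec l).1 D, mul_smul_comm]
      _ = 0 := by rw [h6, mul_zero]
  have h5 := hZ.fintype_card_le_finrank
  rw [Fintype.card_fin] at h5
  have h6 := T.finrank_range_le
  rw [Module.finrank_tensorProduct] at h6
  exact h5.trans (h6.trans (Nat.mul_le_mul hV1r hV2r))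

/-- A nonzero section on the product gives one on the factor. -/
theorem sec_factor (h : Dj M F) (halg : Algebra.trdeg k L = (a + b : ℕ))
    (hM : Algebra.trdeg k M = a) (hF : Algebra.trdeg k F = b)
    (hess : Algebra.EssFiniteType k L) (S : Finset L) :
    ∃ (S1 : Finset M), ∀ (m j : ℕ) (ω : (Fin (a + b) → Derivation k L L) → L),
      IsSec k L (a + b) (fun _ => False) S m j ω → (∃ D, ω D ≠ 0) →
      ∃ η : (Fin a → Derivation k M M) → M, IsSec k M a (fun _ => False) S1 m j η ∧
        ∃ D, η D ≠ 0 := by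
  classical
  obtain ⟨y, x, E, b0, S1, S2, hy, hx, hyx, hE, hb0, hRR, hD1, hD2⟩ :=
    exists_data h halg hM hF hess S
  refine ⟨S1, fun m j ω hω hne => ?_⟩
  obtain ⟨r, β, p, hβ, hz⟩ := Pool.Agent.W735.PG.DESCJ.expandFin (RR_comm (hRR m j ω hω))
  have hp := hD1 m j ω hω r β p hβ hz
  have hne' : ω E ≠ 0 := by
    intro h0
    obtain ⟨D, hD⟩ := hne
    apply hD
    rw [eval _ hyx E (fun i j => by
            rw [hE]
            by_cases hij : i = j
            · rw [if_pos hij, if_pos hij.symm]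
            · rw [if_neg hij, if_neg (fun h => hij h.symm)]) hω.1 D, h0, mul_zero]
  obtain ⟨i, hi⟩ : ∃ i, p i ≠ 0 := by
    by_contra hcon
    push Not at hcon
    have h1 : b0 ^ j * ω E = 0 := by
      rw [hz]
      exact Finset.sum_eq_zero fun i _ => by rw [hcon i]; simp
    exact hne' ((mul_eq_zero.1 h1).resolve_left (pow_ne_zero _ hb0))
  obtain ⟨E1, hE1⟩ := Pool.Agent.W636.PG.exists_duals k M a y hy
  refine ⟨_, hp i, E1, ?_⟩
  rw [det_dual y E1 (fun i j => by
    rw [hE1]
    by_cases hij : i = j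
    · rw [if_pos hij, if_pos hij.symm]
    · rw [if_neg hij, if_neg (fun h => hij h.symm)]), one_pow, mul_one]
  exact hi

end

end Pool.Agent.K1H17.IS
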