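import Pool.Agent.K1H17.IS.De
import Pool.Agent.Y174.B7

/-! Logarithmic orders of pluricanonical forms. -/

set_option autoImplicit false
set_option linter.overlappingInstances false
set_option linter.unusedSectionVars false

universe u v

open FF IntermediateField Pool.Agent.W619.PQ Pool.Agent.W619.PL Pool.Agent.W619.TW
  Pool.Agent.W603.LV Pool.Agent.W619.Y Pool.Agent.W824.PG Pool.Agent.Y174

namespace Pool.Agent.K1H17.IS

section

variable {k : Type v} {K : Type u} [Field k] [CharZero k] [Field K] [Algebra k K]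

/-- The values of `F` on logarithmic vector fields along `u` have order at least `γ`. -/
def LogGe (n : ℕ) (u : Place k K) (F : (Fin n → Derivation k K K) → K) (γ : ℝ) : Prop :=
  ∀ D : Fin n → Derivation k K K, (∀ j, Pres u (D j)) → (∀ j z, u.Reg (D j z / z)) →
    GeR u γ (F D)

theorem LogGe.mono {n : ℕ} {u : Place k K} {F : (Fin n → Derivation k K K) → K} {γ γ' : ℝ}
    (h : LogGe n u F γ) (h' : γ' ≤ γ) : LogGe n u F γ' := fun D h1 h2 => (h D h1 h2).mono h'

theorem LogGe.mul {n : ℕ} {u : Place k K} {F F' : (Fin n → Derivation k K K) → K} {γ γ' : ℝ}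
    (h : LogGe n u F γ) (h' : LogGe n u F' γ') (N N' : ℕ) :
    LogGe n u (fun D => F D ^ N * F' D ^ N') (N * γ + N' * γ') :=
  fun D h1 h2 => ((h D h1 h2).pow N).mul ((h' D h1 h2).pow N')

/-- The logarithmic frame at a place. -/
theorem exists_logframe {n : ℕ} (hn : Algebra.trdeg k K = n) (hess : Algebra.EssFiniteType k K)
    {u : Place k K} (hu : IsDivisorial u n) :
    ∃ (y : Fin n → K) (F : Fin n → Derivation k K K) (i0 : Fin n), IsTranscendenceBasis k y ∧
      (∀ i j, F i (y j) = if i = j then 1 else 0) ∧ u.ord (y i0) = 1 ∧ y i0 ≠ 0 ∧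
      (∀ i, u.Reg (y i)) ∧ (∀ i, Pres u (F i)) ∧
      (∀ i, Pres u ((if i = i0 then y i0 else 1) • F i)) ∧
      ∀ i z, u.Reg (((if i = i0 then y i0 else 1) • F i) z / z) := by
  obtain ⟨y, F, i0, hy, hF, ht, hyr, hpres⟩ := pFRAME k K n hn
    (fun y hy => fin_adj hess y hy) u hu
  have ht0 : y i0 ≠ 0 := by
    intro h0
    rw [h0, u.ord_zero] at ht
    exact zero_ne_one ht
  have hP : ∀ i, Pres u ((if i = i0 then y i0 else 1) • F i) := by
    intro i f hf
    rw [Derivation.smul_apply, smul_eq_mul]
    refine u.reg_mul ?_ (hpres _ f hf)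
    split_ifs
    · exact hyr i0
    · exact u.reg_one
  refine ⟨y, F, i0, hy, hF, ht, ht0, hyr, hpres, hP, fun i z => ?_⟩
  refine log_of_pres u _ (hP i) ht0 ht ?_ z
  by_cases hi : i = i0
  · rw [if_pos hi, Derivation.smul_apply, smul_eq_mul, hF, if_pos hi, mul_one, div_self ht0]
    exact u.reg_one
  · rw [Derivation.smul_apply, hF, if_neg hi, if_neg hi, smul_zero, zero_div]
    exact u.reg_zero

theorem det_scale {n : ℕ} {R : Type*} [CommRing R] (A : Matrix (Fin n) (Fin n) R) (i0 : Fin n)
    (t : R) : (Matrix.of fun i j => (if i = i0 then t else 1) * A i j).det = t * A.det := by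
  have h : (Matrix.of fun i j => (if i = i0 then t else 1) * A i j) =
      A.updateRow i0 (t • A i0) := by
    ext i j
    by_cases hi : i = i0
    · subst hi
      rw [Matrix.of_apply, if_pos rfl, Matrix.updateRow_self, Pi.smul_apply, smul_eq_mul]
    · rw [Matrix.of_apply, if_neg hi, Matrix.updateRow_ne hi, one_mul]
  rw [h, Matrix.det_updateRow_smul, Matrix.updateRow_eq_self]

/-- The value of a form on the logarithmic frame. -/
theorem form_logframe {n m : ℕ} (y : Fin n → K) (hy : IsTranscendenceBasis k y)
    (F : Fin n → Derivation k K K) (hF : ∀ i j, F i (y j) = if i = j then 1 else 0) (i0 : Fin n)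
    (s : (Fin n → Derivation k K K) → K) (hs : IsPluriForm k K n m s) :
    s (fun i => (if i = i0 then y i0 else 1) • F i) = y i0 ^ m * s F := by
  rw [Pool.Agent.W636.PG.form_eq k K n m y hy F hF s hs]
  congr 2
  have h1 : (Matrix.of fun i j => ((if i = i0 then y i0 else 1) • F i) (y j)) =
      Matrix.of fun i j => (if i = i0 then y i0 else 1) * (1 : Matrix (Fin n) (Fin n) K) i j := by
    ext i j
    rw [Matrix.of_apply, Matrix.of_apply, Derivation.smul_apply, smul_eq_mul, hF,
      Matrix.one_apply]
  rw [h1, det_scale, Matrix.det_one, mul_one]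

/-- A form of weight `m` which has order at least `γ` on the logarithmic fields has order at least
`γ - m` on the regular fields. -/
theorem reg_of_log {n m : ℕ} (hn : Algebra.trdeg k K = n) (hess : Algebra.EssFiniteType k K)
    {u : Place k K} (hu : IsDivisorial u n) (s : (Fin n → Derivation k K K) → K)
    (hs : IsPluriForm k K n m s) {γ : ℝ} (h : LogGe n u s γ)
    (D : Fin n → Derivation k K K) (hD : ∀ j, Pres u (D j)) : GeR u (γ - m) (s D) := by
  obtain ⟨y, F, i0, hy, hF, ht, ht0, hyr, hpres, hP, hlog⟩ := exists_logframe hn hess hu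
  have h1 := h _ hP hlog
  rw [form_logframe y hy F hF i0 s hs] at h1
  have h2 := h1.of_mul (pow_ne_zero m ht0)
  rw [u.ord_pow, ht] at h2
  rw [Pool.Agent.W636.PG.form_eq k K n m y hy F hF s hs D]
  have h3 : Ge u 0 (Matrix.of fun i j => D i (y j)).det :=
    ge_det u _ fun i j => hD i _ (hyr j)
  refine ((Ge.toR (h3.pow m)).mul h2).mono ?_
  push_cast
  linarith

theorem logGe_of_reg {n m : ℕ} (hn : Algebra.trdeg k K = n) (hess : Algebra.EssFiniteType k K)
    {u : Place k K} (hu : IsDivisorial u n) (s : (Fin n → Derivation k K K) → K)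
    (hs : IsPluriForm k K n m s) {c : ℝ}
    (hr : ∀ D : Fin n → Derivation k K K, (∀ j, Pres u (D j)) → GeR u c (s D)) :
    LogGe n u s (m + c) :=
  fun D hD hl => ge_log hn hess hu s hs hr D hD hl

end

section

variable {k : Type v} {K L : Type u} [Field k] [CharZero k] [Field K] [Field L] [Algebra k K]
  [Algebra k L] [Algebra K L] [IsScalarTower k K L]

/-- Pull-back of a form. -/
theorem logGe_pull [FiniteDimensional K L] {n m : ℕ} (hn : Algebra.trdeg k K = n)
    (hess : Algebra.EssFiniteType k K) {v : Place k K} {w : Place k L} {e : ℕ} (hwv : Over w v e)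
    (hv : IsDivisorial v n) (y : Fin n → K) (hy : IsTranscendenceBasis k y)
    (E : Fin n → Derivation k K K) (hE : ∀ i j, E i (y j) = if i = j then 1 else 0)
    (s : (Fin n → Derivation k K K) → K) (hs : IsPluriForm k K n m s) {c : ℝ}
    (hr : ∀ D : Fin n → Derivation k K K, (∀ j, Pres v (D j)) → GeR v c (s D)) :
    LogGe n w (fun D => (Matrix.of fun a b => D a (algebraMap K L (y b))).det ^ m *
      algebraMap K L (s E)) (e * (m + c)) := by
  intro D hD hl
  obtain ⟨y', F, i0, hy', hF, ht, hyr, hpres⟩ := pFRAME k K n hn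
    (fun y hy => fin_adj hess y hy) v hv
  have ht0 : y' i0 ≠ 0 := by
    intro h0
    rw [h0, v.ord_zero] at ht
    exact zero_ne_one ht
  have ht0' : algebraMap K L (y' i0) ≠ 0 := by simpa using ht0
  change GeR w _ ((Matrix.of fun a b => D a (algebraMap K L (y b))).det ^ m *
    algebraMap K L (s E))
  rw [Pool.Agent.W73.PG.PULL.form_eq y y' hy hy' E F hE hF s hs D]
  have h1 : Ge w e (Matrix.of fun a c => D a (algebraMap K L (y' c))).det := by
    have h2 : (Matrix.of fun a c => D a (algebraMap K L (y' c))) =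
        (Matrix.of fun a c => D a (algebraMap K L (y' c))).updateCol i0
          (algebraMap K L (y' i0) • fun a =>
            (D a (algebraMap K L (y' i0)) / algebraMap K L (y' i0))) := by
      ext a c
      rw [Matrix.updateCol_apply]
      by_cases hc : c = i0
      · rw [if_pos hc, hc, Matrix.of_apply, Pi.smul_apply, smul_eq_mul,
          mul_div_cancel₀ _ ht0']
      · rw [if_neg hc]
    rw [h2, Matrix.det_updateCol_smul]
    have h3 : Ge w e (algebraMap K L (y' i0)) := Or.inr (by rw [hwv.2, ht, mul_one])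
    have h6 : Ge w 0 ((Matrix.of fun a c => D a (algebraMap K L (y' c))).updateCol i0
        fun a => (D a (algebraMap K L (y' i0)) / algebraMap K L (y' i0))).det := by
      refine ge_det w _ fun a c => ?_
      rw [Matrix.updateCol_apply]
      by_cases hc : c = i0
      · rw [if_pos hc]
        exact hl a _
      · rw [if_neg hc]
        exact hD a _ (hwv.reg.2 (hyr c))
    have h7 := h3.mul h6
    rwa [add_zero] at h7
  have h2 : GeR w (e * c) (algebraMap K L (s F)) := (hr F hpres).up hwv
  refine ((Ge.toR (h1.pow m)).mul h2).mono ?_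
  push_cast
  linarith

/-- The pull-back is a form. -/
theorem pluri_pull {n m : ℕ} (y : Fin n → K) (a : K) :
    IsPluriForm k L n m (fun D => (Matrix.of fun a b => D a (algebraMap K L (y b))).det ^ m *
      algebraMap K L a) := by
  intro A D
  have e : (Matrix.of fun a b => (∑ j, A a j • D j) (algebraMap K L (y b))) =
      A * Matrix.of fun a b => D a (algebraMap K L (y b)) := by
    ext a b
    rw [Matrix.of_apply, Matrix.mul_apply, Pool.Agent.W73.PG.PULL.sum_app]
    rfl
  show (Matrix.of fun a b => (∑ j, A a j • D j) (algebraMap K L (y b))).det ^ m * _ = _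
  rw [e, Matrix.det_mul, mul_pow, mul_assoc]

end

section

variable {k : Type v} {L : Type u} [Field k] [CharZero k] [Field L] [Algebra k L]

/-- The `m`-form `a (dy) ^ m` in the coordinates `y` can be written, along `w`, in terms of
logarithmic 1-forms with a coefficient of order at least `γ`. -/
def LG (w : Place k L) {d : ℕ} (m : ℕ) (y : Fin d → L) (a : L) (γ : ℝ) : Prop :=
  ∃ (Z : Matrix (Fin d) (Fin d) L) (φ : Fin d → Derivation k L L → L),
    (∀ D : Derivation k L L, Pres w D → (∀ z, w.Reg (D z / z)) → ∀ j, w.Reg (φ j D)) ∧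
    (∀ (D : Derivation k L L) l, D (y l) = ∑ j, Z l j * φ j D) ∧ GeR w γ (a * Z.det ^ m)

theorem lg_of_log {M : IntermediateField k L} {d n m : ℕ} (hd : Algebra.trdeg k M = d)
    (hn : Algebra.trdeg k L = n) (hess : Algebra.EssFiniteType k M) {w : Place k L}
    (hw : IsDivisorial w n) {u : Place k M} {c : ℕ} (hu : Over w u c)
    (F : (Fin d → Derivation k M M) → M) (hF : IsPluriForm k M d m F) {γ : ℝ}
    (hγ : LogGe d u F γ) (y : Fin d → M) (hy : IsTranscendenceBasis k y)
    (E : Fin d → Derivation k M M) (hE : ∀ i j, E i (y j) = if i = j then 1 else 0) :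
    LG w m (fun l => (y l : L)) ((F E : M) : L) (c * γ) := by
  have hdiv : IsDivisorial u d := pDIVR k M L d n u w c hd hn hu hw
  obtain ⟨y', E', i0, hy', hE', ht, ht0, hyr, hpres, hP, hlog⟩ := exists_logframe hd hess hdiv
  have ht0' : algebraMap M L (y' i0) ≠ 0 := by simpa using ht0
  refine ⟨Matrix.of fun l c => algebraMap M L (((if c = i0 then y' i0 else 1) • E' c) (y l)),
    fun c D => D (algebraMap M L (y' c)) / (if c = i0 then algebraMap M L (y' i0) else 1),
    ?_, ?_, ?_⟩
  · intro D hD hl j
    by_cases hj : j = i0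
    · simp only [hj, if_true]
      exact hl _
    · simp only [if_neg hj, div_one]
      exact hD _ (hu.reg.2 (hyr j))
  · intro D l
    refine (Pool.Agent.W308.PG.YLOC.expand y' E' hy' hE' D (y l)).trans ?_
    refine Finset.sum_congr rfl fun c _ => ?_
    rw [Matrix.of_apply, Derivation.smul_apply, smul_eq_mul, map_mul]
    by_cases hc : c = i0
    · subst hc
      simp only [if_true]
      field_simp
    · simp only [if_neg hc, map_one, one_mul, div_one]
  · have h1 : F (fun c => (if c = i0 then y' i0 else 1) • E' c) =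
        (Matrix.of fun c l => ((if c = i0 then y' i0 else 1) • E' c) (y l)).det ^ m * F E :=
      Pool.Agent.W636.PG.form_eq k M d m y hy E hE F hF _
    have h4 : (Matrix.of fun l c =>
        algebraMap M L (((if c = i0 then y' i0 else 1) • E' c) (y l))).det =
        algebraMap M L (Matrix.of fun c l => ((if c = i0 then y' i0 else 1) • E' c) (y l)).det := by
      rw [RingHom.map_det, ← Matrix.det_transpose]
      rfl
    have h5 : ((F E : M) : L) * (Matrix.of fun l c =>
        algebraMap M L (((if c = i0 then y' i0 else 1) • E' c) (y l))).det ^ m =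
        algebraMap M L (F (fun c => (if c = i0 then y' i0 else 1) • E' c)) := by
      rw [h4, h1, map_mul, map_pow, mul_comm]
      rfl
    rw [h5]
    exact (hγ _ hP hlog).up hu

/-- If `w` is trivial on `M`. -/
theorem lg_triv {M : IntermediateField k L} {d m : ℕ} {w : Place k L}
    (htriv : ∀ f : M, w.ord (f : L) = 0) (y : Fin d → M) (a : M) :
    LG w m (fun l => (y l : L)) (a : L) 0 := by
  refine ⟨1, fun j D => D (y j : L), ?_, ?_, ?_⟩
  · intro D hD _ j
    exact hD _ (Or.inr (htriv (y j)).ge)
  · intro D l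
    rw [Finset.sum_eq_single l]
    · rw [Matrix.one_apply_eq, one_mul]
    · intro c _ hc
      rw [Matrix.one_apply_ne (Ne.symm hc), zero_mul]
    · intro h
      exact absurd (Finset.mem_univ l) h
  · rw [Matrix.det_one, one_pow, mul_one]
    exact Or.inr (by rw [htriv a]; simp)

/-- The product of forms on the two factors. -/
theorem lg_append {d d' m : ℕ} {w : Place k L} {y : Fin d → L} {x : Fin d' → L} {a a' : L}
    {γ γ' : ℝ} (h : LG w m y a γ) (h' : LG w m x a' γ') (D : Fin (d + d') → Derivation k L L)
    (hD : ∀ j, Pres w (D j)) (hl : ∀ j z, w.Reg (D j z / z)) :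
    GeR w (γ + γ') ((Matrix.of fun i j => D i (Fin.append y x j)).det ^ m * (a * a')) := by
  obtain ⟨Z, φ, h1, h2, h3⟩ := h
  obtain ⟨Z', φ', h1', h2', h3'⟩ := h'
  let P : Matrix (Fin (d + d')) (Fin (d + d')) L := Matrix.of fun i j =>
    Fin.addCases (motive := fun _ => L) (fun l => φ l (D i)) (fun l => φ' l (D i)) j
  let A : Matrix (Fin (d + d')) (Fin (d + d')) L :=
    Matrix.reindex finSumFinEquiv finSumFinEquiv (Matrix.fromBlocks Z 0 0 Z')
  have hA11 : ∀ i j, A (Fin.castAdd d' i) (Fin.castAdd d' j) = Z i j := by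
    intro i j; simp [A]
  have hA12 : ∀ i j, A (Fin.castAdd d' i) (Fin.natAdd d j) = 0 := by
    intro i j; simp [A]
  have hA21 : ∀ i j, A (Fin.natAdd d i) (Fin.castAdd d' j) = 0 := by
    intro i j; simp [A]
  have hA22 : ∀ i j, A (Fin.natAdd d i) (Fin.natAdd d j) = Z' i j := by
    intro i j; simp [A]
  have e1 : (Matrix.of fun i j => D i (Fin.append y x j)) = P * A.transpose := by
    ext i j
    rw [Matrix.of_apply, Matrix.mul_apply]
    refine Fin.addCases (fun l => ?_) (fun l => ?_) j
    · rw [Fin.append_left, h2, Fin.sum_univ_add]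
      simp only [Matrix.transpose_apply, hA11, hA12, mul_zero, Finset.sum_const_zero, add_zero]
      refine Finset.sum_congr rfl fun c _ => ?_
      simp [P, mul_comm]
    · rw [Fin.append_right, h2', Fin.sum_univ_add]
      simp only [Matrix.transpose_apply, hA21, hA22, mul_zero, Finset.sum_const_zero, zero_add]
      refine Finset.sum_congr rfl fun c _ => ?_
      simp [P, mul_comm]
  have e2 : A.det = Z.det * Z'.det := det_blk Z Z'
  have h4 : Ge w 0 P.det := by
    refine ge_det w _ fun i j => ?_
    refine Fin.addCases (fun l => ?_) (fun l => ?_) j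
    · simp only [P, Matrix.of_apply, Fin.addCases_left]
      exact h1 _ (hD i) (hl i) l
    · simp only [P, Matrix.of_apply, Fin.addCases_right]
      exact h1' _ (hD i) (hl i) l
  rw [e1, Matrix.det_mul, Matrix.det_transpose, e2]
  have e3 : (P.det * (Z.det * Z'.det)) ^ m * (a * a') =
      (a * Z.det ^ m) * (a' * Z'.det ^ m) * P.det ^ m := by
    rw [mul_pow, mul_pow]; ring
  rw [e3]
  refine ((h3.mul h3').mul (Ge.toR (h4.pow m))).mono ?_
  push_cast
  linarith

end

end Pool.Agent.K1H17.IS
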