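import Pool.Agent.W672.PG.KOD2

/-! Two subfields `M`, `N` of `L` with `trdeg L = trdeg M + trdeg N`: transcendence bases and
algebraically independent families. -/

set_option autoImplicit false
set_option linter.overlappingInstances false
set_option linter.unusedSectionVars false

universe u v

open FF IntermediateField Pool.Agent.W619.PQ Pool.Agent.W619.PL Pool.Agent.W619.TW
  Pool.Agent.W603.LV Pool.Agent.W619.Y

namespace Pool.Agent.K1H17.IS

section

variable {k L : Type*} [Field k] [Field L] [Algebra k L]

/-- The elements of `M` are algebraic over any subfield which contains a transcendence basis. -/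
theorem alg_over {ι : Type*} (M : IntermediateField k L) (y : ι → M)
    (hy : IsTranscendenceBasis k y) (S : IntermediateField k L) (hS : ∀ i, (y i : L) ∈ S)
    (z : L) (hz : z ∈ M) : IsAlgebraic S z := by
  have h1 := hy.isAlgebraic.isAlgebraic (⟨z, hz⟩ : M)
  have hle : Algebra.adjoin k (Set.range y) ≤ S.toSubalgebra.comap M.val := by
    refine Algebra.adjoin_le ?_
    rintro _ ⟨l, rfl⟩
    exact hS l
  let f : Algebra.adjoin k (Set.range y) →+* S :=
    ((M.val : M →+* L).comp (algebraMap (Algebra.adjoin k (Set.range y)) M)).codRestrict S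
      fun y => hle y.2
  have hf : Function.Injective f := by
    intro a b hab
    apply Subtype.ext
    apply Subtype.ext
    exact congrArg (fun z : S => (z : L)) hab
  exact h1.ringHom_of_comp_eq f (M.val : M →+* L) hf (by ext y; rfl)

theorem basis_two {a b : ℕ} {ι κ : Type*} [Fintype ι] [Fintype κ] (M N : IntermediateField k L)
    (halg : Algebra.IsAlgebraic ↥(M ⊔ N) L) (hn : Algebra.trdeg k L = (a + b : ℕ))
    (hι : Fintype.card ι = a) (hκ : Fintype.card κ = b) (y : ι → M)
    (hy : IsTranscendenceBasis k y) (x : κ → N) (hx : IsTranscendenceBasis k x) :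
    IsTranscendenceBasis k (Sum.elim (fun l => (y l : L)) (fun i => (x i : L))) := by
  have h1 : Algebra.IsAlgebraic (Algebra.adjoin k
      (Set.range (Sum.elim (fun l => (y l : L)) (fun i => (x i : L))))) L := by
    refine alg_adjoin fun z => ?_
    let S : IntermediateField k L := adjoin k
      (Set.range (Sum.elim (fun l => (y l : L)) (fun i => (x i : L))))
    let A : IntermediateField S L := algebraicClosure S L
    have hA : M ⊔ N ≤ A.restrictScalars k := by
      refine sup_le (fun z hz => ?_) (fun z hz => ?_)
      · rw [mem_restrictScalars, mem_algebraicClosure_iff]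
        exact alg_over M y hy S (fun i => subset_adjoin k _ ⟨Sum.inl i, rfl⟩) z hz
      · rw [mem_restrictScalars, mem_algebraicClosure_iff]
        exact alg_over N x hx S (fun i => subset_adjoin k _ ⟨Sum.inr i, rfl⟩) z hz
    let f : ↥(M ⊔ N) →+* A := ((M ⊔ N).val : ↥(M ⊔ N) →+* L).codRestrict A
      fun y => hA y.2
    have h2 : IsAlgebraic A z := by
      have h3 := halg.isAlgebraic z
      refine h3.ringHom_of_comp_eq f (RingHom.id L) f.injective (by ext y; rfl)
    have h4 : Algebra.IsAlgebraic S A := algebraicClosure.isAlgebraic S L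
    exact IsAlgebraic.restrictScalars S h2
  refine Algebra.IsAlgebraic.isTranscendenceBasis_of_lift_le_trdeg_of_finite k _ ?_
  rw [hn]
  simp [hι, hκ]

/-- A finite transcendence basis which contains an algebraically independent family. -/
theorem extend_basis {K : Type*} [Field K] [Algebra k K] {a A : ℕ} (hK : Algebra.trdeg k K = a)
    (r : Fin A → K) (hr : AlgebraicIndependent k r) :
    ∃ (t : Set K) (_ : Fintype t), Fintype.card t = a ∧
      IsTranscendenceBasis k (fun l : t => (l : K)) ∧ Set.range r ⊆ t := by
  obtain ⟨t, ht1, ht2⟩ := exists_isTranscendenceBasis_superset (R := k) (s := Set.range r)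
    hr.to_subtype_range
  have hcard := ht2.cardinalMk_eq_trdeg
  rw [hK] at hcard
  have hfin : Finite t := by
    rw [← Cardinal.mk_lt_aleph0_iff, hcard]
    exact Cardinal.natCast_lt_aleph0
  have := Fintype.ofFinite t
  have hι : Fintype.card t = a := by
    rw [Cardinal.mk_fintype] at hcard
    exact_mod_cast hcard
  exact ⟨t, this, hι, ht2, ht1⟩

/-- Algebraically independent families in `M` and in `N` are algebraically independent
together. -/
theorem indep_two {a b A B : ℕ} (M N : IntermediateField k L)
    (halg : Algebra.IsAlgebraic ↥(M ⊔ N) L) (hn : Algebra.trdeg k L = (a + b : ℕ))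
    (hM : Algebra.trdeg k M = a) (hN : Algebra.trdeg k N = b) (r : Fin A → M)
    (hr : AlgebraicIndependent k r) (s : Fin B → N) (hs : AlgebraicIndependent k s) :
    AlgebraicIndependent k (Sum.elim (fun l => (r l : L)) (fun i => (s i : L))) := by
  classical
  obtain ⟨t, _, ht, ht2, ht1⟩ := extend_basis hM r hr
  obtain ⟨t', _, ht', ht2', ht1'⟩ := extend_basis hN s hs
  have h1 := basis_two M N halg hn ht ht' (fun l : t => (l : M)) ht2 (fun l : t' => (l : N)) ht2'
  have h2 := h1.1.comp (Sum.map (fun l : Fin A => (⟨r l, ht1 ⟨l, rfl⟩⟩ : t))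
    (fun l : Fin B => (⟨s l, ht1' ⟨l, rfl⟩⟩ : t'))) (by
      refine Sum.map_injective.2 ⟨?_, ?_⟩
      · intro a b hab
        exact hr.injective (congrArg (fun z : t => (z : M)) hab)
      · intro a b hab
        exact hs.injective (congrArg (fun z : t' => (z : N)) hab))
  have e : Sum.elim (fun l => (r l : L)) (fun i => (s i : L)) =
      Sum.elim (fun l : t => ((l : M) : L)) (fun i : t' => ((i : N) : L)) ∘
        (Sum.map (fun l : Fin A => (⟨r l, ht1 ⟨l, rfl⟩⟩ : t))
          (fun l : Fin B => (⟨s l, ht1' ⟨l, rfl⟩⟩ : t'))) := by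
    funext z
    rcases z with z | z <;> rfl
  rw [e]
  exact h2

theorem basis_append {a b : ℕ} (M N : IntermediateField k L)
    (halg : Algebra.IsAlgebraic ↥(M ⊔ N) L) (hn : Algebra.trdeg k L = (a + b : ℕ))
    (y : Fin a → M) (hy : IsTranscendenceBasis k y) (x : Fin b → N)
    (hx : IsTranscendenceBasis k x) :
    IsTranscendenceBasis k (Fin.append (fun l => (y l : L)) (fun i => (x i : L)) :
      Fin (a + b) → L) := by
  have h := basis_two M N halg hn (Fintype.card_fin a) (Fintype.card_fin b) y hy x hx
  refine (isTranscendenceBasis_equiv' finSumFinEquiv ?_).1 h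
  funext z
  rcases z with z | z <;> simp

theorem indep_append {a b A B : ℕ} (M N : IntermediateField k L)
    (halg : Algebra.IsAlgebraic ↥(M ⊔ N) L) (hn : Algebra.trdeg k L = (a + b : ℕ))
    (hM : Algebra.trdeg k M = a) (hN : Algebra.trdeg k N = b) (r : Fin A → M)
    (hr : AlgebraicIndependent k r) (s : Fin B → N) (hs : AlgebraicIndependent k s) :
    AlgebraicIndependent k (Fin.append (fun l => (r l : L)) (fun i => (s i : L)) :
      Fin (A + B) → L) := by
  have h := indep_two M N halg hn hM hN r hr s hs
  have h2 := h.comp finSumFinEquiv.symm finSumFinEquiv.symm.injective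
  have e : (Fin.append (fun l => (r l : L)) (fun i => (s i : L)) : Fin (A + B) → L) =
      Sum.elim (fun l => (r l : L)) (fun i => (s i : L)) ∘ finSumFinEquiv.symm := by
    funext z
    refine Fin.addCases (fun z => ?_) (fun z => ?_) z <;> simp
  rw [e]
  exact h2

/-- Powers of algebraically independent elements. -/
theorem indep_pow {K : Type*} [Field K] [Algebra k K] {ι : Type*} (f : ι → K)
    (hf : AlgebraicIndependent k f) (r : ℕ) (hr : 1 ≤ r) :
    AlgebraicIndependent k (fun i => f i ^ r) := by
  have h := hf.polynomial_aeval_of_transcendental (f := fun _ => (Polynomial.X ^ r : Polynomial k))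
    (fun _ => ?_)
  · simpa using h
  · intro halg
    obtain ⟨p, hp, hp2⟩ := halg
    have h1 : p.comp (Polynomial.X ^ r) = 0 := by
      rw [Polynomial.comp_eq_aeval]
      exact hp2
    rw [Polynomial.comp_eq_zero_iff] at h1
    rcases h1 with h1 | ⟨-, h1⟩
    · exact hp h1
    · have h2 := congrArg Polynomial.natDegree h1
      rw [Polynomial.natDegree_X_pow, Polynomial.natDegree_C] at h2
      omega

end

end Pool.Agent.K1H17.IS
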