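import Pool.Agent.K1H17.IS.Fi
import Pool.Agent.K1H17.IS.Km

/-! Numerical dimension of products of several varieties. -/

set_option autoImplicit false
set_option linter.overlappingInstances false
set_option linter.unusedSectionVars false
set_option linter.unusedVariables false

open FF IntermediateField Pool.Agent.W619.PQ Pool.Agent.W619.PL Pool.Agent.W619.TW
  Pool.Agent.W603.LV Pool.Agent.W619.Y

namespace Pool.Agent.K1H17.IS

section

variable {k : Type} [Field k]

theorem alg_iSup {L : Type} [Field L] [Algebra k L] {r : ℕ} {ι : Fin r → Type}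
    (M : Fin r → IntermediateField k L) (hsup : (⨆ i, M i) = ⊤) (y : ∀ i, ι i → M i)
    (hy : ∀ i, IsTranscendenceBasis k (y i)) :
    Algebra.IsAlgebraic (Algebra.adjoin k (Set.range (fun p : Σ i, ι i => (y p.1 p.2 : L)))) L := by
  refine alg_adjoin fun z => ?_
  let S : IntermediateField k L := adjoin k (Set.range (fun p : Σ i, ι i => (y p.1 p.2 : L)))
  have hA : (⨆ i, M i) ≤ (algebraicClosure S L).restrictScalars k := by
    refine iSup_le fun i z hz => ?_
    rw [mem_restrictScalars, mem_algebraicClosure_iff]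
    exact alg_over (M i) (y i) (hy i) S (fun j => subset_adjoin k _ ⟨⟨i, j⟩, rfl⟩) z hz
  rw [hsup] at hA
  have h2 := hA (show z ∈ (⊤ : IntermediateField k L) from trivial)
  rwa [mem_restrictScalars, mem_algebraicClosure_iff] at h2

theorem trdeg_le_iSup {L : Type} [Field L] [Algebra k L] {r : ℕ} {a : Fin r → ℕ}
    (M : Fin r → IntermediateField k L) (hM : ∀ i, Algebra.trdeg k (M i) = a i)
    (hsup : (⨆ i, M i) = ⊤) : Algebra.trdeg k L ≤ (∑ i, a i : ℕ) := by
  choose y hy using fun i => Pool.Agent.W636.PG.exists_basis k (M i) (a i) (hM i)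
  have h4 := alg_iSup (ι := fun i => Fin (a i)) M hsup y hy
  have h5 := Algebra.IsAlgebraic.trdeg_le_cardinalMk k
    (Set.range (fun p : Σ i, Fin (a i) => (y p.1 p.2 : L)))
  refine h5.trans (Cardinal.mk_range_le.trans (le_of_eq ?_))
  rw [Cardinal.mk_fintype, Fintype.card_sigma]
  simp only [Fintype.card_fin]

theorem psef_cast {K : Type} [Field K] [Algebra k K] {n m : ℕ} (h : n = m)
    (h1 : IsPsef k K n (fun _ => False)) : IsPsef k K m (fun _ => False) := h ▸ h1

variable [CharZero k] [IsAlgClosed k]

/-- The numerical dimension of a point. -/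
theorem numLe_point {L : Type} [Field L] [Algebra k L] (h : (⊥ : IntermediateField k L) = ⊤) (A : ℕ) :
    NumLe k L 0 (fun _ => False) A := by
  intro S
  refine ⟨1, fun m N hm hN => ?_⟩
  obtain ⟨ω, hω, -⟩ := hN
  have hsurj : ∀ z : L, ∃ c : k, algebraMap k L c = z := by
    intro z
    have h1 : z ∈ (⊤ : IntermediateField k L) := trivial
    rw [← h] at h1
    exact IntermediateField.mem_bot.1 h1
  have hfin : Module.Finite k L := Module.Finite.of_surjective (Algebra.linearMap k L) hsurj
  have hrank : Module.finrank k L ≤ 1 := by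
    refine finrank_le_one (1 : L) fun z => ?_
    obtain ⟨c, hc⟩ := hsurj z
    exact ⟨c, by rw [Algebra.smul_def, mul_one, hc]⟩
  have hinj : Function.Injective
      (LinearMap.proj default : ((Fin 0 → Derivation k L L) → L) →ₗ[k] L) := by
    intro f g hfg
    funext D
    rw [Subsingleton.elim D default]
    exact hfg
  have h1 := hω.map' _ (LinearMap.ker_eq_bot.2 hinj)
  have h2 := h1.fintype_card_le_finrank
  rw [Fintype.card_fin] at h2
  calc N ≤ 1 := h2.trans hrank
    _ ≤ 1 * m ^ A := by
      rw [one_mul]
      exact Nat.one_le_pow _ _ hm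

/-- Pseudo-effectivity and numerical dimension of products of several varieties. -/
theorem many (r : ℕ) : ∀ (L : Type) [Field L] [Algebra k L] (M : Fin r → IntermediateField k L)
    (a : Fin r → ℕ), (∀ i, Algebra.EssFiniteType k (M i)) → (∀ i, Algebra.trdeg k (M i) = a i) →
    Algebra.trdeg k L = (∑ i, a i : ℕ) → (⨆ i, M i) = ⊤ →
    (IsPsef k L (∑ i, a i) (fun _ => False) → ∀ i, IsPsef k (M i) (a i) (fun _ => False)) ∧
    (∀ i, NumNeg k (M i) (a i) (fun _ => False) → NumNeg k L (∑ i, a i) (fun _ => False)) ∧
    ∀ A : Fin r → ℕ, (∀ i, NumLe k (M i) (a i) (fun _ => False) (A i)) →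
      NumLe k L (∑ i, a i) (fun _ => False) (∑ i, A i) := by
  induction r with
  | zero =>
    intro L _ _ M a hess hM hL hsup
    refine ⟨fun _ i => i.elim0, fun i => i.elim0, fun A _ => ?_⟩
    have h1 : NumLe k L 0 (fun _ => False) 0 := by
      refine numLe_point ?_ 0
      rw [← hsup, iSup_of_empty]
    exact h1
  | succ r ih =>
    intro L _ _ M a hess hM hL hsup
    let N : IntermediateField k L := ⨆ i : Fin r, M i.castSucc
    have hMN : ∀ i : Fin r, M i.castSucc ≤ N := fun i =>
      le_iSup (fun i : Fin r => M i.castSucc) i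
    let M0 : Fin r → IntermediateField k N := fun i => restrict (hMN i)
    have hess0 : ∀ i, Algebra.EssFiniteType k (M0 i) := fun i =>
      (Algebra.EssFiniteType.iff_of_algEquiv (restrictAlgEquiv (hMN i))).1 (hess _)
    have hM0 : ∀ i, Algebra.trdeg k (M0 i) = a i.castSucc := fun i => by
      rw [← hM]; exact (restrictAlgEquiv (hMN i)).symm.trdeg_eq
    have hsup0 : (⨆ i, M0 i) = ⊤ := by
      apply lift_injective N
      rw [lift_top]
      rw [lift, IntermediateField.map_iSup]
      exact iSup_congr fun i => lift_restrict (hMN i)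
    have hN1 : Algebra.trdeg k N ≤ (∑ i : Fin r, a i.castSucc : ℕ) := trdeg_le_iSup M0 hM0 hsup0
    have hsupN : N ⊔ M (Fin.last r) = ⊤ := by
      rw [eq_top_iff, ← hsup]
      refine iSup_le fun i => ?_
      refine Fin.lastCases ?_ (fun j => ?_) i
      · exact le_sup_right
      · exact (hMN j).trans le_sup_left
    obtain ⟨c, hc⟩ : ∃ c : ℕ, Algebra.trdeg k N = c :=
      Cardinal.lt_aleph0.1 (hN1.trans_lt (Cardinal.natCast_lt_aleph0))
    have hL1 : Algebra.trdeg k L ≤ (c + a (Fin.last r) : ℕ) := by
      have h1 := trdeg_le_iSup (a := ![c, a (Fin.last r)]) ![N, M (Fin.last r)] (fun i => by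
        fin_cases i
        · exact hc
        · exact hM _) (by
        rw [← hsupN]
        apply le_antisymm
        · refine iSup_le fun i => ?_
          fin_cases i
          · exact le_sup_left
          · exact le_sup_right
        · exact sup_le (le_iSup (fun i => ![N, M (Fin.last r)] i) 0)
            (le_iSup (fun i => ![N, M (Fin.last r)] i) 1))
      simpa using h1
    have hcN : c = ∑ i : Fin r, a i.castSucc := by
      rw [hL, Fin.sum_univ_castSucc] at hL1
      rw [hc] at hN1
      have h5 : ∑ i : Fin r, a i.castSucc + a (Fin.last r) ≤ c + a (Fin.last r) := by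
        exact_mod_cast hL1
      have h6 : c ≤ ∑ i : Fin r, a i.castSucc := by exact_mod_cast hN1
      omega
    rw [hcN] at hc
    have hessN : Algebra.EssFiniteType k N :=
      essFiniteType_iff.2 (fg_iSup fun j : Fin r => essFiniteType_iff.1 (hess j.castSucc))
    have hessL : Algebra.EssFiniteType k L := by
      have h1 : Algebra.EssFiniteType k ↥(N ⊔ M (Fin.last r)) :=
        essFiniteType_iff.2 (fg_sup (essFiniteType_iff.1 hessN)
          (essFiniteType_iff.1 (hess (Fin.last r))))
      rw [hsupN] at h1
      exact (Algebra.EssFiniteType.iff_of_algEquiv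
        (IntermediateField.topEquiv (F := k) (E := L))).1 h1
    have hLs : Algebra.trdeg k L = (∑ i : Fin r, a i.castSucc + a (Fin.last r) : ℕ) := by
      rw [hL, Fin.sum_univ_castSucc]
    have hLs' : Algebra.trdeg k L = (a (Fin.last r) + ∑ i : Fin r, a i.castSucc : ℕ) := by
      rw [hLs, add_comm]
    have hsupN' : M (Fin.last r) ⊔ N = ⊤ := by rw [sup_comm]; exact hsupN
    obtain ⟨q1, q2, q3⟩ := ih N M0 (fun i => a i.castSucc) hess0 hM0 hc hsup0
    have tr := fun i : Fin r => Pool.Agent.W824.PG.transport pTRANS (restrictAlgEquiv (hMN i))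
      (hess i.castSucc) (hM i.castSucc)
    rw [Fin.sum_univ_castSucc]
    refine ⟨fun h i => ?_, fun i h => ?_, fun A h => ?_⟩
    · refine Fin.lastCases ?_ (fun j => ?_) i
      · refine psef_factor hsupN' hLs' (hM _) hc hessL ?_
        rw [add_comm]
        exact h
      · exact (tr j).1.2 (q1 (psef_factor hsupN hLs hc (hM _) hessL h) j)
    · revert h
      refine Fin.lastCases ?_ (fun j => ?_) i
      · intro h
        rw [add_comm]
        exact numNeg_prod hsupN' hLs' (hM _) hc hessL h
      · intro h
        exact numNeg_prod hsupN hLs hc (hM _) hessL (q2 j ((tr j).2.1.1 h))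
    · rw [Fin.sum_univ_castSucc]
      exact numLe_prod hsupN hLs hc (hM _) hessL
        (q3 (fun i => A i.castSucc) fun i => ((tr i).2.2 _).1 (h _)) (h _)

end

end Pool.Agent.K1H17.IS
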