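import Pool.Agent.K1H17.IS.Kd

/-! The quotient of a factor: the field `M ⊓ fixedField G`, restriction of places. -/

set_option autoImplicit false
set_option linter.overlappingInstances false
set_option linter.unusedSectionVars false
set_option linter.unusedVariables false
set_option linter.style.haveILetI false

open FF IntermediateField Pool.Agent.W619.PQ Pool.Agent.W619.PL Pool.Agent.W619.TW
  Pool.Agent.W603.LV Pool.Agent.W619.Y Pool.Agent.W672.PG Pool.Agent.W824.PG Pool.Agent.Y174

namespace Pool.Agent.K1H17.IS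

section

theorem fin_of_ess {B K : Type*} [Field B] [Field K] [Algebra B K] [Algebra.IsAlgebraic B K]
    (hess' : Algebra.EssFiniteType B K) : FiniteDimensional B K := by
  obtain ⟨s, hs⟩ := IntermediateField.fg_top B K
  have h1 : FiniteDimensional B (IntermediateField.adjoin B (s : Set K)) :=
    IntermediateField.finiteDimensional_adjoin fun x _ => Algebra.IsIntegral.isIntegral x
  rw [hs] at h1
  exact h1.equiv IntermediateField.topEquiv.toLinearEquiv

theorem trdeg_of_alg {k B K : Type} [Field k] [Field B] [Field K] [Algebra k B] [Algebra k K]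
    [Algebra B K] [IsScalarTower k B K] [Algebra.IsAlgebraic B K] :
    Algebra.trdeg k B = Algebra.trdeg k K := by
  have h5 := _root_.trdeg_add_eq k B (A := K)
  rw [(_root_.trdeg_eq_zero_iff (R := B) (A := K)).2 inferInstance, add_zero] at h5
  exact h5

variable {k : Type} {L : Type} [Field k] [CharZero k] [Field L] [Algebra k L]

/-- The algebra structure of `M` over the function field of the quotient. -/
noncomputable abbrev qalg (M : IntermediateField k L) (G : Subgroup (L ≃ₐ[k] L)) :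
    Algebra ↥(M ⊓ fixedField G) ↥M := (inclusion (inf_le_left : M ⊓ fixedField G ≤ M)).toRingHom.toAlgebra

theorem qtower (M : IntermediateField k L) (G : Subgroup (L ≃ₐ[k] L)) :
    letI := qalg M G
    IsScalarTower k ↥(M ⊓ fixedField G) ↥M := by
  letI := qalg M G
  exact IsScalarTower.of_algebraMap_eq fun c => rfl

theorem qtower' (M : IntermediateField k L) (G : Subgroup (L ≃ₐ[k] L)) :
    letI := qalg M G
    IsScalarTower ↥(M ⊓ fixedField G) ↥M L := by
  letI := qalg M G
  exact IsScalarTower.of_algebraMap_eq fun c => rfl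

open Polynomial in
theorem coeff_mem (M : IntermediateField k L) (G : Subgroup (L ≃ₐ[k] L)) [Finite G]
    (hGM : ∀ g ∈ G, ∀ z ∈ M, g z ∈ M) (z : L) (hz : z ∈ M) :
    letI := Fintype.ofFinite G
    (∏ g : G, (X - C ((g : L ≃ₐ[k] L) z)) : L[X]) ∈
      Polynomial.lifts (algebraMap ↥(M ⊓ fixedField G) L) := by
  letI := Fintype.ofFinite G
  rw [Polynomial.lifts_iff_coeff_lifts]
  intro n
  have h1 : (∏ g : G, (X - C ((g : L ≃ₐ[k] L) z)) : L[X]) ∈ Polynomial.lifts (algebraMap M L) := by
    refine prod_mem fun g _ => ?_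
    rw [Polynomial.lifts_iff_coeff_lifts]
    intro m
    rw [coeff_sub]
    refine ⟨(X - C (⟨(g : L ≃ₐ[k] L) z, hGM g g.2 z hz⟩ : M)).coeff m, ?_⟩
    rw [← coeff_map, Polynomial.map_sub, map_X, map_C, coeff_sub]
    rfl
  obtain ⟨c, hc⟩ := (Polynomial.lifts_iff_coeff_lifts _).1 h1 n
  refine ⟨⟨c, ⟨c.2, fun g => ?_⟩⟩, hc⟩
  have hc' : (c : L) = (∏ g : G, (X - C ((g : L ≃ₐ[k] L) z)) : L[X]).coeff n := hc
  have h2 : (∏ g : G, (X - C ((g : L ≃ₐ[k] L) z)) : L[X]).map
      ((g : L ≃ₐ[k] L) : L →+* L) = ∏ g : G, (X - C ((g : L ≃ₐ[k] L) z)) := by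
    rw [Polynomial.map_prod]
    refine Fintype.prod_equiv (Equiv.mulLeft g) _ _ fun h => ?_
    rw [Polynomial.map_sub, map_X, map_C]
    rfl
  change (g : L ≃ₐ[k] L) (c : L) = (c : L)
  rw [hc']
  conv_rhs => rw [← h2]
  rw [coeff_map]
  rfl

theorem qintegral (M : IntermediateField k L) (G : Subgroup (L ≃ₐ[k] L)) [Finite G]
    (hGM : ∀ g ∈ G, ∀ z ∈ M, g z ∈ M) (z : M) :
    letI := qalg M G
    IsIntegral ↥(M ⊓ fixedField G) z := by
  letI := qalg M G
  haveI := qtower' M G
  letI := Fintype.ofFinite G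
  have h := coeff_mem M G hGM z z.2
  have hmon : (∏ g : G, (Polynomial.X - Polynomial.C ((g : L ≃ₐ[k] L) z)) : Polynomial L).Monic :=
    Polynomial.monic_prod_of_monic _ _ fun g _ => Polynomial.monic_X_sub_C _
  obtain ⟨q, hq, -, hq2⟩ := Polynomial.lifts_and_degree_eq_and_monic h hmon
  have h1 : IsIntegral ↥(M ⊓ fixedField G) (z : L) := by
    refine ⟨q, hq2, ?_⟩
    rw [← Polynomial.eval_map, hq, Polynomial.eval_prod]
    refine Finset.prod_eq_zero (Finset.mem_univ (1 : G)) ?_
    rw [Polynomial.eval_sub, Polynomial.eval_X, Polynomial.eval_C]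
    simp
  exact (isIntegral_algHom_iff (IsScalarTower.toAlgHom ↥(M ⊓ fixedField G) M L)
    (algebraMap M L).injective).1 h1

theorem qalgebraic (M : IntermediateField k L) (G : Subgroup (L ≃ₐ[k] L)) [Finite G]
    (hGM : ∀ g ∈ G, ∀ z ∈ M, g z ∈ M) :
    letI := qalg M G
    Algebra.IsAlgebraic ↥(M ⊓ fixedField G) M := by
  letI := qalg M G
  exact ⟨fun z => (qintegral M G hGM z).isAlgebraic⟩

theorem qtrdeg (M : IntermediateField k L) (G : Subgroup (L ≃ₐ[k] L)) [Finite G]
    (hGM : ∀ g ∈ G, ∀ z ∈ M, g z ∈ M) {a : ℕ} (hM : Algebra.trdeg k M = a) :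
    Algebra.trdeg k ↥(M ⊓ fixedField G) = a := by
  letI := qalg M G
  haveI := qtower M G
  haveI := qalgebraic M G hGM
  rw [← hM]
  exact trdeg_of_alg

theorem qfinite (M : IntermediateField k L) (G : Subgroup (L ≃ₐ[k] L)) [Finite G]
    (hGM : ∀ g ∈ G, ∀ z ∈ M, g z ∈ M) (hess : Algebra.EssFiniteType k M) :
    letI := qalg M G
    FiniteDimensional ↥(M ⊓ fixedField G) M := by
  letI := qalg M G
  haveI := qtower M G
  haveI := qalgebraic M G hGM
  exact fin_of_ess (Algebra.EssFiniteType.of_comp k _ M)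

theorem qess (M : IntermediateField k L) (G : Subgroup (L ≃ₐ[k] L)) [Finite G]
    (hGM : ∀ g ∈ G, ∀ z ∈ M, g z ∈ M) (hess : Algebra.EssFiniteType k M) {a : ℕ}
    (y : Fin a → ↥(M ⊓ fixedField G)) (hy : IsTranscendenceBasis k y) :
    Algebra.EssFiniteType k ↥(M ⊓ fixedField G) := by
  letI := qalg M G
  haveI := qtower M G
  haveI := qfinite M G hGM hess
  exact ess_down (K := ↥(M ⊓ fixedField G)) (L := M) hess y hy

/-- A place with nontrivial inertia is not trivial on a factor on which the group is faithful. -/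
theorem nontriv (M : IntermediateField k L) (G : Subgroup (L ≃ₐ[k] L))
    (hGM : ∀ g ∈ G, ∀ z ∈ M, g z ∈ M)
    (hf : ∀ g ∈ G, (∀ z ∈ M, g z = z) → g = 1) {w : Place k L} {h : L ≃ₐ[k] L} (hh : h ∈ G)
    (h1 : h ≠ 1) (hI : Inert w h) : ∃ f : M, w.ord (algebraMap M L f) ≠ 0 := by
  by_contra hcon
  push Not at hcon
  apply h1
  apply hf h hh
  intro z hz
  have h2 := hI z (Or.inr (hcon ⟨z, hz⟩).ge)
  rcases h2 with h2 | h2
  · exact sub_eq_zero.1 h2
  · have h3 := hcon ⟨h z - z, sub_mem (hGM h hh z hz) hz⟩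
    change w.ord (h z - z) = 0 at h3
    omega

/-- The ramification index of the quotient divides that of the factor. -/
theorem index_le (M : IntermediateField k L) (G : Subgroup (L ≃ₐ[k] L))
    {v : Place k (fixedField G)} {w : Place k L} {e : ℕ} (hwv : Over w v e) {u : Place k M} {c : ℕ}
    (hu : Over w u c) {q : Place k ↥(M ⊓ fixedField G)} {e1 : ℕ}
    (hq : letI := qalg M G; Over u q e1) : e ≤ c * e1 := by
  letI := qalg M G
  obtain ⟨t, ht0, ht⟩ := q.surj
  have h1 := hq.2 t
  have h2 := hu.2 (algebraMap ↥(M ⊓ fixedField G) M t)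
  have h3 := hwv.2 (inclusion (inf_le_right : M ⊓ fixedField G ≤ fixedField G) t)
  have h4 : algebraMap M L (algebraMap ↥(M ⊓ fixedField G) M t) =
      algebraMap (fixedField G) L
        (inclusion (inf_le_right : M ⊓ fixedField G ≤ fixedField G) t) := rfl
  rw [h4, h3, h1, ht, mul_one] at h2
  have h5 : (e : ℤ) ∣ ((c * e1 : ℕ) : ℤ) := by
    push_cast
    exact ⟨_, h2.symm⟩
  have h6 : e ∣ c * e1 := by exact_mod_cast h5
  exact Nat.le_of_dvd (Nat.mul_pos hu.1 hq.1) h6

end

end Pool.Agent.K1H17.IS
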