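import Pool.Agent.K1H17.IS.Tr
import Pool.Agent.TH122.AB.Der

/-! Elements of `L` without horizontal poles belong to the ring generated by `M` and `F`. -/

set_option autoImplicit false
set_option linter.overlappingInstances false
set_option linter.unusedSectionVars false
set_option linter.unusedVariables false

open FF IntermediateField Pool.Agent.W619.PQ Pool.Agent.W619.PL Pool.Agent.W619.TW
  Pool.Agent.W603.LV IsDedekindDomain MvPolynomial Pool.Agent.TH122.AB

namespace Pool.Agent.K1H17.IS

section

variable {k : Type} [Field k] [CharZero k]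

/-- Elements which are integral over a field on which the place is trivial. -/
theorem ord_zero_of_int {κ K : Type} [Field κ] [Field K] [Algebra k K] [Algebra κ K]
    (v : Place k K) (h : ∀ a : κ, v.ord (algebraMap κ K a) = 0) (f : K) (hf : IsIntegral κ f) :
    v.ord f = 0 := by
  by_cases hf0 : f = 0
  · rw [hf0, v.ord_zero]
  have hr : ∀ a : κ, v.Reg (algebraMap κ K a) := fun a => Or.inr (h a).ge
  have h1 : v.Reg f := v.reg_of_isIntegral (A := κ) hr hf
  have h2 : v.Reg f⁻¹ := v.reg_of_isIntegral (A := κ) hr hf.isAlgebraic.inv.isIntegral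
  rw [v.reg_iff hf0] at h1
  rw [v.reg_iff (inv_ne_zero hf0), v.ord_inv] at h2
  omega

/-- A polynomial over `M` all of whose irreducible factors divide nonzero polynomials over `k` divides
a nonzero polynomial over `k`. -/
theorem dvd_map {M : Type} [Field M] [Algebra k M] {b : ℕ} (Q : MvPolynomial (Fin b) M)
    (hQ : Q ≠ 0)
    (h : ∀ p, Irreducible p → p ∣ Q → ∃ g : MvPolynomial (Fin b) k, g ≠ 0 ∧
      p ∣ MvPolynomial.map (algebraMap k M) g) :
    ∃ g : MvPolynomial (Fin b) k, g ≠ 0 ∧ Q ∣ MvPolynomial.map (algebraMap k M) g := by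
  revert h
  induction Q using WfDvdMonoid.induction_on_irreducible with
  | zero => exact absurd rfl hQ
  | unit u hu => exact fun _ => ⟨1, one_ne_zero, hu.dvd⟩
  | mul a i ha hi ih =>
    intro h
    obtain ⟨g, hg, hag⟩ := ih ha fun p hp hpa => h p hp (hpa.mul_left i)
    obtain ⟨g', hg', hig⟩ := h i hi (dvd_mul_right i a)
    refine ⟨g' * g, mul_ne_zero hg' hg, ?_⟩
    rw [map_mul]
    exact mul_dvd_mul hig hag

variable {L : Type} [Field L] [Algebra k L] {M F : IntermediateField k L} {a b : ℕ}

/-- Derivations which map `M` to `M` and `F` to `F` stabilize the ring generated by them. -/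
theorem der_RR (D : Derivation k L L) (hM : ∀ z ∈ M, D z ∈ M) (hF : ∀ z ∈ F, D z ∈ F) {z : L}
    (hz : z ∈ RR M F) : D z ∈ RR M F := by
  have h := RR.mem_span hz
  clear hz
  induction h using Submodule.closure_induction with
  | zero => rw [map_zero]; exact zero_mem _
  | add x y _ _ hx hy => rw [map_add]; exact add_mem hx hy
  | smul_mem r x h =>
    rw [Algebra.smul_def]
    change D ((r : L) * x) ∈ _
    rw [D.leibniz, smul_eq_mul, smul_eq_mul]
    exact add_mem (mul_mem (RR.right r.2) (RR.left (hM x h)))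
      (mul_mem (RR.left h) (RR.right (hF r r.2)))

/-- Elements of the ring are regular at places which are trivial on `M` and `F`. -/
theorem reg_RR (w : Place k L) (hM : ∀ z : M, w.ord (z : L) = 0) (hF : ∀ z : F, w.ord (z : L) = 0)
    {z : L} (hz : z ∈ RR M F) : Ge w 0 z := by
  have h := RR.mem_span hz
  clear hz
  induction h using Submodule.closure_induction with
  | zero => exact Ge.zero
  | add x y _ _ hx hy => exact hx.add hy
  | smul_mem r x h =>
    rw [Algebra.smul_def]
    change Ge w 0 ((r : L) * x)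
    have h1 : Ge w 0 (r : L) := Or.inr (hF r).ge
    have h2 : Ge w 0 x := Or.inr (hM ⟨x, h⟩).ge
    simpa using h1.mul h2

variable {K₀ : Type} [Field K₀] [Algebra k K₀] [Algebra M K₀] [Algebra K₀ L]
  [IsScalarTower k M K₀] [IsScalarTower M K₀ L] [IsScalarTower k K₀ L]
  {X : Fin b → K₀} {x : Fin b → F}

theorem aeval_mem_RR (hXx : ∀ i, algebraMap K₀ L (X i) = (x i : L)) (P : MvPolynomial (Fin b) M) :
    algebraMap K₀ L (aeval X P) ∈ RR M F := by
  induction P using MvPolynomial.induction_on with
  | C c =>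
    rw [aeval_C, ← IsScalarTower.algebraMap_apply]
    exact RR.left c.2
  | add p q hp hq => rw [map_add, map_add]; exact add_mem hp hq
  | mul_X p i hp =>
    rw [map_mul, map_mul, aeval_X, hXx]
    exact mul_mem hp (RR.right (x i).2)

theorem aeval_map_coe (hXx : ∀ i, algebraMap K₀ L (X i) = (x i : L)) (g : MvPolynomial (Fin b) k) :
    algebraMap K₀ L (aeval X (MvPolynomial.map (algebraMap k M) g)) = ((aeval x g : F) : L) := by
  rw [aeval_map_algebraMap]
  have h1 : algebraMap K₀ L (aeval X g) = aeval (fun i => algebraMap K₀ L (X i)) g :=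
    (MvPolynomial.aeval_algebraMap_apply L X g).symm
  have h2 : ((aeval x g : F) : L) = aeval (fun i => (x i : L)) g :=
    (MvPolynomial.aeval_algebraMap_apply L x g).symm
  rw [h1, h2]
  congr 1
  congr 1
  funext i
  exact hXx i

/-- The place `v` is the one of the irreducible polynomial `p`, which does not divide nonzero
polynomials over `k`. -/
structure GoodP (X : Fin b → K₀) (p : MvPolynomial (Fin b) M) (v : Place k K₀) : Prop where
  irr : Irreducible p
  nd : ∀ g : MvPolynomial (Fin b) k, g ≠ 0 → ¬ p ∣ MvPolynomial.map (algebraMap k M) g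
  ord : ∀ P : MvPolynomial (Fin b) M, P ≠ 0 → 0 ≤ v.ord (aeval X P) ∧
    (v.ord (aeval X P) = 0 ↔ ¬ p ∣ P)

variable {p : MvPolynomial (Fin b) M} {v : Place k K₀}

theorem GoodP.map0 (h : GoodP X p v) (g : MvPolynomial (Fin b) k) :
    v.ord (aeval X (MvPolynomial.map (algebraMap k M) g)) = 0 := by
  by_cases hg : g = 0
  · rw [hg, map_zero, map_zero, v.ord_zero]
  · have hg' : MvPolynomial.map (algebraMap k M) g ≠ 0 := by
      intro h0
      exact hg (MvPolynomial.map_injective _ (algebraMap k M).injective (h0.trans (map_zero _).symm))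
    exact (h.ord _ hg').2.2 (h.nd g hg)

theorem GoodP.M0 (h : GoodP X p v) (c : M) : v.ord (algebraMap M K₀ c) = 0 := by
  by_cases hc : c = 0
  · rw [hc, map_zero, v.ord_zero]
  have h1 : aeval X (C c : MvPolynomial (Fin b) M) = algebraMap M K₀ c := aeval_C _ _
  have hC : (C c : MvPolynomial (Fin b) M) ≠ 0 := by simpa using hc
  rw [← h1]
  refine (h.ord _ hC).2.2 fun hdvd => h.irr.not_isUnit ?_
  exact isUnit_of_dvd_unit hdvd ((isUnit_iff_ne_zero.2 hc).map C)

theorem GoodP.over_M (h : GoodP X p v) {w : Place k L} {c : ℕ} (hw : Over w v c) (z : M) :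
    w.ord (z : L) = 0 := by
  have h1 : (z : L) = algebraMap K₀ L (algebraMap M K₀ z) := by
    rw [← IsScalarTower.algebraMap_apply]; rfl
  rw [h1, hw.2, h.M0, mul_zero]

theorem GoodP.over_F (h : GoodP X p v) (hXx : ∀ i, algebraMap K₀ L (X i) = (x i : L))
    (hx : IsTranscendenceBasis k x) {w : Place k L} {c : ℕ} (hw : Over w v c) (z : F) :
    w.ord (z : L) = 0 := by
  have halg : Algebra.IsAlgebraic ↥(IntermediateField.adjoin k (Set.range x)) F :=
    hx.isAlgebraic_field
  refine ord_eq_zero_of_alg (K0 := ↥(IntermediateField.adjoin k (Set.range x))) (K1 := F)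
    (K2 := L) w (fun f => ?_) z
  obtain ⟨r, s, hrs⟩ := (IntermediateField.mem_adjoin_range_iff k x (f : F)).1 f.2
  change w.ord ((f : F) : L) = 0
  have h0 : ∀ g : MvPolynomial (Fin b) k, w.ord ((aeval x g : F) : L) = 0 := by
    intro g
    rw [← aeval_map_coe (M := M) hXx g, hw.2, h.map0, mul_zero]
  by_cases hf : (f : F) = 0
  · rw [hf]
    exact w.ord_zero
  have hr : (aeval x r : F) ≠ 0 := by
    intro h0'; rw [h0', zero_div] at hrs; exact hf hrs
  have hs : (aeval x s : F) ≠ 0 := by
    intro h0'; rw [h0', div_zero] at hrs; exact hf hrs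
  have hr' : ((aeval x r : F) : L) ≠ 0 := fun h => hr (Subtype.ext h)
  have hs' : ((aeval x s : F) : L) ≠ 0 := fun h => hs (Subtype.ext h)
  have e1 : ((f : F) : L) = ((aeval x r : F) : L) / ((aeval x s : F) : L) := by
    rw [hrs]; rfl
  rw [e1, w.ord_div hr' hs', h0, h0, sub_self]

/-- The place is divisorial. -/
theorem GoodP.div (h : GoodP X p v) (hM : Algebra.trdeg k M = a) {y : Fin a → M}
    (hy : IsTranscendenceBasis k y) (hX : Gens (k := M) X) {w : Place k L} {c : ℕ}
    (hw : Over w v c) : IsDivisorial w (a + b) := by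
  classical
  -- a variable which occurs in `p`
  obtain ⟨i0, hi0⟩ : ∃ i0, degreeOf i0 p ≠ 0 := by
    by_contra hcon
    push Not at hcon
    have h2 : p.totalDegree = 0 := by
      rw [totalDegree_eq_zero_iff]
      intro m hm j
      have := degreeOf_le_iff.1 (hcon j).le m hm
      omega
    have h3 := totalDegree_eq_zero_iff_eq_C.1 h2
    apply h.irr.not_isUnit
    rw [h3]
    refine (isUnit_iff_ne_zero.2 fun h0 => ?_).map C
    apply h.irr.ne_zero
    rw [h3, h0, C_0]
  let J := {i : Fin b // i ≠ i0}
  have hcard : Fintype.card J = b - 1 := by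
    rw [Fintype.card_subtype_compl, Fintype.card_fin, Fintype.card_subtype_eq]
  have hb : 1 ≤ b := Nat.one_le_iff_ne_zero.2 fun hb => by subst hb; exact i0.elim0
  refine isDiv_of_fintype (ι := J ⊕ Fin a) (by
    rw [Fintype.card_sum, hcard, Fintype.card_fin]; omega)
    (Sum.elim (fun i : J => algebraMap K₀ L (X i)) (fun i => (y i : L))) fun q hq => ?_
  set q' := MvPolynomial.sumAlgEquiv k J (Fin a) q with hq'
  have hq0 : q' ≠ 0 := by
    intro h0
    apply hq
    have h1 := congrArg (MvPolynomial.sumAlgEquiv k J (Fin a)).symm h0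
    rwa [hq', AlgEquiv.symm_apply_apply, map_zero] at h1
  let φ : MvPolynomial (Fin a) k →+* M :=
    ((MvPolynomial.aeval (R := k) y : MvPolynomial (Fin a) k →ₐ[k] M) :
      MvPolynomial (Fin a) k →+* M)
  have hφ : Function.Injective φ := hy.1
  set P : MvPolynomial (Fin b) M := MvPolynomial.rename Subtype.val (MvPolynomial.map φ q') with hP
  have hP0 : P ≠ 0 := by
    intro h0
    have h1 := MvPolynomial.rename_injective (R := M) (Subtype.val : J → Fin b)
      Subtype.val_injective (h0.trans (map_zero _).symm)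
    exact hq0 (MvPolynomial.map_injective _ hφ (h1.trans (map_zero _).symm))
  have hndvd : ¬ p ∣ P := by
    rintro ⟨R, hR⟩
    have hR0 : R ≠ 0 := by
      rintro rfl
      rw [mul_zero] at hR
      exact hP0 hR
    have h1 : degreeOf i0 P = 0 := by
      rw [← Nat.le_zero, degreeOf_le_iff]
      intro m hm
      by_contra hne
      have h2 : i0 ∈ P.vars := (mem_vars_iff_mem_support _).2 ⟨m, hm, by simpa using hne⟩
      have h3 := MvPolynomial.vars_rename (Subtype.val : J → Fin b) (MvPolynomial.map φ q') h2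
      rw [Finset.mem_image] at h3
      obtain ⟨i, -, hi⟩ := h3
      exact i.2 hi
    rw [hR, degreeOf_mul_eq h.irr.ne_zero hR0] at h1
    omega
  have e0 : ∀ q : MvPolynomial (J ⊕ Fin a) k,
      aeval (Sum.elim (fun i : J => algebraMap K₀ L (X i)) (fun i => (y i : L))) q =
      algebraMap K₀ L (aeval X (MvPolynomial.rename Subtype.val
        (MvPolynomial.map φ (MvPolynomial.sumAlgEquiv k J (Fin a) q)))) := by
    intro q
    induction q using MvPolynomial.induction_on with
    | C c =>
      rw [aeval_C, MvPolynomial.sumAlgEquiv_C_inl, map_C, rename_C, aeval_C,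
        ← IsScalarTower.algebraMap_apply]
      change _ = algebraMap M L (aeval y (C c))
      rw [aeval_C, ← IsScalarTower.algebraMap_apply]
    | add p q hp hq => simp only [map_add, hp, hq]
    | mul_X p i hp =>
      simp only [map_mul, hp, aeval_X]
      congr 1
      rcases i with i | i
      · rw [MvPolynomial.sumAlgEquiv_X_inl, map_X, rename_X, aeval_X, Sum.elim_inl]
      · rw [MvPolynomial.sumAlgEquiv_X_inr, map_C, rename_C, aeval_C,
          ← IsScalarTower.algebraMap_apply, Sum.elim_inr]
        change _ = algebraMap M L (aeval y (MvPolynomial.X i))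
        rw [aeval_X]
        rfl
  rw [e0, ← hq', ← hP]
  have h1 := (h.ord P hP0).2.2 hndvd
  refine ⟨?_, by rw [hw.2, h1, mul_zero]⟩
  rw [Ne, map_eq_zero]
  exact hX.ne hP0

end

end Pool.Agent.K1H17.IS
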