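import Pool.Agent.K1H17.IS.Rg

/-! Elements of `L` without horizontal poles belong to the ring generated by `M` and `F`, continued. -/

set_option autoImplicit false
set_option linter.overlappingInstances false
set_option linter.unusedSectionVars false
set_option linter.unusedVariables false

open FF IntermediateField Pool.Agent.W619.PQ Pool.Agent.W619.PL Pool.Agent.W619.TW
  Pool.Agent.W603.LV IsDedekindDomain MvPolynomial Pool.Agent.TH122.AB

namespace Pool.Agent.K1H17.IS

section

variable {k : Type} [Field k] [CharZero k]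
variable {L : Type} [Field L] [Algebra k L] {M F : IntermediateField k L} {a b : ℕ}
variable {K₀ : Type} [Field K₀] [Algebra k K₀] [Algebra M K₀] [Algebra K₀ L]
  [IsScalarTower k M K₀] [IsScalarTower M K₀ L] [IsScalarTower k K₀ L]
  {X : Fin b → K₀} {x : Fin b → F} {p : MvPolynomial (Fin b) M} {v : Place k K₀}

/-- `L` has a basis over `K₀` which consists of elements of `F`. -/
theorem exists_basis_F (K₀ : Type) [Field K₀] [Algebra k K₀] [Algebra M K₀] [Algebra K₀ L]
    [IsScalarTower k M K₀] [IsScalarTower M K₀ L] [IsScalarTower k K₀ L]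
    [FiniteDimensional K₀ L] (hsup : M ⊔ F = ⊤) :
    ∃ (d : ℕ) (e : Module.Basis (Fin d) K₀ L), ∀ j, e j ∈ F := by
  classical
  have htop : IntermediateField.adjoin K₀ (F : Set L) = ⊤ := by
    have h1 : (⊤ : IntermediateField k L) ≤
        (IntermediateField.adjoin K₀ (F : Set L)).restrictScalars k := by
      rw [← hsup, sup_le_iff]
      constructor
      · intro z hz
        rw [mem_restrictScalars]
        have h2 : z = algebraMap K₀ L (algebraMap M K₀ ⟨z, hz⟩) := by
          rw [← IsScalarTower.algebraMap_apply]; rfl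
        rw [h2]
        exact (IntermediateField.adjoin K₀ (F : Set L)).algebraMap_mem _
      · intro z hz
        rw [mem_restrictScalars]
        exact subset_adjoin K₀ _ hz
    rw [eq_top_iff]
    intro z _
    exact h1 (by trivial : z ∈ (⊤ : IntermediateField k L))
  have hadj : (Algebra.adjoin K₀ (F : Set L)) = ⊤ := by
    rw [← @IntermediateField.adjoin_toSubalgebra K₀ _ L _ _ _ (F : Set L), htop]
    rfl
  have hspan : Submodule.span K₀ (F : Set L) = ⊤ := by
    have h1 := congrArg Subalgebra.toSubmodule hadj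
    rw [Algebra.adjoin_eq_span] at h1
    have h2 : (Submonoid.closure (F : Set L) : Set L) = (F : Set L) := by
      have : (Submonoid.closure (F : Set L)) = F.toSubfield.toSubmonoid := by
        apply le_antisymm
        · rw [Submonoid.closure_le]; exact fun z hz => hz
        · exact fun z hz => Submonoid.subset_closure hz
      rw [this]
      rfl
    rw [h2] at h1
    rw [h1]
    exact Algebra.top_toSubmodule
  let e0 := Module.Basis.ofSpan (K := K₀) hspan.ge
  have hsub : Set.range e0 ⊆ (F : Set L) := Module.Basis.ofSpan_subset hspan.ge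
  have hfin : Finite _ := Module.Finite.finite_basis e0
  have := Fintype.ofFinite ((linearIndepOn_empty K₀ id).extend (Set.empty_subset (F : Set L)))
  refine ⟨_, e0.reindex (Fintype.equivFin _), fun j => ?_⟩
  rw [Module.Basis.reindex_apply]
  exact hsub ⟨_, rfl⟩

/-- The subfield of `K₀` which corresponds to `k (x)`. -/
noncomputable def kap (K₀ : Type) [Field K₀] [Algebra k K₀] [Algebra K₀ L] [IsScalarTower k K₀ L]
    (x : Fin b → F) : IntermediateField k K₀ :=
  (IntermediateField.adjoin k (Set.range fun i => (x i : L))).comap (IsScalarTower.toAlgHom k K₀ L)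

theorem mem_kx (hXx : ∀ i, algebraMap K₀ L (X i) = (x i : L)) {z : L}
    (hz : z ∈ IntermediateField.adjoin k (Set.range fun i => (x i : L))) :
    ∃ r s : MvPolynomial (Fin b) k, z = algebraMap K₀ L (aeval X r / aeval X s) := by
  obtain ⟨r, s, hrs⟩ := (IntermediateField.mem_adjoin_range_iff k (fun i => (x i : L)) z).1 hz
  refine ⟨r, s, ?_⟩
  have h2 : ∀ g : MvPolynomial (Fin b) k, algebraMap K₀ L (aeval X g) =
      aeval (fun i => (x i : L)) g := by
    intro g
    have h1 : algebraMap K₀ L (aeval X g) = aeval (fun i => algebraMap K₀ L (X i)) g :=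
      (MvPolynomial.aeval_algebraMap_apply L X g).symm
    rw [h1]
    congr 1
    congr 1
    funext i
    exact hXx i
  rw [map_div₀, h2, h2]
  exact hrs

theorem kap_int (hXx : ∀ i, algebraMap K₀ L (X i) = (x i : L)) (hx : IsTranscendenceBasis k x)
    (f : F) : IsIntegral (kap K₀ x) (f : L) := by
  set S := IntermediateField.adjoin k (Set.range fun i => (x i : L)) with hS
  have h1 : IsAlgebraic S (f : L) :=
    alg_over F x hx S (fun i => subset_adjoin k _ ⟨i, rfl⟩) f f.2
  let ρ : kap K₀ x →+* S := ((algebraMap K₀ L).comp (algebraMap (kap K₀ x) K₀)).codRestrict S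
    fun z => z.2
  have hρi : Function.Injective ρ := ρ.injective
  have hρs : Function.Surjective ρ := by
    intro z
    obtain ⟨r, s, hrs⟩ := mem_kx hXx z.2
    refine ⟨⟨aeval X r / aeval X s, ?_⟩, Subtype.ext hrs.symm⟩
    change algebraMap K₀ L (aeval X r / aeval X s) ∈ S
    rw [← hrs]
    exact z.2
  let ρe : kap K₀ x ≃+* S := RingEquiv.ofBijective ρ ⟨hρi, hρs⟩
  have h2 : IsAlgebraic (kap K₀ x) (f : L) := by
    refine h1.ringHom_of_comp_eq (ρe.symm : S →+* kap K₀ x) (RingHom.id L) ρe.symm.injective ?_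
    ext z
    change algebraMap K₀ L ((ρe.symm z : kap K₀ x) : K₀) = (z : L)
    have h3 : ρe (ρe.symm z) = z := RingEquiv.apply_symm_apply ρe z
    exact congrArg (fun z : S => (z : L)) h3
  exact h2.isIntegral

theorem GoodP.kap0 (h : GoodP X p v) (hXx : ∀ i, algebraMap K₀ L (X i) = (x i : L))
    (c : kap K₀ x) : v.ord (algebraMap (kap K₀ x) K₀ c) = 0 := by
  have hc : algebraMap K₀ L (c : K₀) ∈
      IntermediateField.adjoin k (Set.range fun i => (x i : L)) := c.2
  obtain ⟨r, s, hrs⟩ := mem_kx hXx hc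
  have h1 : (c : K₀) = aeval X r / aeval X s := (algebraMap K₀ L).injective hrs
  change v.ord (c : K₀) = 0
  have h0 : ∀ g : MvPolynomial (Fin b) k, v.ord (aeval X g) = 0 := by
    intro g
    have h2 := h.map0 g
    rwa [aeval_map_algebraMap] at h2
  by_cases hc0 : (c : K₀) = 0
  · rw [hc0, v.ord_zero]
  have hr : aeval X r ≠ 0 := by
    intro h0'; rw [h0', zero_div] at h1; exact hc0 h1
  have hs : aeval X s ≠ 0 := by
    intro h0'; rw [h0', div_zero] at h1; exact hc0 h1
  rw [h1, v.ord_div hr hs, h0, h0, sub_self]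

/-- The discriminant is a unit at good places. -/
theorem GoodP.disc (h : GoodP X p v) (hXx : ∀ i, algebraMap K₀ L (X i) = (x i : L))
    (hx : IsTranscendenceBasis k x) [FiniteDimensional K₀ L] {d : ℕ}
    (e : Module.Basis (Fin d) K₀ L) (he : ∀ j, e j ∈ F) :
    (Matrix.of fun i j => Algebra.trace K₀ L (e i * e j)).det ≠ 0 ∧
    v.ord (Matrix.of fun i j => Algebra.trace K₀ L (e i * e j)).det = 0 := by
  have : CharZero K₀ := charZero_of_injective_algebraMap (algebraMap k K₀).injective
  constructor
  · have h1 := Algebra.discr_not_zero_of_basis K₀ e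
    exact h1
  · refine ord_zero_of_int v (fun c => h.kap0 hXx c) _ ?_
    refine IsIntegral.det fun i j => ?_
    rw [Matrix.of_apply]
    exact Algebra.isIntegral_trace (kap_int hXx hx (⟨e i, he i⟩ * ⟨e j, he j⟩ : F))

/-- The coordinates of an element which is regular at the places over `v`. -/
theorem GoodP.coord (h : GoodP X p v) (hXx : ∀ i, algebraMap K₀ L (X i) = (x i : L))
    (hx : IsTranscendenceBasis k x) [FiniteDimensional K₀ L] {d : ℕ}
    (e : Module.Basis (Fin d) K₀ L) (he : ∀ j, e j ∈ F) (z : L)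
    (hz : ∀ (w : Place k L) (c : ℕ), Over w v c → w.Reg z) (j : Fin d) : v.Reg (e.repr z j) := by
  obtain ⟨h1, h2⟩ := h.disc hXx hx e he
  exact coord_reg e v (fun j w c hw => Or.inr (h.over_F hXx hx hw ⟨e j, he j⟩).ge) h1 h2 z hz j

/-- Vector fields which map `M` to `M` and `F` to `F` are regular at good places. -/
theorem GoodP.pres (h : GoodP X p v) (hX : Gens (k := M) X)
    (hXx : ∀ i, algebraMap K₀ L (X i) = (x i : L))
    (hx : IsTranscendenceBasis k x) [FiniteDimensional K₀ L] {d : ℕ}
    (e : Module.Basis (Fin d) K₀ L) (he : ∀ j, e j ∈ F) {w : Place k L} {c : ℕ}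
    (hw : Over w v c) (D : Derivation k L L) (hDM : ∀ z ∈ M, D z ∈ M) (hDF : ∀ z ∈ F, D z ∈ F) :
    Pres w D := by
  have hwM := h.over_M (L := L) hw
  have hwF := h.over_F hXx hx hw
  refine pres_of_all v w c hw D fun z hz => ?_
  have hc := h.coord hXx hx e he z hz
  have h1 : D z = ∑ j, (algebraMap K₀ L (e.repr z j) * D (e j) +
      e j * D (algebraMap K₀ L (e.repr z j))) := by
    conv_lhs => rw [← e.sum_repr z]
    rw [map_sum]
    refine Finset.sum_congr rfl fun j _ => ?_
    rw [Algebra.smul_def, D.leibniz, smul_eq_mul, smul_eq_mul]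
  rw [h1]
  change Ge w 0 _
  refine Ge.sum _ _ fun j _ => ?_
  have h2 : Ge w 0 (algebraMap K₀ L (e.repr z j)) := hw.reg.2 (hc j)
  have h3 : Ge w 0 (D (e j)) := Or.inr (hwF ⟨D (e j), hDF _ (he j)⟩).ge
  have h4 : Ge w 0 (e j) := Or.inr (hwF ⟨e j, he j⟩).ge
  have h5 : Ge w 0 (D (algebraMap K₀ L (e.repr z j))) := by
    -- a fraction with denominator prime to `p`
    by_cases hc0 : e.repr z j = 0
    · rw [hc0, map_zero, map_zero]; exact Ge.zero
    obtain ⟨P0, Q0, hQ0, hz1⟩ := hX.gen (e.repr z j)
    obtain ⟨P, Q, c', hcop, ha, hb⟩ :=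
      UniqueFactorizationMonoid.exists_reduced_factors' P0 Q0 hQ0
    have hQ : Q ≠ 0 := by
      rintro rfl
      apply hQ0
      rw [← hb, mul_zero]
    have hc' : c' ≠ 0 := by
      rintro rfl
      apply hQ0
      rw [← hb, zero_mul]
    have hz2 : e.repr z j = aeval X P / aeval X Q := by
      have hcX := hX.ne hc'
      rw [hz1, ← ha, ← hb, map_mul, map_mul, mul_div_mul_left _ _ hcX]
    have hP : P ≠ 0 := by
      intro h0
      apply hc0
      rw [hz2, h0, map_zero, zero_div]
    have hQ1 : v.ord (aeval X Q) = 0 := by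
      refine (h.ord Q hQ).2.2 fun hpQ => ?_
      have hpP : ¬ p ∣ P := fun hpP => h.irr.not_isUnit (hcop hpP hpQ)
      have h2 := (h.ord P hP).2.2 hpP
      have h3 : 0 < v.ord (aeval X Q) := by
        have h4 := h.ord Q hQ
        rcases lt_or_eq_of_le h4.1 with h5 | h5
        · exact h5
        · exact absurd hpQ (h4.2.1 h5.symm)
      have h4 := hc j
      rw [v.reg_iff hc0, hz2, v.ord_div (hX.ne hP) (hX.ne hQ), h2] at h4
      omega
    have hQL : algebraMap K₀ L (aeval X Q) ≠ 0 :=
      (map_ne_zero_iff _ (algebraMap K₀ L).injective).2 (hX.ne hQ)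
    have hPR := aeval_mem_RR (F := F) hXx P
    have hQR := aeval_mem_RR (F := F) hXx Q
    have h6 : Ge w 0 (D (algebraMap K₀ L (aeval X P))) :=
      reg_RR w hwM hwF (der_RR D hDM hDF hPR)
    have h7 : Ge w 0 (D (algebraMap K₀ L (aeval X Q))) :=
      reg_RR w hwM hwF (der_RR D hDM hDF hQR)
    have h8 : Ge w 0 (algebraMap K₀ L (aeval X P)) := reg_RR w hwM hwF hPR
    have h9 : Ge w 0 (algebraMap K₀ L (aeval X Q)) := reg_RR w hwM hwF hQR
    have h10 : Ge w 0 ((algebraMap K₀ L (aeval X Q))⁻¹ ^ 2) := by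
      right
      rw [w.ord_pow, w.ord_inv, hw.2, hQ1]
      simp
    rw [hz2, map_div₀, D.leibniz_div, smul_eq_mul, smul_eq_mul, smul_eq_mul]
    have h11 := h10.mul ((h9.mul h6).sub (h8.mul h7))
    simpa using h11
  have h6 := (h2.mul h3).add (h4.mul h5)
  simpa using h6

end

end Pool.Agent.K1H17.IS
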