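import Pool.Agent.K1H17.IS.Rg2

/-! Elements of `L` without horizontal poles belong to the ring generated by `M` and `F`: the theorem. -/

set_option autoImplicit false
set_option linter.overlappingInstances false
set_option linter.unusedSectionVars false
set_option linter.unusedVariables false

open FF IntermediateField Pool.Agent.W619.PQ Pool.Agent.W619.PL Pool.Agent.W619.TW
  Pool.Agent.W603.LV IsDedekindDomain MvPolynomial Pool.Agent.TH122.AB

namespace Pool.Agent.K1H17.IS

section

/-- A place of a field over `M` is a place over `k`. -/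
def downPlace (k : Type) {M K₀ : Type} [Field k] [Field M] [Field K₀] [Algebra k M] [Algebra k K₀]
    [Algebra M K₀] [IsScalarTower k M K₀] (v : Place M K₀) : Place k K₀ where
  ord := v.ord
  ord_zero := v.ord_zero
  ord_mul := v.ord_mul
  ord_add := v.ord_add
  ord_const := by
    intro c hc
    rw [IsScalarTower.algebraMap_apply k M K₀]
    refine v.ord_const ?_
    rw [Ne, map_eq_zero]
    exact hc
  surj := v.surj

variable {k : Type} [Field k] [CharZero k]
variable {L : Type} [Field L] [Algebra k L] {M F : IntermediateField k L} {a b : ℕ}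

/-- The variables are independent over `M`. -/
theorem gens_MF (h : Dj M F) (x : Fin b → F) (hx : AlgebraicIndependent k x) :
    Gens (k := M) (fun i => (⟨(x i : L), subset_adjoin M _ ⟨i, rfl⟩⟩ :
      IntermediateField.adjoin M (Set.range fun i => (x i : L)))) := by
  classical
  have hind : AlgebraicIndependent M (fun i => (x i : L)) := by
    have h1 := h.lin _ (linIndep_mon x hx)
    rw [AlgebraicIndependent, injective_iff_map_eq_zero]
    intro P hP
    have h2 : aeval (fun i => (x i : L)) P = ∑ m ∈ P.support,
        (coeff m P) • (((∏ i, x i ^ m i : F)) : L) := by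
      rw [aeval_def, eval₂_eq']
      refine Finset.sum_congr rfl fun m _ => ?_
      rw [Algebra.smul_def]
      congr 1
      push_cast
      rfl
    have h3 := hP.symm.trans h2
    have h4 := linearIndependent_iff'.1 h1 P.support (fun m => coeff m P) h3.symm
    refine MvPolynomial.ext _ _ fun m => ?_
    rw [coeff_zero]
    by_cases hm : m ∈ P.support
    · exact h4 m hm
    · exact notMem_support_iff.1 hm
  constructor
  · rw [AlgebraicIndependent, injective_iff_map_eq_zero]
    intro P hP
    have h1 : aeval (fun i => (x i : L)) P = 0 := by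
      have h2 := congrArg (algebraMap (IntermediateField.adjoin M (Set.range fun i => (x i : L))) L) hP
      rw [map_zero] at h2
      rw [← h2]
      exact (MvPolynomial.aeval_algebraMap_apply L (fun i => (⟨(x i : L), subset_adjoin M _ ⟨i, rfl⟩⟩ :
        IntermediateField.adjoin M (Set.range fun i => (x i : L)))) P)
    exact (injective_iff_map_eq_zero _).1 hind P h1
  · intro z
    obtain ⟨r, s, hrs⟩ := (IntermediateField.mem_adjoin_range_iff M (fun i => (x i : L)) (z : L)).1 z.2
    have h2 : ∀ g : MvPolynomial (Fin b) M, ((aeval (fun i => (⟨(x i : L), subset_adjoin M _ ⟨i, rfl⟩⟩ :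
        IntermediateField.adjoin M (Set.range fun i => (x i : L)))) g :
          IntermediateField.adjoin M (Set.range fun i => (x i : L))) : L) =
        aeval (fun i => (x i : L)) g := fun g =>
      (MvPolynomial.aeval_algebraMap_apply L (fun i => (⟨(x i : L), subset_adjoin M _ ⟨i, rfl⟩⟩ :
        IntermediateField.adjoin M (Set.range fun i => (x i : L)))) g).symm
    by_cases hs : s = 0
    · refine ⟨0, 1, one_ne_zero, Subtype.ext ?_⟩
      rw [hrs, hs, map_zero, div_zero, map_zero, zero_div]
      rfl
    · refine ⟨r, s, hs, Subtype.ext ?_⟩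
      rw [hrs, ← h2, ← h2]
      rfl

variable {K₀ : Type} [Field K₀] [Algebra k K₀] [Algebra M K₀] [Algebra K₀ L]
  [IsScalarTower k M K₀] [IsScalarTower M K₀ L] [IsScalarTower k K₀ L]
  {X : Fin b → K₀} {x : Fin b → F} {p : MvPolynomial (Fin b) M} {v : Place k K₀}

/-- Elements of `K₀` without poles at the good places have a denominator over `k`. -/
theorem frac_good (hX : Gens (k := M) X) {c : K₀}
    (hc : ∀ (p : MvPolynomial (Fin b) M) (v : Place k K₀), GoodP (M := M) X p v → v.Reg c) :
    ∃ (P : MvPolynomial (Fin b) M) (g : MvPolynomial (Fin b) k), g ≠ 0 ∧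
      c = aeval X P / aeval X (MvPolynomial.map (algebraMap k M) g) := by
  classical
  by_cases hc0 : c = 0
  · exact ⟨0, 1, one_ne_zero, by rw [hc0, map_zero, zero_div]⟩
  obtain ⟨P0, Q0, hQ0, hz1⟩ := hX.gen c
  obtain ⟨P, Q, c', hcop, ha, hb⟩ := UniqueFactorizationMonoid.exists_reduced_factors' P0 Q0 hQ0
  have hQ : Q ≠ 0 := by
    rintro rfl
    apply hQ0
    rw [← hb, mul_zero]
  have hc' : c' ≠ 0 := by
    rintro rfl
    apply hQ0
    rw [← hb, zero_mul]
  have hz2 : c = aeval X P / aeval X Q := by
    have hcX := hX.ne hc'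
    rw [hz1, ← ha, ← hb, map_mul, map_mul, mul_div_mul_left _ _ hcX]
  have hP : P ≠ 0 := by
    intro h0
    apply hc0
    rw [hz2, h0, map_zero, zero_div]
  obtain ⟨g, hg, R, hR⟩ := dvd_map (k := k) Q hQ fun p hp hpQ => by
    by_contra hcon
    push Not at hcon
    obtain ⟨v, hv1, hv2⟩ := exists_adic hX hp
    have hgood : GoodP X p (downPlace k v) := ⟨hp, hcon, hv2⟩
    have h1 := hc p _ hgood
    have hpP : ¬ p ∣ P := fun hpP => hp.not_isUnit (hcop hpP hpQ)
    have h2 := (hv2 P hP).2.2 hpP
    have h3 : 0 < v.ord (aeval X Q) := by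
      have h4 := hv2 Q hQ
      rcases lt_or_eq_of_le h4.1 with h5 | h5
      · exact h5
      · exact absurd hpQ (h4.2.1 h5.symm)
    rw [Place.reg_iff _ hc0] at h1
    change 0 ≤ v.ord c at h1
    rw [hz2, v.ord_div (hX.ne hP) (hX.ne hQ), h2] at h1
    omega
  refine ⟨P * R, g, hg, ?_⟩
  have hR0 : R ≠ 0 := by
    rintro rfl
    rw [mul_zero] at hR
    exact hg (MvPolynomial.map_injective _ (algebraMap k M).injective (hR.trans (map_zero _).symm))
  rw [hz2, hR, map_mul, map_mul, mul_div_mul_right _ _ (hX.ne hR0)]

end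

section

variable {k : Type} [Field k] [CharZero k]
variable {L : Type} [Field L] [Algebra k L] {M F : IntermediateField k L} {a b : ℕ}

/-- **Elements without horizontal poles.**  An element of `L` which is regular at all divisorial
places of `L` which are trivial on `M` and on `F` and whose valuation rings are preserved by all
vector fields which map `M` to `M` and `F` to `F` belongs to the ring generated by `M` and `F`. -/
theorem mem_RR_of_reg (h : Dj M F) (halg : Algebra.trdeg k L = (a + b : ℕ))
    (hM : Algebra.trdeg k M = a) (hF : Algebra.trdeg k F = b)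
    (hess : Algebra.EssFiniteType k L) (z : L)
    (hz : ∀ w : Place k L, (∀ m : M, w.ord (m : L) = 0) → (∀ f : F, w.ord (f : L) = 0) →
      IsDivisorial w (a + b) →
      (∀ D : Derivation k L L, (∀ z ∈ M, D z ∈ M) → (∀ z ∈ F, D z ∈ F) → Pres w D) → w.Reg z) :
    z ∈ RR M F := by
  classical
  obtain ⟨y, hy⟩ := Pool.Agent.W636.PG.exists_basis k M a hM
  obtain ⟨x, hx⟩ := Pool.Agent.W636.PG.exists_basis k F b hF
  let K₀ := IntermediateField.adjoin M (Set.range fun i => (x i : L))
  have htow : IsScalarTower k K₀ L := IsScalarTower.of_algebraMap_eq fun c => rfl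
  let X : Fin b → K₀ := fun i => ⟨(x i : L), subset_adjoin M _ ⟨i, rfl⟩⟩
  have hX : Gens (k := M) X := gens_MF h x hx.1
  have hXx : ∀ i, algebraMap K₀ L (X i) = (x i : L) := fun i => rfl
  have halgK : Algebra.IsAlgebraic K₀ L := by
    have h1 : (⊤ : IntermediateField k L) ≤ (algebraicClosure K₀ L).restrictScalars k := by
      rw [← h.sup, sup_le_iff]
      constructor
      · intro z hz
        rw [mem_restrictScalars, mem_algebraicClosure_iff]
        exact isAlgebraic_algebraMap (A := L) (algebraMap M K₀ ⟨z, hz⟩)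
      · intro z hz
        rw [mem_restrictScalars, mem_algebraicClosure_iff]
        exact alg_over F x hx (K₀.restrictScalars k) (fun i => subset_adjoin M _ ⟨i, rfl⟩) z hz
    refine ⟨fun z => ?_⟩
    have h2 := h1 (by trivial : z ∈ (⊤ : IntermediateField k L))
    rwa [mem_restrictScalars, mem_algebraicClosure_iff] at h2
  have hessK : Algebra.EssFiniteType K₀ L := Algebra.EssFiniteType.of_comp k K₀ L
  have hfd : FiniteDimensional K₀ L := fin_of_ess hessK
  obtain ⟨d, e, he⟩ := exists_basis_F (k := k) (M := M) (F := F) K₀ h.sup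
  have hreg : ∀ (j : Fin d) (p : MvPolynomial (Fin b) M) (v : Place k K₀), GoodP X p v →
      v.Reg (e.repr z j) := by
    intro j p v hp
    refine hp.coord hXx hx e he z (fun w c hw => ?_) j
    exact hz w (hp.over_M hw) (hp.over_F hXx hx hw) (hp.div hM hy hX hw)
      fun D hDM hDF => hp.pres hX hXx hx e he hw D hDM hDF
  rw [← e.sum_repr z]
  refine sum_mem fun j _ => ?_
  rw [Algebra.smul_def]
  refine mul_mem ?_ (RR.right (he j))
  obtain ⟨P, g, hg, hc⟩ := frac_good hX (hreg j)
  rw [hc, map_div₀, div_eq_mul_inv, aeval_map_coe (M := M) hXx g]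
  refine mul_mem (aeval_mem_RR hXx P) (RR.right ?_)
  exact inv_mem (aeval x g : F).2

end

end Pool.Agent.K1H17.IS
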