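import Pool.Agent.K1H17.IS.Kq

/-! Several subfields `M i` of `L` with `trdeg L = ∑ trdeg (M i)`: transcendence bases, algebraically
independent families, products of forms. -/

set_option autoImplicit false
set_option linter.overlappingInstances false
set_option linter.unusedSectionVars false
set_option linter.unusedVariables false

open FF IntermediateField Pool.Agent.W619.PQ Pool.Agent.W619.PL Pool.Agent.W619.TW
  Pool.Agent.W603.LV Pool.Agent.W619.Y Pool.Agent.W672.PG Pool.Agent.W824.PG Pool.Agent.Y174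

namespace Pool.Agent.K1H17.IS

section

variable {k L : Type} [Field k] [Field L] [Algebra k L]

theorem basis_sigma {r : ℕ} {a : Fin r → ℕ} {ι : Fin r → Type} [∀ i, Fintype (ι i)]
    (M : Fin r → IntermediateField k L)
    (halg : Algebra.IsAlgebraic ↥(⨆ i, M i) L) (hn : Algebra.trdeg k L = (∑ i, a i : ℕ))
    (hι : ∀ i, Fintype.card (ι i) = a i) (y : ∀ i, ι i → M i)
    (hy : ∀ i, IsTranscendenceBasis k (y i)) :
    IsTranscendenceBasis k (fun p : Σ i, ι i => (y p.1 p.2 : L)) := by
  have h1 : Algebra.IsAlgebraic (Algebra.adjoin k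
      (Set.range (fun p : Σ i, ι i => (y p.1 p.2 : L)))) L := by
    refine alg_adjoin fun z => ?_
    let S : IntermediateField k L := adjoin k (Set.range (fun p : Σ i, ι i => (y p.1 p.2 : L)))
    let A : IntermediateField S L := algebraicClosure S L
    have hA : (⨆ i, M i) ≤ A.restrictScalars k := by
      refine iSup_le fun i z hz => ?_
      rw [mem_restrictScalars, mem_algebraicClosure_iff]
      exact alg_over (M i) (y i) (hy i) S (fun j => subset_adjoin k _ ⟨⟨i, j⟩, rfl⟩) z hz
    let f : ↥(⨆ i, M i) →+* A := ((⨆ i, M i).val : ↥(⨆ i, M i) →+* L).codRestrict A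
      fun y => hA y.2
    have h2 : IsAlgebraic A z := by
      have h3 := halg.isAlgebraic z
      refine h3.ringHom_of_comp_eq f (RingHom.id L) f.injective (by ext y; rfl)
    have h4 : Algebra.IsAlgebraic S A := algebraicClosure.isAlgebraic S L
    exact IsAlgebraic.restrictScalars S h2
  refine Algebra.IsAlgebraic.isTranscendenceBasis_of_lift_le_trdeg_of_finite k _ ?_
  rw [hn]
  simp [hι]

theorem indep_sigma {r : ℕ} {a A : Fin r → ℕ} (M : Fin r → IntermediateField k L)
    (halg : Algebra.IsAlgebraic ↥(⨆ i, M i) L) (hn : Algebra.trdeg k L = (∑ i, a i : ℕ))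
    (hM : ∀ i, Algebra.trdeg k (M i) = a i) (s : ∀ i, Fin (A i) → M i)
    (hs : ∀ i, AlgebraicIndependent k (s i)) :
    AlgebraicIndependent k (fun p : Σ i, Fin (A i) => (s p.1 p.2 : L)) := by
  classical
  choose t ht0 ht ht2 ht1 using fun i => extend_basis (hM i) (s i) (hs i)
  have h1 := basis_sigma (ι := fun i => t i) M halg hn ht (fun i (l : t i) => (l : M i)) ht2
  let f : (Σ i, Fin (A i)) → (Σ i, t i) := fun p => ⟨p.1, ⟨s p.1 p.2, ht1 p.1 ⟨p.2, rfl⟩⟩⟩
  have hf : Function.Injective f := by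
    rintro ⟨i, p⟩ ⟨j, q⟩ hpq
    have h2 : i = j := congrArg Sigma.fst hpq
    subst h2
    have h3 : (⟨s i p, ht1 i ⟨p, rfl⟩⟩ : t i) = ⟨s i q, ht1 i ⟨q, rfl⟩⟩ :=
      eq_of_heq (Sigma.mk.inj_iff.1 hpq).2
    have h4 := (hs i).injective (congrArg Subtype.val h3)
    rw [h4]
  exact h1.1.comp f hf

/-- The families of the factors, together. -/
theorem sigma_fin {r : ℕ} {A : Fin r → ℕ} {f : (Σ i, Fin (A i)) → L}
    (hf : AlgebraicIndependent k f) :
    AlgebraicIndependent k (fun l : Fin (∑ i, A i) => f (finSigmaFinEquiv.symm l)) :=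
  hf.comp _ finSigmaFinEquiv.symm.injective

end

end Pool.Agent.K1H17.IS
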