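import Pool.Agent.K1H17.IS.Sg

/-! Products of pluricanonical forms on several factors. -/

set_option autoImplicit false
set_option linter.overlappingInstances false
set_option linter.unusedSectionVars false
set_option linter.unusedVariables false

open FF IntermediateField Pool.Agent.W619.PQ Pool.Agent.W619.PL Pool.Agent.W619.TW
  Pool.Agent.W603.LV Pool.Agent.W619.Y Pool.Agent.W672.PG Pool.Agent.W824.PG Pool.Agent.Y174

namespace Pool.Agent.K1H17.IS

section

theorem det_blk' {R : Type*} [CommRing R] {r : ℕ} {a : Fin r → ℕ}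
    (Z : ∀ i, Matrix (Fin (a i)) (Fin (a i)) R) :
    (Matrix.blockDiagonal' Z).det = ∏ i, (Z i).det := by
  classical
  have h := (Matrix.blockTriangular_blockDiagonal' Z).det_fintype
  rw [h]
  refine Finset.prod_congr rfl fun i _ => ?_
  let e : Fin (a i) ≃ {p : Σ i, Fin (a i) // p.1 = i} :=
    { toFun := fun j => ⟨⟨i, j⟩, rfl⟩
      invFun := fun p => p.2 ▸ p.1.2
      left_inv := fun j => rfl
      right_inv := by rintro ⟨⟨i', j⟩, rfl⟩; rfl }
  rw [← Matrix.det_reindex_self e (Z i)]
  congr 1
  ext p q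
  obtain ⟨p', rfl⟩ := e.surjective p
  obtain ⟨q', rfl⟩ := e.surjective q
  rw [Matrix.reindex_apply, Matrix.submatrix_apply, Equiv.symm_apply_apply,
    Equiv.symm_apply_apply]
  exact Matrix.blockDiagonal'_apply_eq Z i p' q'

variable {k : Type} {L : Type} [Field k] [CharZero k] [Field L] [Algebra k L]

/-- The product of forms on the factors. -/
theorem lg_sigma {r : ℕ} {a : Fin r → ℕ} {m : ℕ} {w : Place k L} {y : ∀ i, Fin (a i) → L}
    {c : Fin r → L} {γ : Fin r → ℝ} (h : ∀ i, LG w m (y i) (c i) (γ i))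
    (D : (Σ i, Fin (a i)) → Derivation k L L)
    (hD : ∀ j, Pres w (D j)) (hl : ∀ j z, w.Reg (D j z / z)) :
    GeR w (∑ i, γ i) ((Matrix.of fun i j : (Σ i, Fin (a i)) => D i (y j.1 j.2)).det ^ m *
      ∏ i, c i) := by
  classical
  choose Z φ h1 h2 h3 using h
  let P : Matrix (Σ i, Fin (a i)) (Σ i, Fin (a i)) L := Matrix.of fun i j => φ j.1 j.2 (D i)
  let A : Matrix (Σ i, Fin (a i)) (Σ i, Fin (a i)) L := Matrix.blockDiagonal' Z
  have e1 : (Matrix.of fun i j : (Σ i, Fin (a i)) => D i (y j.1 j.2)) = P * A.transpose := by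
    ext i ⟨j1, j2⟩
    rw [Matrix.of_apply, Matrix.mul_apply, h2, Fintype.sum_sigma, Finset.sum_eq_single j1]
    · refine Finset.sum_congr rfl fun c _ => ?_
      rw [Matrix.transpose_apply]
      simp only [P, A, Matrix.of_apply, Matrix.blockDiagonal'_apply_eq]
      ring
    · intro l _ hl'
      refine Finset.sum_eq_zero fun c _ => ?_
      rw [Matrix.transpose_apply]
      simp only [A]
      rw [Matrix.blockDiagonal'_apply_ne Z _ _ (Ne.symm hl'), mul_zero]
    · intro h
      exact absurd (Finset.mem_univ j1) h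
  have e2 : A.det = ∏ i, (Z i).det := det_blk' Z
  have h4 : Ge w 0 P.det := by
    refine ge_det w _ fun i j => ?_
    exact h1 j.1 _ (hD i) (hl i) j.2
  rw [e1, Matrix.det_mul, Matrix.det_transpose, e2]
  have e3 : (P.det * ∏ i, (Z i).det) ^ m * ∏ i, c i =
      (∏ i, (c i * (Z i).det ^ m)) * P.det ^ m := by
    rw [mul_pow, Finset.prod_mul_distrib, Finset.prod_pow]; ring
  rw [e3]
  have h5 : GeR w (∑ i, γ i) (∏ i, (c i * (Z i).det ^ m)) := by
    have : ∀ s : Finset (Fin r), GeR w (∑ i ∈ s, γ i) (∏ i ∈ s, (c i * (Z i).det ^ m)) := by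
      intro s
      induction s using Finset.induction_on with
      | empty =>
        rw [Finset.sum_empty, Finset.prod_empty]
        have := Ge.toR (Ge.one (P := w))
        simpa using this
      | insert i s hi ih =>
        rw [Finset.sum_insert hi, Finset.prod_insert hi]
        exact (h3 i).mul ih
    exact this Finset.univ
  refine (h5.mul (Ge.toR (h4.pow m))).mono ?_
  push_cast
  linarith

/-- The product of forms which are regular along `w`. -/
theorem yg_sigma {r : ℕ} {a : Fin r → ℕ} {m : ℕ} {w : Place k L} {y : ∀ i, Fin (a i) → L}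
    {c : Fin r → L} (h : ∀ i, YGood (a i) m w (y i) (c i))
    (D : (Σ i, Fin (a i)) → Derivation k L L) (hD : ∀ j, Pres w (D j)) :
    Ge w 0 ((Matrix.of fun i j : (Σ i, Fin (a i)) => D i (y j.1 j.2)).det ^ m * ∏ i, c i) := by
  classical
  choose Z z h1 h2 h3 using h
  let P : Matrix (Σ i, Fin (a i)) (Σ i, Fin (a i)) L := Matrix.of fun i j => D i (z j.1 j.2)
  let A : Matrix (Σ i, Fin (a i)) (Σ i, Fin (a i)) L := Matrix.blockDiagonal' Z
  have e1 : (Matrix.of fun i j : (Σ i, Fin (a i)) => D i (y j.1 j.2)) = P * A.transpose := by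
    ext i ⟨j1, j2⟩
    rw [Matrix.of_apply, Matrix.mul_apply, h2, Fintype.sum_sigma, Finset.sum_eq_single j1]
    · refine Finset.sum_congr rfl fun c _ => ?_
      rw [Matrix.transpose_apply]
      simp only [P, A, Matrix.of_apply, Matrix.blockDiagonal'_apply_eq]
      ring
    · intro l _ hl'
      refine Finset.sum_eq_zero fun c _ => ?_
      rw [Matrix.transpose_apply]
      simp only [A]
      rw [Matrix.blockDiagonal'_apply_ne Z _ _ (Ne.symm hl'), mul_zero]
    · intro h
      exact absurd (Finset.mem_univ j1) h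
  have e2 : A.det = ∏ i, (Z i).det := det_blk' Z
  have h4 : Ge w 0 P.det := by
    refine ge_det w _ fun i j => ?_
    exact hD i _ (h1 j.1 j.2)
  rw [e1, Matrix.det_mul, Matrix.det_transpose, e2]
  have e3 : (P.det * ∏ i, (Z i).det) ^ m * ∏ i, c i =
      (∏ i, (c i * (Z i).det ^ m)) * P.det ^ m := by
    rw [mul_pow, Finset.prod_mul_distrib, Finset.prod_pow]; ring
  rw [e3]
  have h5 : Ge w 0 (∏ i, (c i * (Z i).det ^ m)) := by
    have : ∀ s : Finset (Fin r), Ge w 0 (∏ i ∈ s, (c i * (Z i).det ^ m)) := by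
      intro s
      induction s using Finset.induction_on with
      | empty => exact Ge.one
      | insert i s hi ih =>
        rw [Finset.prod_insert hi]
        simpa using (h3 i).mul ih
    exact this Finset.univ
  simpa using h5.mul (h4.pow m)

/-- The form on `L` which is the product of forms on the factors. -/
theorem pluri_sigma {r n : ℕ} {a : Fin r → ℕ} (σ : (Σ i, Fin (a i)) ≃ Fin n)
    (Y : (Σ i, Fin (a i)) → L) (m : ℕ) (c : L) :
    IsPluriForm k L n m (fun D => (Matrix.of fun i j => D (σ i) (Y j)).det ^ m * c) := by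
  classical
  intro A D
  have e : (Matrix.of fun i j => (∑ l, A (σ i) l • D l) (Y j)) =
      A.submatrix σ σ * Matrix.of fun i j => D (σ i) (Y j) := by
    ext i j
    rw [Matrix.of_apply, Matrix.mul_apply, Pool.Agent.W73.PG.PULL.sum_app]
    simp only [Matrix.submatrix_apply, Matrix.of_apply]
    exact (Equiv.sum_comp σ (fun l => A (σ i) l * D l (Y j))).symm
  show (Matrix.of fun i j => (∑ l, A (σ i) l • D l) (Y j)).det ^ m * _ = _
  rw [e, Matrix.det_mul, Matrix.det_submatrix_equiv_self, mul_pow, mul_assoc]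

end

end Pool.Agent.K1H17.IS
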