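import Pool.Agent.K1H17.IS.Kq
import Pool.Agent.Y172.Grow

/-! Integral elements over a place which is unramified in a strong sense. -/

set_option autoImplicit false
set_option linter.overlappingInstances false
set_option linter.unusedSectionVars false

open FF IntermediateField Pool.Agent.W619.PQ Pool.Agent.W619.PL Pool.Agent.W619.TW
  Pool.Agent.W603.LV IsDedekindDomain

namespace Pool.Agent.K1H17.IS

section

variable {k K L : Type} [Field k] [CharZero k] [Field K] [Field L] [Algebra k K] [Algebra k L]
  [Algebra K L] [IsScalarTower k K L] [FiniteDimensional K L]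

/-- The coordinates of an element which is regular at all places over `v`. -/
theorem coord_reg {d : ℕ} (e : Module.Basis (Fin d) K L) (v : Place k K)
    (he : ∀ j (w : Place k L) (c : ℕ), Over w v c → w.Reg (e j))
    (hdet0 : (Matrix.of fun i j => Algebra.trace K L (e i * e j)).det ≠ 0)
    (hdet : v.ord (Matrix.of fun i j => Algebra.trace K L (e i * e j)).det = 0)
    (z : L) (hz : ∀ (w : Place k L) (c : ℕ), Over w v c → w.Reg z) (j : Fin d) :
    v.Reg (e.repr z j) := by
  set T : Matrix (Fin d) (Fin d) K := Matrix.of fun i j => Algebra.trace K L (e i * e j) with hT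
  have hTreg : ∀ i j, Ge v 0 (T i j) := by
    intro i j
    refine Pool.Agent.Y172.trace_reg v _ fun w c hwv => ?_
    have h1 : Ge w 0 (e i) := he i w c hwv
    have h2 : Ge w 0 (e j) := he j w c hwv
    simpa using h1.mul h2
  have hτ : ∀ i, Ge v 0 (Algebra.trace K L (z * e i)) := by
    intro i
    refine Pool.Agent.Y172.trace_reg v _ fun w c hwv => ?_
    have h1 : Ge w 0 z := hz w c hwv
    have h2 : Ge w 0 (e i) := he i w c hwv
    simpa using h1.mul h2
  have h1 : T.mulVec (fun j => e.repr z j) = fun i => Algebra.trace K L (z * e i) := by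
    funext i
    conv_rhs => rw [← e.sum_repr z, Finset.sum_mul, map_sum]
    rw [Matrix.mulVec, dotProduct]
    refine Finset.sum_congr rfl fun l _ => ?_
    rw [smul_mul_assoc, map_smul, smul_eq_mul, mul_comm, hT, Matrix.of_apply, mul_comm (e i)]
  have h2 : T.det • (fun j => e.repr z j) =
      T.adjugate.mulVec (fun i => Algebra.trace K L (z * e i)) := by
    rw [← h1, Matrix.mulVec_mulVec, Matrix.adjugate_mul, Matrix.smul_mulVec, Matrix.one_mulVec]
  have h3 := congrFun h2 j
  rw [Pi.smul_apply, smul_eq_mul, Matrix.mulVec, dotProduct] at h3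
  have hadj : ∀ i j, Ge v 0 (T.adjugate i j) := by
    intro i j
    rw [Matrix.adjugate_apply]
    refine ge_det v _ fun a b => ?_
    rw [Matrix.updateRow_apply]
    split_ifs
    · by_cases hb : b = i
      · subst hb
        rw [Pi.single_eq_same]
        exact Ge.one
      · rw [Pi.single_eq_of_ne hb]
        exact Ge.zero
    · exact hTreg a b
  have h4 : Ge v 0 (T.det * e.repr z j) := by
    rw [h3]
    refine Ge.sum _ _ fun i _ => ?_
    simpa using (hadj j i).mul (hτ i)
  rcases h4 with h4 | h4
  · exact Or.inl ((mul_eq_zero.1 h4).resolve_left hdet0)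
  · by_cases h5 : e.repr z j = 0
    · exact Or.inl h5
    · rw [v.ord_mul hdet0 h5, hdet, zero_add] at h4
      exact Or.inr h4

/-- A derivation which maps the elements which are regular at all places over `v` to elements which
are regular at `w` preserves the valuation ring of `w`. -/
theorem pres_of_all (v : Place k K) (w : Place k L) (e : ℕ) (h : Over w v e)
    (D : Derivation k L L)
    (hD : ∀ z : L, (∀ (w' : Place k L) (c : ℕ), Over w' v c → w'.Reg z) → w.Reg (D z)) :
    Pres w D := by
  classical
  let iA : Algebra v.O L := algO v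
  let ik : Algebra k v.O := algk v
  have : IsDiscreteValuationRing v.O := v.isDVR
  have : CharZero K := charZero_of_injective_algebraMap (algebraMap k K).injective
  have : IsScalarTower v.O K L := IsScalarTower.of_algebraMap_eq fun _ => rfl
  have : IsScalarTower k v.O L := IsScalarTower.of_algebraMap_eq fun c => by
    rw [IsScalarTower.algebraMap_apply k K L]
    rfl
  let B := integralClosure v.O L
  have : IsDedekindDomain B := integralClosure.isDedekindDomain v.O K L
  have : IsFractionRing B L := integralClosure.isFractionRing_of_finite_extension K L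
  have hsc : IsScalarTower k B L := by
    refine IsScalarTower.of_algebraMap_eq fun c => ?_
    rw [IsScalarTower.algebraMap_apply k v.O B, ← IsScalarTower.algebraMap_apply v.O B L,
      ← IsScalarTower.algebraMap_apply k v.O L]
  have hBreg' : ∀ (w' : Place k L) (c : ℕ), Over w' v c → ∀ b : B, w'.Reg (algebraMap B L b) :=
    fun w' c hw' b => w'.reg_of_isIntegral (A := v.O) (fun a => hw'.reg.2 a.2) b.2
  have hBreg := hBreg' w e h
  have hDB : ∀ b : B, w.Reg (D (algebraMap B L b)) := fun b =>
    hD _ fun w' c hw' => hBreg' w' c hw' b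
  intro z hz
  by_cases hz0 : z = 0
  · left; rw [hz0, map_zero]
  obtain ⟨P, hP⟩ := exists_placeOf_eq (k := k) (L := L) (B := B) w hBreg
  have h1 : 0 ≤ (placeOf (k := k) (L := L) P).ord z := by
    rw [hP]; exact (w.reg_iff hz0).1 hz
  rw [placeOf_nonneg P hz0] at h1
  obtain ⟨n, d, hnd⟩ := P.exists_primeCompl_mul_eq_of_integer z h1
  have hd := placeOf_red_eq_zero (k := k) (L := L) P (d : B)
  have hd2 : ¬ (placeOf (k := k) (L := L) P).red (algebraMap B L d) = 0 := fun h => d.2 (hd.1 h)
  rw [Place.red_eq_zero_iff _ (placeOf_reg P _)] at hd2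
  push Not at hd2
  rw [hP] at hd2
  have hreg : w.Reg (algebraMap B L d) := hBreg _
  have hdord : w.ord (algebraMap B L d) = 0 := by
    have := (w.reg_iff hd2.1).1 hreg
    omega
  have hd0 : algebraMap B L d ≠ 0 := hd2.1
  have e1 : D z = (D (algebraMap B L n) - z * D (algebraMap B L d)) * (algebraMap B L d)⁻¹ := by
    rw [← hnd, D.leibniz, smul_eq_mul, smul_eq_mul]
    field_simp
    ring
  have hn' : Ge w 0 (D (algebraMap B L n)) := hDB n
  have hd' : Ge w 0 (D (algebraMap B L d)) := hDB d
  have hz' : Ge w 0 z := hz
  have hdi : Ge w 0 (algebraMap B L d)⁻¹ := Or.inr (by rw [w.ord_inv, hdord]; simp)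
  rw [e1]
  have h3 : Ge w 0 (z * D (algebraMap B L d)) := by simpa using hz'.mul hd'
  have h4 := (hn'.sub h3).mul hdi
  rw [add_zero] at h4
  exact h4

end

end Pool.Agent.K1H17.IS
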