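import Pool.Agent.K1H17.IS.Mn
import Pool.Agent.W619.Y.Unir

/-! Products with a uniruled factor are uniruled. -/

set_option autoImplicit false
set_option linter.overlappingInstances false
set_option linter.unusedSectionVars false
set_option linter.unusedVariables false

open FF IntermediateField Pool.Agent.W619.PQ Pool.Agent.W619.PL Pool.Agent.W619.TW
  Pool.Agent.W603.LV Pool.Agent.W619.Y

namespace Pool.Agent.K1H17.IS

section

variable {k : Type} [Field k] [CharZero k] [IsAlgClosed k]

/-- An embedding of function fields of the same dimension is algebraic. -/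
theorem alg_of_same {K R : Type} [Field K] [Algebra k K] [Field R] [Algebra k R] {n : ℕ}
    (hK : Algebra.trdeg k K = n) (hR : Algebra.trdeg k R = n) (f : K →ₐ[k] R) :
    letI := f.toRingHom.toAlgebra
    Algebra.IsAlgebraic K R := by
  let _ := f.toRingHom.toAlgebra
  obtain ⟨y, hy⟩ := Pool.Agent.W636.PG.exists_basis k K n hK
  have hyR : AlgebraicIndependent k (fun i => f (y i)) := hy.1.map' f.injective
  have hyb : IsTranscendenceBasis k (fun i => f (y i)) := by
    refine hyR.isTranscendenceBasis_of_lift_trdeg_le_of_finite ?_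
    rw [hR]
    simp
  have h1 : Algebra.IsAlgebraic (IntermediateField.adjoin k (Set.range fun i => f (y i)))
    R := hyb.isAlgebraic_field
  refine ⟨fun z => ?_⟩
  have h2 := h1.isAlgebraic z
  have hle : IntermediateField.adjoin k (Set.range fun i => f (y i)) ≤ f.fieldRange := by
    rw [adjoin_le_iff]
    rintro _ ⟨i, rfl⟩
    exact ⟨y i, rfl⟩
  let e : K ≃ₐ[k] f.fieldRange := AlgEquiv.ofInjectiveField f
  let g : IntermediateField.adjoin k (Set.range fun i => f (y i)) →+* K :=
    (e.symm : f.fieldRange →+* K).comp (inclusion hle).toRingHom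
  refine h2.ringHom_of_comp_eq g (RingHom.id _) g.injective ?_
  ext w
  change f (e.symm (inclusion hle w)) = (w : R)
  have h3 : e (e.symm (inclusion hle w)) = inclusion hle w := e.apply_symm_apply _
  exact congrArg Subtype.val h3

theorem ratFunc_data {M : Type} [Field M] [Algebra k M] (hM : Algebra.EssFiniteType k M) {c : ℕ}
    (h : Algebra.trdeg k M = c) :
    Algebra.EssFiniteType k (RatFunc M) ∧ Algebra.trdeg k (RatFunc M) = (c + 1 : ℕ) := by
  have hFF : IsFF M (RatFunc M) := by
    refine IsFF.of_finite (f := (RatFunc.X : RatFunc M)) RatFunc.transcendental_X ?_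
    rw [RatFunc.adjoin_X]
    exact Module.Finite.of_surjective (Algebra.linearMap (⊤ : IntermediateField M (RatFunc M))
      (RatFunc M)) fun z => ⟨⟨z, trivial⟩, rfl⟩
  have hess0 : Algebra.EssFiniteType M (RatFunc M) := hFF.ess
  refine ⟨Algebra.EssFiniteType.comp k M (RatFunc M), ?_⟩
  rw [← trdeg_add_eq k M (A := RatFunc M), hFF.trdeg, h]
  push_cast
  rfl

theorem trdeg_mono {Ω : Type} [Field Ω] [Algebra k Ω] {E F : IntermediateField k Ω} (h : E ≤ F) :
    Algebra.trdeg k E ≤ Algebra.trdeg k F :=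
  trdeg_le_of_injective (inclusion h) (inclusion h).injective

theorem trdeg_sup_le {Ω : Type} [Field Ω] [Algebra k Ω] {C N : IntermediateField k Ω} {c b : ℕ}
    (hC : Algebra.trdeg k C = c) (hN : Algebra.trdeg k N = b) :
    Algebra.trdeg k ↥(C ⊔ N) ≤ (c + b : ℕ) := by
  let C1 : IntermediateField k ↥(C ⊔ N) := restrict le_sup_left
  let N1 : IntermediateField k ↥(C ⊔ N) := restrict le_sup_right
  have hC1 : Algebra.trdeg k C1 = c := by
    rw [← hC]; exact (restrictAlgEquiv (le_sup_left : C ≤ C ⊔ N)).symm.trdeg_eq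
  have hN1 : Algebra.trdeg k N1 = b := by
    rw [← hN]; exact (restrictAlgEquiv (le_sup_right : N ≤ C ⊔ N)).symm.trdeg_eq
  have hsup : C1 ⊔ N1 = ⊤ := by
    apply lift_injective (C ⊔ N)
    rw [lift_top, lift, IntermediateField.map_sup]
    exact congrArg₂ (· ⊔ ·) (lift_restrict (le_sup_left : C ≤ C ⊔ N))
      (lift_restrict (le_sup_right : N ≤ C ⊔ N))
  have h1 := trdeg_le_iSup (a := ![c, b]) ![C1, N1] (fun i => by
    fin_cases i
    · exact hC1
    · exact hN1) (by
    rw [← hsup]
    apply le_antisymm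
    · refine iSup_le fun i => ?_
      fin_cases i
      · exact le_sup_left
      · exact le_sup_right
    · exact sup_le (le_iSup (fun i => ![C1, N1] i) 0) (le_iSup (fun i => ![C1, N1] i) 1))
  simpa using h1

/-- A field inside `C(t)` is uniruled if the transcendence degrees are right. -/
theorem uniruled_core {Ω : Type} [Field Ω] [Algebra k Ω] {E C : IntermediateField k Ω} {t : Ω}
    {n : ℕ} (hE : Algebra.trdeg k E = (n + 1 : ℕ)) (hC : Algebra.trdeg k C ≤ n)
    (hess : Algebra.EssFiniteType k C)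
    (hle : E ≤ (adjoin C {t}).restrictScalars k) : IsUniruled k E (n + 1) := by
  obtain ⟨c, hc⟩ : ∃ c : ℕ, Algebra.trdeg k C = c :=
    Cardinal.lt_aleph0.1 (hC.trans_lt (Cardinal.natCast_lt_aleph0))
  have hcn : c ≤ n := by rw [hc] at hC; exact_mod_cast hC
  let K : IntermediateField C Ω := adjoin C {t}
  have hKE : ((n + 1 : ℕ) : Cardinal) ≤ Algebra.trdeg k K := by
    rw [← hE]
    exact trdeg_le_of_injective (inclusion hle) (inclusion hle).injective
  have htr : Transcendental C t := by
    intro ht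
    have h1 : Algebra.IsAlgebraic C K := isAlgebraic_adjoin_simple ht.isIntegral
    have h2 : Algebra.trdeg k K = c := by
      rw [← hc, ← trdeg_add_eq k C (A := K), trdeg_eq_zero (R := C) (A := K), add_zero]
    rw [h2] at hKE
    have h3 : n + 1 ≤ c := by exact_mod_cast hKE
    omega
  let e : RatFunc C ≃ₐ[C] K := RatFunc.algEquivOfTranscendental t htr
  obtain ⟨-, htrR⟩ := ratFunc_data hess hc
  have hK2 : Algebra.trdeg k K = (c + 1 : ℕ) := by
    rw [← htrR]
    exact (e.restrictScalars k).symm.trdeg_eq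
  rw [hK2] at hKE
  have h3 : n + 1 ≤ c + 1 := by exact_mod_cast hKE
  have h4 : c = n := by omega
  refine ⟨C, inferInstance, inferInstance, hess, ?_, ⟨?_⟩⟩
  · rw [hc, h4]; push_cast; rfl
  · exact ((e.restrictScalars k).symm : K →ₐ[k] RatFunc C).comp (inclusion hle)

/-- Products with a uniruled factor are uniruled. -/
theorem uniruled_sup {L : Type} [Field L] [Algebra k L] {M N : IntermediateField k L} {a b : ℕ}
    (hsup : M ⊔ N = ⊤) (hn : Algebra.trdeg k L = (a + b : ℕ))
    (hM : Algebra.trdeg k M = a) (hN : Algebra.trdeg k N = b)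
    (hessN : Algebra.EssFiniteType k N) (h : IsUniruled k M a) : IsUniruled k L (a + b) := by
  obtain ⟨M', _, _, hess', htr', ⟨f⟩⟩ := h
  obtain ⟨c, rfl⟩ : ∃ c, a = c + 1 := by
    cases a with
    | zero =>
      exfalso
      have h1 : (1 : Cardinal) ≤ 0 := by
        calc (1 : Cardinal) ≤ Algebra.trdeg k M' + 1 := le_add_self
          _ = 0 := by rw [htr']; simp
      exact absurd h1 (by simp)
    | succ c => exact ⟨c, rfl⟩
  have htr : Algebra.trdeg k M' = c := by
    have h1 : Algebra.trdeg k M' + 1 = (c : Cardinal) + 1 := by rw [htr']; push_cast; rfl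
    exact Cardinal.add_one_inj.1 h1
  obtain ⟨hessR, htrR⟩ := ratFunc_data hess' htr
  letI : Algebra M (RatFunc M') := f.toRingHom.toAlgebra
  have t1 : IsScalarTower k M (RatFunc M') := IsScalarTower.of_algebraMap_eq fun c => by
    change _ = f (algebraMap k M c)
    rw [f.commutes]
  have halg : Algebra.IsAlgebraic M (RatFunc M') := alg_of_same hM htrR f
  let Ω := AlgebraicClosure L
  let φ : L →ₐ[k] Ω := IsScalarTower.toAlgHom k L Ω
  let g : RatFunc M' →ₐ[M] Ω := IsAlgClosed.lift
  let g' : RatFunc M' →ₐ[k] Ω := g.restrictScalars k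
  let t : Ω := g' RatFunc.X
  let ψ : M' →ₐ[k] Ω := g'.comp (IsScalarTower.toAlgHom k M' (RatFunc M'))
  let C0 : IntermediateField k Ω := ψ.fieldRange
  let N' : IntermediateField k Ω := N.map φ
  let C : IntermediateField k Ω := C0 ⊔ N'
  have hgf : ∀ z : M, g' (f z) = φ (z : L) := fun z => g.commutes z
  let E : IntermediateField k Ω := φ.fieldRange
  have eE : L ≃ₐ[k] E := AlgEquiv.ofInjectiveField φ
  have hE : Algebra.trdeg k E = (c + b + 1 : ℕ) := by
    rw [show c + b + 1 = c + 1 + b by ring, ← hn]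
    exact eE.symm.trdeg_eq
  have eC0 : M' ≃ₐ[k] C0 := AlgEquiv.ofInjectiveField ψ
  have hC0 : Algebra.trdeg k C0 = c := by rw [← htr]; exact eC0.symm.trdeg_eq
  have eN' : N ≃ₐ[k] N' := N.equivMap φ
  have hN' : Algebra.trdeg k N' = b := by rw [← hN]; exact eN'.symm.trdeg_eq
  have hessC : Algebra.EssFiniteType k C :=
    essFiniteType_iff.2 (fg_sup
      (essFiniteType_iff.1 ((Algebra.EssFiniteType.iff_of_algEquiv eC0).1 hess'))
      (essFiniteType_iff.1 ((Algebra.EssFiniteType.iff_of_algEquiv eN').1 hessN)))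
  have hC : Algebra.trdeg k C ≤ (c + b : ℕ) := trdeg_sup_le hC0 hN'
  have hR : ∀ z : RatFunc M', g' z ∈ (adjoin C {t}).restrictScalars k := by
    have h1 : (⊤ : IntermediateField M' (RatFunc M')) = adjoin M' {(RatFunc.X : RatFunc M')} :=
      RatFunc.adjoin_X.symm
    intro z
    have h2 : z ∈ adjoin M' {(RatFunc.X : RatFunc M')} := by rw [← h1]; trivial
    let K1 : IntermediateField k (RatFunc M') := ((adjoin C {t}).restrictScalars k).comap g'
    let K2 : IntermediateField M' (RatFunc M') :=
      { K1 with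
        algebraMap_mem' := fun m => by
          change g' (algebraMap M' (RatFunc M') m) ∈ adjoin C {t}
          have h3 : g' (algebraMap M' (RatFunc M') m) ∈ C := by
            refine (le_sup_left : C0 ≤ C0 ⊔ N') ?_
            exact ⟨m, rfl⟩
          exact (adjoin C {t}).algebraMap_mem ⟨_, h3⟩ }
    have h3 : adjoin M' {(RatFunc.X : RatFunc M')} ≤ K2 := by
      rw [adjoin_simple_le_iff]
      change g' RatFunc.X ∈ adjoin C {t}
      exact mem_adjoin_simple_self C t
    exact h3 h2
  have hle : E ≤ (adjoin C {t}).restrictScalars k := by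
    have h1 : E = (M ⊔ N).map φ := by
      rw [hsup, ← AlgHom.fieldRange_eq_map]
    rw [h1, IntermediateField.map_sup]
    refine sup_le ?_ ?_
    · rintro _ ⟨z, hz, rfl⟩
      have h2 := hR (f ⟨z, hz⟩)
      rw [hgf] at h2
      exact h2
    · intro z hz
      have h3 : z ∈ C := (le_sup_right : N' ≤ C0 ⊔ N') hz
      exact (adjoin C {t}).algebraMap_mem ⟨_, h3⟩
  have hU := uniruled_core hE hC hessC hle
  rw [show c + 1 + b = c + b + 1 by ring]
  obtain ⟨P, i1, i2, p1, p2, ⟨p3⟩⟩ := hU
  exact ⟨P, i1, i2, p1, p2, ⟨p3.comp (eE : L →ₐ[k] E)⟩⟩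

end

end Pool.Agent.K1H17.IS
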