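import Pool.Agent.K1H17.IS.Z0
import Pool.Agent.K1H17.IS.Ur

/-! Kodaira dimension `-∞` and uniruledness for quotients of products. -/

set_option autoImplicit false
set_option linter.overlappingInstances false
set_option linter.unusedSectionVars false
set_option linter.unusedVariables false
set_option linter.style.haveILetI false

open FF IntermediateField Pool.Agent.W619.PQ Pool.Agent.W619.PL Pool.Agent.W619.TW
  Pool.Agent.W603.LV Pool.Agent.W619.Y Pool.Agent.W672.PG Pool.Agent.W824.PG Pool.Agent.Y174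

namespace Pool.Agent.K1H17.IS

section

variable {k : Type} [Field k] [CharZero k]

theorem eff_of_kod0 {K : Type} [Field K] [Algebra k K] {n : ℕ} (h : KodTr k K n 0) :
    IsEff k K n (fun _ => False) := by
  obtain ⟨m, hm, ω, hω, D, hD, -⟩ := h
  exact ⟨m, hm, ω 0, hω 0, D, hD 0⟩

theorem kod0_of_eff {K : Type} [Field K] [Algebra k K] {n : ℕ}
    (h : IsEff k K n (fun _ => False)) : KodTr k K n 0 := by
  obtain ⟨m, hm, ω, hω, D, hD⟩ := h
  exact ⟨m, hm, fun _ => ω, fun _ => hω, D, fun _ => hD,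
    algebraicIndependent_empty_type_iff.2 (algebraMap k K).injective⟩

theorem kod0_iff [IsAlgClosed k] {K : Type} [Field K] [Algebra k K] {n : ℕ} :
    ¬ KodTr k K n 0 ↔ KodairaNeg k K n := by
  rw [← kodairaNeg_of_not_eff]
  exact not_congr ⟨eff_of_kod0, kod0_of_eff⟩

/-- The Kodaira dimension is not `-∞` on a cover if it is not `-∞` on the base. -/
theorem kod0_up {B K : Type} [Field B] [Field K] [Algebra k B] [Algebra k K] [Algebra B K]
    [IsScalarTower k B K] [FiniteDimensional B K] {a : ℕ} (hB : Algebra.trdeg k B = a)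
    (hK : Algebra.trdeg k K = a) (hessB : Algebra.EssFiniteType k B)
    (hessK : Algebra.EssFiniteType k K) (h : KodTr k B a 0) : KodTr k K a 0 := by
  obtain ⟨y, hy⟩ := Pool.Agent.W636.PG.exists_basis k B a hB
  have hyK : IsTranscendenceBasis k (algebraMap B K ∘ y) := hy.algebraMap_comp
  obtain ⟨E, hE⟩ := Pool.Agent.W636.PG.exists_duals k K a _ hyK
  obtain ⟨n, hn, hF⟩ := forms_0 hB hessB (pairKod_zero.2 h) y hy E hE
  obtain ⟨F, hF1, hF2, hF3⟩ := hF 1
  rw [one_mul] at hF1
  apply kod0_of_eff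
  refine ⟨n, hn, F, ⟨hF1, ?_, fun v _ h => absurd h (by simp)⟩, E, hF2⟩
  intro u hu _ D hD
  obtain ⟨e, v, huv⟩ := Pool.Agent.W73.PG.PULL.exists_over' (K := B) u
  have h1 := hF3 u v e huv hu
  have h2 : LogGe a u F n := by
    refine h1.mono ?_
    have h3 : (1 : ℝ) ≤ e := by exact_mod_cast huv.1
    have h4 : (0 : ℝ) ≤ n := Nat.cast_nonneg n
    push_cast
    nlinarith
  have h3 := reg_of_log hK hessK hu F hF1 h2 D fun j f hf => hD j f hf
  rw [sub_self] at h3
  rcases h3 with h3 | h3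
  · exact Or.inl h3
  · refine Or.inr ⟨1, Finset.mem_singleton_self _, one_ne_zero, ?_⟩
    rw [Nat.cast_zero, zero_mul]
    exact_mod_cast h3

variable [IsAlgClosed k]

theorem kod0_factor {L : Type} [Field L] [Algebra k L] {M F : IntermediateField k L} {a b : ℕ}
    (hsup : M ⊔ F = ⊤) (hn : Algebra.trdeg k L = (a + b : ℕ)) (hM : Algebra.trdeg k M = a)
    (hF : Algebra.trdeg k F = b) (hess : Algebra.EssFiniteType k L) (h : KodTr k L (a + b) 0) :
    KodTr k M a 0 := by
  obtain ⟨m, hm, ω, hω, D, hD⟩ := eff_of_kod0 h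
  obtain ⟨S1, hS⟩ := sec_factor (dj_of hsup hn hM hF) hn hM hF hess {1}
  obtain ⟨η, hη, D', hD'⟩ := hS m 0 ω hω ⟨D, hD⟩
  apply kod0_of_eff
  refine ⟨m, hm, η, ⟨hη.1, fun v hv hb D hD => ?_, fun v _ h => absurd h (by simp)⟩, D', hD'⟩
  rcases hη.2.1 v hv hb D hD with h1 | ⟨s, -, -, h1⟩
  · exact Or.inl h1
  · refine Or.inr ⟨1, Finset.mem_singleton_self _, one_ne_zero, ?_⟩
    rw [Nat.cast_zero, zero_mul] at h1 ⊢
    exact h1

/-- The complement of a factor. -/
theorem split {r : ℕ} {L : Type} [Field L] [Algebra k L] {M : Fin (r + 1) → IntermediateField k L}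
    {a : Fin (r + 1) → ℕ} (hess : ∀ i, Algebra.EssFiniteType k (M i))
    (hM : ∀ i, Algebra.trdeg k (M i) = a i) (hL : Algebra.trdeg k L = (∑ i, a i : ℕ))
    (hsup : (⨆ i, M i) = ⊤) (i : Fin (r + 1)) :
    ∃ (N : IntermediateField k L) (b : ℕ), M i ⊔ N = ⊤ ∧ Algebra.trdeg k N = b ∧
      Algebra.EssFiniteType k N ∧ ∑ i, a i = a i + b := by
  let N : IntermediateField k L := ⨆ j : Fin r, M (i.succAbove j)
  have hMN : ∀ j : Fin r, M (i.succAbove j) ≤ N := fun j =>
    le_iSup (fun j : Fin r => M (i.succAbove j)) j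
  let M0 : Fin r → IntermediateField k N := fun j => restrict (hMN j)
  have hM0 : ∀ j, Algebra.trdeg k (M0 j) = a (i.succAbove j) := fun j => by
    rw [← hM]; exact (restrictAlgEquiv (hMN j)).symm.trdeg_eq
  have hsup0 : (⨆ j, M0 j) = ⊤ := by
    apply lift_injective N
    rw [lift_top]
    rw [IntermediateField.lift, IntermediateField.map_iSup]
    exact iSup_congr fun j => lift_restrict (hMN j)
  have hN1 : Algebra.trdeg k N ≤ (∑ j : Fin r, a (i.succAbove j) : ℕ) :=
    trdeg_le_iSup M0 hM0 hsup0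
  have hsupN : M i ⊔ N = ⊤ := by
    rw [eq_top_iff, ← hsup]
    refine iSup_le fun l => ?_
    refine Fin.succAboveCases i ?_ (fun j => ?_) l
    · exact le_sup_left
    · exact (hMN j).trans le_sup_right
  have hessN : Algebra.EssFiniteType k N :=
    essFiniteType_iff.2 (fg_iSup fun j : Fin r => essFiniteType_iff.1 (hess (i.succAbove j)))
  obtain ⟨c, hc⟩ : ∃ c : ℕ, Algebra.trdeg k N = c :=
    Cardinal.lt_aleph0.1 (hN1.trans_lt (Cardinal.natCast_lt_aleph0))
  have hL1 : Algebra.trdeg k L ≤ (a i + c : ℕ) := by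
    have h1 := trdeg_sup_le (hM i) hc
    rw [hsupN] at h1
    rw [← (IntermediateField.topEquiv (F := k) (E := L)).trdeg_eq]
    exact h1
  refine ⟨N, c, hsupN, hc, hessN, ?_⟩
  rw [hL, Fin.sum_univ_succAbove a i] at hL1
  rw [hc] at hN1
  have h5 : a i + ∑ j : Fin r, a (i.succAbove j) ≤ a i + c := by exact_mod_cast hL1
  have h6 : c ≤ ∑ j : Fin r, a (i.succAbove j) := by exact_mod_cast hN1
  rw [Fin.sum_univ_succAbove a i]
  omega

end

section

variable {k : Type} [Field k] [CharZero k] [IsAlgClosed k]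
variable {L : Type} [Field L] [Algebra k L] {r : ℕ} {M : Fin r → IntermediateField k L}
  {a : Fin r → ℕ} {G : Subgroup (L ≃ₐ[k] L)}

theorem IsDiagonal.uniruled (h : IsDiagonal M a G) (i : Fin r)
    (hi : IsUniruled k (M i) (a i)) : IsUniruled k (fixedField G) (∑ i, a i) := by
  cases r with
  | zero => exact i.elim0
  | succ r =>
    obtain ⟨N, b, h1, h2, h3, h4⟩ := split h.ess h.trdeg h.total h.sup i
    have h5 := h.total
    rw [h4] at h5 ⊢
    exact uniruled_down G (uniruled_sup h1 h5 (h.trdeg i) h2 h3 hi)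

theorem IsDiagonal.kod0 [Finite G] (h : IsDiagonal M a G)
    (hX : KodTr k (fixedField G) (∑ i, a i) 0) (i : Fin r) : KodTr k (M i) (a i) 0 := by
  have hess := h.essL
  have hfinL : FiniteDimensional (fixedField G) L := by
    have hGal : IsGaloisGroup G (fixedField G) L := isGaloisGroup_fixed G
    exact IsGaloisGroup.finiteDimensional G (fixedField G) L
  have halgK := Pool.Agent.W721.PG.EFF2.alg_fixed G
  obtain ⟨hnK, z, hz⟩ := Pool.Agent.W721.PG.EFF2.exists_basis (fixedField G) _ h.total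
  have hessK : Algebra.EssFiniteType k (fixedField G) := ess_down hess z hz
  have hL : KodTr k L (∑ i, a i) 0 := kod0_up hnK h.total hessK hess hX
  cases r with
  | zero => exact i.elim0
  | succ r =>
    obtain ⟨N, b, h1, h2, h3, h4⟩ := split h.ess h.trdeg h.total h.sup i
    have h5 := h.total
    rw [h4] at h5 hL
    exact kod0_factor h1 h5 (h.trdeg i) h2 hess hL

/-- `κ (X) = -∞` if and only if `κ (W i) = -∞` for some `i`. -/
theorem IsDiagonal.kodairaNeg [Finite G] (h : IsDiagonal M a G) (s : Fin r → (L ≃ₐ[k] L) → ℝ)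
    (hs : ∀ i, (∀ g ∈ G, s i g ≤ 0) ∨ OrbEffective (M i) G (a i) (s i)) (hg : AgeCond M G s) :
    KodairaNeg k (fixedField G) (∑ i, a i) ↔ ∃ i, KodairaNeg k (M i) (a i) := by
  have hess := h.essL
  have halg : Algebra.IsAlgebraic ↥(⨆ i, M i) L := by
    rw [h.sup]
    exact ⟨fun z => isAlgebraic_algebraMap (⟨z, trivial⟩ : (⊤ : IntermediateField k L))⟩
  simp only [← kod0_iff]
  constructor
  · intro h1
    by_contra h2
    push Not at h2
    exact h1 (kod_zero M halg h.total h.trdeg hess h.ess G h.stable s hs hg h2)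
  · rintro ⟨i, hi⟩ h1
    exact hi (h.kod0 h1 i)

/-- Uniruled varieties have Kodaira dimension `-∞`. -/
theorem kodairaNeg_of_uniruled {K : Type} [Field K] [Algebra k K]
    (hess : Algebra.EssFiniteType k K) {n : ℕ} (hn : Algebra.trdeg k K = n)
    (h : IsUniruled k K n) : KodairaNeg k K n :=
  kodairaNeg_of_not_eff.1 fun h3 => (uniruled_neg n hn h).1 (psef_of_eff h3)

theorem IsDiagonal.quot [Finite G] (h : IsDiagonal M a G) :
    Algebra.trdeg k (fixedField G) = (∑ i, a i : ℕ) ∧ Algebra.EssFiniteType k (fixedField G) := by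
  have hess := h.essL
  have hfinL : FiniteDimensional (fixedField G) L := by
    have hGal : IsGaloisGroup G (fixedField G) L := isGaloisGroup_fixed G
    exact IsGaloisGroup.finiteDimensional G (fixedField G) L
  have halgK := Pool.Agent.W721.PG.EFF2.alg_fixed G
  obtain ⟨hnK, z, hz⟩ := Pool.Agent.W721.PG.EFF2.exists_basis (fixedField G) _ h.total
  exact ⟨hnK, ess_down hess z hz⟩

/-- `κ = -∞` implies uniruled, for the quotient. -/
theorem IsDiagonal.uniruled_iff [Finite G] (h : IsDiagonal M a G) (s : Fin r → (L ≃ₐ[k] L) → ℝ)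
    (hs : ∀ i, (∀ g ∈ G, s i g ≤ 0) ∨ OrbEffective (M i) G (a i) (s i)) (hg : AgeCond M G s)
    (hQ : ∀ i, KodairaNeg k (M i) (a i) → IsUniruled k (M i) (a i)) :
    (KodairaNeg k (fixedField G) (∑ i, a i) ↔ IsUniruled k (fixedField G) (∑ i, a i)) ∧
    (IsUniruled k (fixedField G) (∑ i, a i) ↔ ∃ i, IsUniruled k (M i) (a i)) := by
  obtain ⟨hnK, hessK⟩ := h.quot
  have h1 := h.kodairaNeg s hs hg
  have h2 : (∃ i, IsUniruled k (M i) (a i)) → IsUniruled k (fixedField G) (∑ i, a i) :=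
    fun ⟨i, hi⟩ => h.uniruled i hi
  have h3 : IsUniruled k (fixedField G) (∑ i, a i) → KodairaNeg k (fixedField G) (∑ i, a i) :=
    kodairaNeg_of_uniruled hessK hnK
  have h4 : KodairaNeg k (fixedField G) (∑ i, a i) → ∃ i, IsUniruled k (M i) (a i) := fun h5 => by
    obtain ⟨i, hi⟩ := h1.1 h5
    exact ⟨i, hQ i hi⟩
  exact ⟨⟨fun h5 => h2 (h4 h5), h3⟩, fun h5 => h4 (h3 h5), h2⟩

/-- Nonvanishing for the quotient. -/
theorem IsDiagonal.nonvanishing [Finite G] (h : IsDiagonal M a G)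
    (s : Fin r → (L ≃ₐ[k] L) → ℝ)
    (hs : ∀ i, (∀ g ∈ G, s i g ≤ 0) ∨ OrbEffective (M i) G (a i) (s i)) (hg : AgeCond M G s)
    (hQ : ∀ i, IsPsef k (M i) (a i) (fun _ => False) → ¬ KodairaNeg k (M i) (a i)) :
    IsPsef k (fixedField G) (∑ i, a i) (fun _ => False) →
      ¬ KodairaNeg k (fixedField G) (∑ i, a i) := by
  intro h1 h2
  obtain ⟨i, hi⟩ := (h.kodairaNeg s hs hg).1 h2
  exact hQ i (h.num.1 h1 i) hi

end

end Pool.Agent.K1H17.IS
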