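import Pool.Agent.K1H17.IS.Fm
import Pool.Agent.K1H17.IS.Kn2

/-! Kodaira dimension `≥ 0` for quotients of products: the criterion with weights. -/

set_option autoImplicit false
set_option linter.overlappingInstances false
set_option linter.unusedSectionVars false
set_option linter.unusedVariables false
set_option linter.style.haveILetI false

open FF IntermediateField Pool.Agent.W619.PQ Pool.Agent.W619.PL Pool.Agent.W619.TW
  Pool.Agent.W603.LV Pool.Agent.W619.Y Pool.Agent.W672.PG Pool.Agent.W824.PG Pool.Agent.Y174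

namespace Pool.Agent.K1H17.IS

section

variable {k : Type} [Field k] [CharZero k] {B K : Type} [Field B] [Field K] [Algebra k B]
  [Algebra k K] [Algebra B K] [IsScalarTower k B K]

/-- Pull-backs of forms to a cover. -/
theorem forms_0 [FiniteDimensional B K] {a : ℕ} (hB : Algebra.trdeg k B = a)
    (hessB : Algebra.EssFiniteType k B) {δ : Place k B → ℝ} (hη : PairKod k B a δ 0)
    (y : Fin a → B) (hy : IsTranscendenceBasis k y)
    (E : Fin a → Derivation k K K)
    (hE : ∀ i j, E i (algebraMap B K (y j)) = if i = j then 1 else 0) :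
    ∃ n : ℕ, 1 ≤ n ∧ ∀ T : ℕ,
      ∃ F : (Fin a → Derivation k K K) → K,
        IsPluriForm k K a (T * n) F ∧ F E ≠ 0 ∧
        ∀ (u : Place k K) (v : Place k B) (e : ℕ), Over u v e → IsDivisorial u a →
          LogGe a u F (T * (e * (n * (1 - δ v)))) := by
  obtain ⟨EB, hEB⟩ := Pool.Agent.W636.PG.exists_duals k B a y hy
  obtain ⟨n, hn, η, hη1, hη2, hη3, -⟩ := pairKod_form hη y hy EB hEB
  refine ⟨n, hn, fun T => ?_⟩
  let P : (Fin a → Derivation k K K) → K := fun D =>
    (Matrix.of fun a b => D a (algebraMap B K (y b))).det ^ n * algebraMap B K (η 0 EB)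
  have hP : IsPluriForm k K a n P := pluri_pull y (η 0 EB)
  have hPE : P E = algebraMap B K (η 0 EB) := by
    have h1 : (Matrix.of fun a b => E a (algebraMap B K (y b))) = 1 := by
      ext i j
      rw [Matrix.of_apply, Matrix.one_apply, hE]
    change (Matrix.of fun a b => E a (algebraMap B K (y b))).det ^ n * _ = _
    rw [h1, Matrix.det_one, one_pow, one_mul]
  have hPE0 : P E ≠ 0 := by
    rw [hPE]
    exact (map_ne_zero_iff _ (algebraMap B K).injective).2 (hη3 0)
  refine ⟨fun D => P D ^ T, pluri_pow hP T, pow_ne_zero _ hPE0, ?_⟩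
  intro u v e huv hu
  have hv : IsDivisorial v a := Pool.Agent.Y174.pDIVI k B K a v u e huv hu
  have h1 := logGe_pull hB hessB huv hv y hy EB hEB (η 0) (hη1 0) (hη2 0 v hv)
  refine (h1.pow T).mono ?_
  apply le_of_eq
  ring

end

section

variable {k : Type} {L : Type} [Field k] [CharZero k] [Field L] [Algebra k L]
variable (M : IntermediateField k L) (G : Subgroup (L ≃ₐ[k] L)) [Finite G]

/-- The output for one factor, one form. -/
def FacData0 (M : IntermediateField k L) (G : Subgroup (L ≃ₐ[k] L)) (a N : ℕ)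
    (s : (L ≃ₐ[k] L) → ℝ) (y : Fin a → M) (E : Fin a → Derivation k M M) (n : ℕ) : Prop :=
  ∀ T : ℕ,
    ∃ F : (Fin a → Derivation k M M) → M,
      IsPluriForm k M a (T * n) F ∧ F E ≠ 0 ∧
      (∀ (u : Place k M), IsDivisorial u a → LogGe a u F ((T * n : ℕ) : ℝ)) ∧
      ∀ (v : Place k (fixedField G)) (w : Place k L) (e : ℕ), Over w v e → IsDivisorial w N →
        ∀ h ∈ G, orderOf h = e → Inert w h →
          (ActsTrivially M h → LG w (T * n) (fun i => (y i : L)) ((F E : M) : L) 0) ∧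
          (¬ ActsTrivially M h → LG w (T * n) (fun i => (y i : L))
            ((F E : M) : L) (T * n * max 1 (e * s h)))

theorem fac_orb0 (hGM : ∀ g ∈ G, ∀ z ∈ M, g z ∈ M) {a N : ℕ} (hM : Algebra.trdeg k M = a)
    (hn : Algebra.trdeg k L = N) (hessM : Algebra.EssFiniteType k M)
    {s : (L ≃ₐ[k] L) → ℝ} (hs : OrbEffective M G a s)
    (y0 : Fin a → ↥(M ⊓ fixedField G)) (hy0 : IsTranscendenceBasis k y0)
    (hy : IsTranscendenceBasis k
      (fun i => inclusion (inf_le_left : M ⊓ fixedField G ≤ M) (y0 i)))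
    (E : Fin a → Derivation k M M)
    (hE : ∀ i j, E i (inclusion (inf_le_left : M ⊓ fixedField G ≤ M) (y0 j)) =
        if i = j then 1 else 0) :
    ∃ n : ℕ, 1 ≤ n ∧ FacData0 M G a N s
      (fun i => inclusion (inf_le_left : M ⊓ fixedField G ≤ M) (y0 i)) E n := by
  obtain ⟨δ, hδ, hη⟩ := hs
  letI := qalg M G
  haveI := qtower M G
  haveI := qalgebraic M G hGM
  haveI := qfinite M G hGM hessM
  obtain ⟨n, hn1, hF⟩ := forms_0 (qtrdeg M G hGM hM) (qess M G hGM hessM y0 hy0)
    hη y0 hy0 E hE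
  refine ⟨n, hn1, fun T => ?_⟩
  obtain ⟨F, hF1, hF2, hF4⟩ := hF T
  have hlog : ∀ (u : Place k M), IsDivisorial u a →
      LogGe a u F ((T * n : ℕ) : ℝ) := by
    intro u hu
    obtain ⟨e, v, huv⟩ := Pool.Agent.W73.PG.PULL.exists_over' (K := ↥(M ⊓ fixedField G)) u
    refine (hF4 u v e huv hu).mono ?_
    have h1 := (hδ u v e huv).1
    have h2 : (0 : ℝ) ≤ T * n := by positivity
    have h3 := mul_le_mul_of_nonneg_left h1 h2
    push_cast
    linarith
  refine ⟨F, hF1, hF2, hlog, ?_⟩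
  intro v w e hwv hw h hh hord hI
  refine ⟨fun _ => lg_nonneg M hM hn hessM hF1 hlog _ hy E hE hw, fun h1 => ?_⟩
  obtain ⟨c, u, hu⟩ := exists_over (K := M) w (nontriv' M (hGM h hh) h1 hI)
  obtain ⟨e1, q, hq⟩ := Pool.Agent.W73.PG.PULL.exists_over' (K := ↥(M ⊓ fixedField G)) u
  have hle := index_le M G hwv hu hq
  have hdiv : IsDivisorial u a := Pool.Agent.W619.Y.pDIVR k M L a N u w c hM hn hu hw
  refine (lg_of_log hM hn hessM hw hu F hF1 (hF4 u q e1 hq hdiv) _ hy E hE).mono ?_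
  have h2 := (hδ u q e1 hq).2 h hh h1 (fixes_of_inert M hI hu)
  have h3' := (hδ u q e1 hq).1
  have hc : (1 : ℝ) ≤ c := by exact_mod_cast hu.1
  have hle' : (e : ℝ) ≤ c * e1 := by exact_mod_cast hle
  have h3 : (0 : ℝ) ≤ T * n := by positivity
  have hδ1 : 0 ≤ 1 - δ q := by
    by_contra hcon
    push Not at hcon
    have he1 : (0 : ℝ) ≤ e1 := Nat.cast_nonneg _
    have := mul_nonpos_of_nonneg_of_nonpos he1 hcon.le
    linarith
  have h5 : max 1 ((e : ℝ) * s h) ≤ (c * e1) * (1 - δ q) := by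
    apply max_le
    · have h6 : (1 : ℝ) * 1 ≤ c * (e1 * (1 - δ q)) :=
        mul_le_mul hc h3' zero_le_one (by linarith)
      linarith
    · have h6 : (e : ℝ) * s h ≤ e * (1 - δ q) :=
        mul_le_mul_of_nonneg_left (by linarith) (Nat.cast_nonneg _)
      have h7 : (e : ℝ) * (1 - δ q) ≤ (c * e1) * (1 - δ q) :=
        mul_le_mul_of_nonneg_right hle' hδ1
      linarith
  have h8 := mul_le_mul_of_nonneg_left h5 h3
  nlinarith

theorem fac_free0 (hGM : ∀ g ∈ G, ∀ z ∈ M, g z ∈ M) {a N : ℕ} (hM : Algebra.trdeg k M = a)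
    (hn : Algebra.trdeg k L = N) (hessM : Algebra.EssFiniteType k M)
    {s : (L ≃ₐ[k] L) → ℝ} (hs : ∀ g ∈ G, s g ≤ 0) (hω : KodTr k M a 0)
    (y : Fin a → M) (hy : IsTranscendenceBasis k y)
    (E : Fin a → Derivation k M M) (hE : ∀ i j, E i (y j) = if i = j then 1 else 0) :
    ∃ n : ℕ, 1 ≤ n ∧ FacData0 M G a N s y E n := by
  obtain ⟨m, hm, ω, hω1, hω2, hω3, -⟩ := pairKod_form (pairKod_zero.2 hω) y hy E hE
  have hlog0 : ∀ l (u : Place k M), IsDivisorial u a → LogGe a u (ω l) m := by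
    intro l u hu
    have h2 : LogGe a u (ω l) (m + 0) := by
      refine logGe_of_reg hM hessM hu (ω l) (hω1 l) fun D hD => ?_
      have h3 := hω2 l u hu D hD
      simpa using h3
    simpa using h2
  refine ⟨m, hm, fun T => ?_⟩
  have hF1 : IsPluriForm k M a (T * m) (fun D => ω 0 D ^ T) := pluri_pow (hω1 0) _
  have hlog : ∀ (u : Place k M), IsDivisorial u a →
      LogGe a u (fun D => ω 0 D ^ T) ((T * m : ℕ) : ℝ) := by
    intro u hu
    refine ((hlog0 0 u hu).pow T).mono ?_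
    push_cast
    exact le_rfl
  refine ⟨fun D => ω 0 D ^ T, hF1, pow_ne_zero _ (hω3 0), hlog, ?_⟩
  intro v w e hwv hw h hh hord hI
  refine ⟨fun _ => lg_nonneg M hM hn hessM hF1 hlog _ hy E hE hw, fun h1 => ?_⟩
  obtain ⟨c, u, hu⟩ := exists_over (K := M) w (nontriv' M (hGM h hh) h1 hI)
  have hdiv : IsDivisorial u a := Pool.Agent.W619.Y.pDIVR k M L a N u w c hM hn hu hw
  refine (lg_of_log hM hn hessM hw hu _ hF1 (hlog u hdiv) y hy E hE).mono ?_
  have hc : (1 : ℝ) ≤ c := by exact_mod_cast hu.1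
  have hmax : max 1 ((e : ℝ) * s h) = 1 := by
    apply max_eq_left
    have := mul_nonpos_of_nonneg_of_nonpos (Nat.cast_nonneg (α := ℝ) e) (hs h hh)
    linarith
  rw [hmax]
  have h4 : (0 : ℝ) ≤ T * m := by positivity
  push_cast
  nlinarith

end

section

variable {k : Type} {L : Type} [Field k] [CharZero k] [Field L] [Algebra k L]

open scoped Classical in
/-- The numerical criterion (for the Kodaira dimension to be `≥ 0`): for every `g ≠ 1` in `G`, of
order `d`, the sum of `max (1 / d, s i g)` over the factors on which `g` acts nontrivially is at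
least `1`. -/
def AgeCond {r : ℕ} (M : Fin r → IntermediateField k L) (G : Subgroup (L ≃ₐ[k] L))
    (s : Fin r → (L ≃ₐ[k] L) → ℝ) : Prop :=
  ∀ g ∈ G, g ≠ 1 →
    1 ≤ ∑ i ∈ Finset.univ.filter fun i => ¬ ActsTrivially (M i) g, max (1 / (orderOf g : ℝ)) (s i g)

theorem kod_zero {r : ℕ} {a : Fin r → ℕ} (M : Fin r → IntermediateField k L)
    (halg : Algebra.IsAlgebraic ↥(⨆ i, M i) L) (hn : Algebra.trdeg k L = (∑ i, a i : ℕ))
    (hM : ∀ i, Algebra.trdeg k (M i) = a i) (hessL : Algebra.EssFiniteType k L)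
    (hessM : ∀ i, Algebra.EssFiniteType k (M i)) (G : Subgroup (L ≃ₐ[k] L)) [Finite G]
    (hG : ∀ i, ∀ g ∈ G, ∀ z ∈ M i, g z ∈ M i) (s : Fin r → (L ≃ₐ[k] L) → ℝ)
    (hs : ∀ i, (∀ g ∈ G, s i g ≤ 0) ∨ OrbEffective (M i) G (a i) (s i))
    (hg : AgeCond M G s) (hω : ∀ i, KodTr k (M i) (a i) 0) :
    KodTr k (fixedField G) (∑ i, a i) 0 := by
  classical
  have hfac : ∀ i, ∃ (y : Fin (a i) → M i) (E : Fin (a i) → Derivation k (M i) (M i)) (n : ℕ),
      IsTranscendenceBasis k y ∧ (∀ p q, E p (y q) = if p = q then 1 else 0) ∧ 1 ≤ n ∧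
      FacData0 (M i) G (a i) (∑ i, a i) (s i) y E n := by
    intro i
    obtain ⟨y0, E, hy0, hy, hE⟩ := exists_coords (M i) G (hG i) (hM i)
    rcases hs i with h1 | h1
    · obtain ⟨n, h2, h4⟩ := fac_free0 (M i) G (hG i) (hM i) hn (hessM i) h1 (hω i) _ hy E hE
      exact ⟨_, E, n, hy, hE, h2, h4⟩
    · obtain ⟨n, h2, h4⟩ := fac_orb0 (M i) G (hG i) (hM i) hn (hessM i) h1 y0 hy0 hy E hE
      exact ⟨_, E, n, hy, hE, h2, h4⟩
  choose y E n hy hE hn1 hF using hfac
  let Sf : (L ≃ₐ[k] L) → Finset (Fin r) := fun g =>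
    Finset.univ.filter fun i => ¬ ActsTrivially (M i) g
  let Wt : (L ≃ₐ[k] L) → ℝ := fun g => ∑ i ∈ Sf g, max (1 / (orderOf g : ℝ)) (s i g)
  let Q : ℕ := ∏ i, n i
  have hQ : 1 ≤ Q := Nat.succ_le_of_lt (Finset.prod_pos fun i _ => hn1 i)
  have hQn : ∀ i, ∃ p, Q = n i * p := fun i => Finset.dvd_prod_of_mem _ (Finset.mem_univ i)
  choose p hp using hQn
  have hwt : ∀ i, p i * n i = Q := by
    intro i
    rw [mul_comm]
    exact (hp i).symm
  choose F hF1 hF2 hF4 hF5 using fun i => hF i (p i)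
  simp only [hwt] at hF1 hF4 hF5
  have hsum0 : (∑ i, (fun _ => 0 : Fin r → ℕ) i) = 0 := Finset.sum_const_zero
  have hmain : KodTr k (fixedField G) (∑ i, a i) (∑ i, (fun _ => 0 : Fin r → ℕ) i) := by
    refine kod_prodR (μ := Q) (A := fun _ => 0) hQ M halg hn hM hessL hessM G y hy E hE
      (fun i _ => F i) (fun i _ => hF1 i) (fun i _ => hF2 i) (fun i => ?_)
      (fun i _ => hF4 i) ?_
    · exact algebraicIndependent_empty_type_iff.2 (algebraMap k (M i)).injective
    intro v hv w e hwv he2 hin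
    obtain ⟨h, hh, h1, hord, hI⟩ := hin
    have hw := divisorial_up hwv hv
    refine ⟨fun i => if ActsTrivially (M i) h then 0 else (Q : ℝ) * max 1 (e * s i h), ?_, ?_⟩
    · have e0 : (0 : ℝ) < e := by
        have : 0 < e := by omega
        exact_mod_cast this
      have e1 : ∑ i, (if ActsTrivially (M i) h then 0 else (Q : ℝ) * max 1 (e * s i h)) =
          ∑ i ∈ Sf h, ((Q : ℝ) * (e * max (1 / (orderOf h : ℝ)) (s i h))) := by
        rw [Finset.sum_filter]
        refine Finset.sum_congr rfl fun i _ => ?_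
        by_cases hi : ActsTrivially (M i) h
        · rw [if_pos hi, if_neg (not_not.2 hi)]
        · rw [if_neg hi, if_pos hi]
          have h2 : max 1 ((e : ℝ) * s i h) = e * max (1 / (orderOf h : ℝ)) (s i h) := by
            rw [hord, mul_max_of_nonneg _ _ e0.le, mul_one_div_cancel e0.ne']
          rw [h2]
      rw [e1, ← Finset.mul_sum, ← Finset.mul_sum]
      change _ ≤ (Q : ℝ) * (e * Wt h)
      have hQ0 : (0 : ℝ) ≤ Q := Nat.cast_nonneg _
      have h2 : 1 ≤ Wt h := hg h hh h1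
      refine mul_le_mul_of_nonneg_left ?_ hQ0
      nlinarith
    · intro i l
      obtain ⟨h2, h3⟩ := hF5 i v w e hwv hw h hh hord hI
      beta_reduce
      by_cases hi : ActsTrivially (M i) h
      · rw [if_pos hi]
        exact h2 hi
      · rw [if_neg hi]
        have h4 := h3 hi
        have h5 : ((p i : ℝ) * n i) = Q := by
          rw [← hwt i]; push_cast; ring
        rw [h5] at h4
        exact h4
  rw [hsum0] at hmain
  exact hmain

end

end Pool.Agent.K1H17.IS
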